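import Mathlib
import Pool.Agent.GrC.Stmt

/-!
The curve of genus one `ν² - T ν - N = 0`, `T = x (x - 1 - w)`, `N = t - w (x - 1 - w)²`.

`AQ w t = R[x][ν]/(ν² - T ν - N)` for a commutative ring `R`, and `EQ w t` is its function field
for a field `K`; `ω` is `ν`.  The two points over `x = ∞` are `O` (where `ν ~ x²`) and `R` (where `ν ~ w`).
`InB u`: `u` is regular at `O` and `R`.  `ε` has order `1` at `O` and `0` at `R`; `δ = (ε x)⁻¹` has order
`0` at `O` and `1` at `R`.
-/

set_option autoImplicit false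

namespace Pool.Agent.GrE

open Polynomial Pool.Agent.GrS

section

variable {R : Type*} [CommRing R]

/-- `T = x (x - 1 - w)`. -/
noncomputable def TT (w : R) : R[X] := X * (X - C (1 + w))

/-- `N = t - w (x - 1 - w)²`. -/
noncomputable def NN (w t : R) : R[X] := C t - C w * (X - C (1 + w)) ^ 2

/-- `R[x][ν]/(ν² - T ν - N)`. -/
abbrev AQ (w t : R) : Type _ := QuadraticAlgebra R[X] (NN w t) (TT w)

/-- `A + B ν` has order at least `-(j+1)` at `O` and `j` at `R`: `(A + B ν) (x² - ν)^(2j+1) = C + D ν` with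
`deg C ≤ 3j + 2` and `deg D ≤ 3j`. -/
def InP (w t : R) (j : ℕ) (A B : R[X]) : Prop :=
  ((⟨A, B⟩ : AQ w t) * (⟨X ^ 2, -1⟩ : AQ w t) ^ (2 * j + 1)).re.natDegree ≤ 3 * j + 2 ∧
    ((⟨A, B⟩ : AQ w t) * (⟨X ^ 2, -1⟩ : AQ w t) ^ (2 * j + 1)).im.natDegree ≤ 3 * j

end

section

variable {K : Type*} [Field K]

/-- The coefficient `N` in `K(x)`. -/
noncomputable def Nf (w t : K) : RatFunc K := algebraMap K[X] (RatFunc K) (NN w t)

/-- The coefficient `T` in `K(x)`. -/
noncomputable def Tf (w : K) : RatFunc K := algebraMap K[X] (RatFunc K) (TT w)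

/-- The function field of the curve of genus one. -/
abbrev EQ (w t : K) : Type _ := QuadraticAlgebra (RatFunc K) (Nf w t) (Tf w)

/-- The function `A + B ν`, `A`, `B` polynomials. -/
noncomputable def pp (w t : K) (A B : K[X]) : EQ w t :=
  ⟨algebraMap K[X] (RatFunc K) A, algebraMap K[X] (RatFunc K) B⟩

/-- The functions `A + B ν`, `A`, `B` polynomials. -/
def InA {w t : K} (u : EQ w t) : Prop := ∃ A B : K[X], u = pp w t A B

/-- `x` as an element of the function field. -/
noncomputable def xE (w t : K) : EQ w t := algebraMap (RatFunc K) (EQ w t) RatFunc.X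

/-- `W = 2 ν - T`, so that `dx / W` is the regular differential. -/
noncomputable def WE (w t : K) : EQ w t := ⟨- Tf w, 2⟩

/-- The functions regular at the points over `x = ∞`. -/
def InB {w t : K} (u : EQ w t) : Prop := u.re ∈ regInf K ∧ RatFunc.X ^ 2 * u.im ∈ regInf K

/-- `ε = 1 - ν / x²`; order `1` at `O`, order `0` at `R`. -/
noncomputable def eps (w t : K) : EQ w t := ⟨1, - (RatFunc.X ^ 2)⁻¹⟩

/-- The generator `ε^(2j+1) x^j` (`j ≥ 1`), `1` (`j = 0`) of the ideal of the functions `a` at infinity for which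
`a^g α^j` is regular. -/
noncomputable def gB (w t : K) (j : ℕ) : EQ w t :=
  if j = 0 then 1 else eps w t ^ (2 * j + 1) * xE w t ^ j

/-- `u = A + B ν` with polynomials `A`, `B` is in `L_j` if its divisor is at least `j R - (j+1) O`; `L_0` are the
constants. -/
def InL {w t : K} (j : ℕ) (u : EQ w t) : Prop := InA u ∧ InB (u * gB w t j)

/-- The curve is irreducible and smooth. -/
structure Good (w t : K) : Prop where
  w_ne : w ≠ 0
  s_ne : 1 + w ≠ 0
  smooth : ∀ c n : K, n ^ 2 - (TT w).eval c * n - (NN w t).eval c = 0 →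
    2 * n = (TT w).eval c → (derivative (TT w)).eval c * n + (derivative (NN w t)).eval c ≠ 0

end

end Pool.Agent.GrE
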