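import Mathlib
import Pool.Agent.GrE.Defs

/-!
The nodal curve `t = 0`: `x = μ + w/μ`, `ν = (μ - 1) (μ - w)`, and the functions `h_j = μ^j ([j+1] - [j] μ)`,
`[n] = 1 + w + ... + w^(n-1)`.
-/

set_option autoImplicit false

namespace Pool.Agent.GrE

open Polynomial

/-- `[n] = 1 + w + ... + w^(n-1)`. -/
def br {R : Type*} [CommRing R] (w : R) (n : ℕ) : R := ∑ i ∈ Finset.range n, w ^ i

section

variable {Ω : Type*} [Field Ω]

/-- `x = μ + w/μ`. -/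
def xm (w μ : Ω) : Ω := μ + w * μ⁻¹

/-- `ν = (μ - 1) (μ - w)`. -/
def nm (w μ : Ω) : Ω := (μ - 1) * (μ - w)

/-- `h_j = μ^j ([j+1] - [j] μ)`. -/
def hm (w μ : Ω) (j : ℕ) : Ω := μ ^ j * (br w (j + 1) - br w j * μ)

end

section

variable {k : Type*} [Field k]

/-- `A(x) + B(x) ν = h_j` in `k(μ)`. -/
def Red (w : k) (j : ℕ) (A B : k[X]) : Prop :=
  A.eval₂ RatFunc.C (xm (RatFunc.C w) RatFunc.X) +
    B.eval₂ RatFunc.C (xm (RatFunc.C w) RatFunc.X) * nm (RatFunc.C w) RatFunc.X =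
  hm (RatFunc.C w) RatFunc.X j

/-- `μ = ([g+1] - z^g)/[g]` as an element of `k(z)`. -/
noncomputable def MM (w : k) (g : ℕ) : RatFunc k :=
  (RatFunc.C (br w (g + 1)) - RatFunc.X ^ g) / RatFunc.C (br w g)

end

end Pool.Agent.GrE
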