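import Mathlib
import Pool.Agent.GrE.RedDefs
import Pool.Agent.GrP.Nodal

/-!
The differentials of the nodal rational curve with the nodes `θ^l ~ w θ^l` as eigenforms.
-/

set_option autoImplicit false

namespace Pool.Agent.GrE

open Polynomial Pool.Agent.GrP

variable {k : Type*} [Field k]

/-- The sum of the powers of a root of unity. -/
theorem Dft_sum_pow {g : ℕ} {ζ : k} (h1 : ζ ^ g = 1) (hne : ζ ≠ 1) :
    ∑ l : Fin g, ζ ^ (l : ℕ) = 0 := by
  have h := geom_sum_mul ζ g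
  rw [h1, sub_self] at h
  rw [Fin.sum_univ_eq_sum_range (fun i => ζ ^ i) g]
  rcases mul_eq_zero.1 h with h | h
  · exact h
  · exact absurd (sub_eq_zero.1 h) hne

/-- Partial fractions. -/
theorem Dft_pf {g : ℕ} {θ : k} (hθ : IsPrimitiveRoot θ g) (b : k) {s : ℕ} (hs : s < g) :
    ∑ l : Fin g, RatFunc.C (θ ^ ((l : ℕ) * (s + 1))) *
        (RatFunc.X - RatFunc.C (b * θ ^ (l : ℕ)))⁻¹ =
      RatFunc.C (g : k) * RatFunc.X ^ s * RatFunc.C (b ^ (g - 1 - s)) /
        (RatFunc.X ^ g - RatFunc.C (b ^ g)) := by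
  have hg : 0 < g := lt_of_le_of_lt (Nat.zero_le _) hs
  have hXc : ∀ c : k, (RatFunc.X - RatFunc.C c : RatFunc k) ≠ 0 := by
    intro c h
    have h2 : (algebraMap k[X] (RatFunc k)) (X - C c) = 0 := by
      rw [map_sub, RatFunc.algebraMap_X, RatFunc.algebraMap_C]; exact h
    rw [map_eq_zero_iff _ (IsFractionRing.injective k[X] (RatFunc k))] at h2
    exact Polynomial.X_sub_C_ne_zero c h2
  have hXg : (RatFunc.X ^ g - RatFunc.C (b ^ g) : RatFunc k) ≠ 0 := by
    intro h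
    have h2 : (algebraMap k[X] (RatFunc k)) (X ^ g - C (b ^ g)) = 0 := by
      rw [map_sub, map_pow, RatFunc.algebraMap_X, RatFunc.algebraMap_C]; exact h
    rw [map_eq_zero_iff _ (IsFractionRing.injective k[X] (RatFunc k))] at h2
    exact Polynomial.X_pow_sub_C_ne_zero hg _ h2
  have hinv : ∀ l : Fin g, (RatFunc.X - RatFunc.C (b * θ ^ (l : ℕ)) : RatFunc k)⁻¹ =
      (∑ i ∈ Finset.range g, RatFunc.X ^ i * (RatFunc.C (b * θ ^ (l : ℕ))) ^ (g - 1 - i)) /
        (RatFunc.X ^ g - RatFunc.C (b ^ g)) := by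
    intro l
    have h := (Commute.all (RatFunc.X : RatFunc k) (RatFunc.C (b * θ ^ (l : ℕ)))).geom_sum₂_mul g
    have hpow : (RatFunc.C (b * θ ^ (l : ℕ)) : RatFunc k) ^ g = RatFunc.C (b ^ g) := by
      rw [← map_pow, mul_pow, ← pow_mul, mul_comm (l : ℕ) g, pow_mul, hθ.pow_eq_one, one_pow,
        mul_one]
    rw [hpow] at h
    rw [eq_div_iff hXg, ← h, inv_mul_eq_div, mul_div_assoc, div_self (hXc _), mul_one]
  rw [Finset.sum_congr rfl (fun l _ => by rw [hinv l])]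
  simp only [← mul_div_assoc]
  rw [← Finset.sum_div]
  congr 1
  have h1 : ∀ l : Fin g, RatFunc.C (θ ^ ((l : ℕ) * (s + 1))) *
      (∑ i ∈ Finset.range g, (RatFunc.X : RatFunc k) ^ i *
        (RatFunc.C (b * θ ^ (l : ℕ))) ^ (g - 1 - i)) =
      ∑ i ∈ Finset.range g, (RatFunc.X : RatFunc k) ^ i * RatFunc.C (b ^ (g - 1 - i)) *
        RatFunc.C ((θ ^ (s + 1 + (g - 1 - i))) ^ (l : ℕ)) := by
    intro l
    rw [Finset.mul_sum]
    refine Finset.sum_congr rfl fun i _ => ?_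
    rw [← map_pow, mul_pow, map_mul]
    have : RatFunc.C ((θ ^ (s + 1 + (g - 1 - i))) ^ (l : ℕ)) =
        RatFunc.C (θ ^ ((l : ℕ) * (s + 1))) * RatFunc.C ((θ ^ (l : ℕ)) ^ (g - 1 - i)) := by
      rw [← map_mul]
      congr 1
      rw [← pow_mul, ← pow_mul, ← pow_add]
      congr 1
      ring
    rw [this]
    ring
  rw [Finset.sum_congr rfl (fun l _ => h1 l), Finset.sum_comm]
  simp only [← Finset.mul_sum]
  rw [Finset.sum_eq_single s]
  · have h2 : θ ^ (s + 1 + (g - 1 - s)) = 1 := by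
      have : s + 1 + (g - 1 - s) = g := by omega
      rw [this, hθ.pow_eq_one]
    rw [h2]
    simp only [one_pow, map_one, Finset.sum_const, Finset.card_univ, Fintype.card_fin,
      nsmul_eq_mul, mul_one]
    rw [map_natCast]
    ring
  · intro i hi his
    have hi' : i < g := Finset.mem_range.1 hi
    have hne : θ ^ (s + 1 + (g - 1 - i)) ≠ 1 := by
      intro h
      have hd := (hθ.pow_eq_one_iff_dvd _).1 h
      obtain ⟨c, hc⟩ := hd
      rcases Nat.lt_trichotomy c 1 with h0 | h0 | h0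
      · have : c = 0 := by omega
        subst this
        omega
      · subst h0
        omega
      · have : g * 2 ≤ g * c := Nat.mul_le_mul_left _ h0
        omega
    have hz : ∑ l : Fin g, (θ ^ (s + 1 + (g - 1 - i))) ^ (l : ℕ) = 0 := by
      apply Dft_sum_pow _ hne
      rw [← pow_mul, mul_comm, pow_mul, hθ.pow_eq_one, one_pow]
    rw [← map_sum, hz, map_zero, mul_zero]
  · intro h
    exact absurd (Finset.mem_range.2 hs) h

/-- Proof: partial fractions `g X^s/(X^g - 1) = ∑_l θ^(l(s+1)) / (X - θ^l)` for `s < g`, and the same with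
`X/w`. -/
theorem dft {g : ℕ} (hg : 0 < g) {θ : k} (hθ : IsPrimitiveRoot θ g) {w : k} (hw0 : w ≠ 0)
    (hw : w ^ g ≠ 1) {s : ℕ} (hs : s < g) :
    ∑ l : Fin g, RatFunc.C (θ ^ ((l : ℕ) * (s + 1))) * om (θ ^ (l : ℕ)) (w * θ ^ (l : ℕ)) =
      RatFunc.C (g : k) * RatFunc.X ^ s * ((RatFunc.X ^ g - RatFunc.C (w ^ g)) -
        RatFunc.C (w ^ (g - 1 - s)) * (RatFunc.X ^ g - 1)) /
        ((RatFunc.X ^ g - 1) * (RatFunc.X ^ g - RatFunc.C (w ^ g))) := by
  have hne : ∀ c : k, (RatFunc.X ^ g - RatFunc.C c : RatFunc k) ≠ 0 := by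
    intro c h
    have h2 : (algebraMap k[X] (RatFunc k)) (X ^ g - C c) = 0 := by
      rw [map_sub, map_pow, RatFunc.algebraMap_X, RatFunc.algebraMap_C]; exact h
    rw [map_eq_zero_iff _ (IsFractionRing.injective k[X] (RatFunc k))] at h2
    exact Polynomial.X_pow_sub_C_ne_zero hg _ h2
  have h1 := Dft_pf hθ 1 hs
  have h2 := Dft_pf hθ w hs
  simp only [one_mul, one_pow, map_one, mul_one] at h1
  simp only [om, mul_sub]
  rw [Finset.sum_sub_distrib, h1, h2]
  have e1 : (RatFunc.X ^ g - 1 : RatFunc k) ≠ 0 := by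
    have := hne 1
    rwa [map_one] at this
  have e2 := hne (w ^ g)
  rw [div_sub_div _ _ e1 e2]
  congr 1
  · ring
  · ring

theorem Dft_br {w : k} (n : ℕ) : (1 - w) * br w n = 1 - w ^ n := by
  unfold br
  have := geom_sum_mul_neg w n
  rw [mul_comm]
  exact this

/-- The form `h_j dx / (W y^j)` on the nodal curve, `x = μ + w/μ`, `W = (μ-1)(μ-w)(1 - w/μ²)`, `y = z μ`,
`μ = ([g+1] - z^g)/[g]`: it is `u` times the sum in `dft` for `s = g - 1 - j`, where
`u = [g] / ((1-w) g z^(g-1) (1 - w/μ²))`.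
Proof: `μ - 1 = (w^g - z^g)/[g]`, `μ - w = (1 - z^g)/[g]`,
`[g] ([j+1] - [j] μ) = (w^j - w^g + (1 - w^j) z^g)/(1 - w)`. -/
theorem form_eq {g : ℕ} (hg : (g : k) ≠ 0) {w : k} (hw0 : w ≠ 0) (hw : w ^ g ≠ 1) {j : ℕ}
    (hj : j < g) :
    hm (RatFunc.C w) (MM w g) j / ((MM w g - 1) * (MM w g - RatFunc.C w) *
        (1 - RatFunc.C w / (MM w g) ^ 2)) * ((RatFunc.X * MM w g) ^ j)⁻¹ =
      RatFunc.C (br w g) / (RatFunc.C ((1 - w) * (g : k)) * RatFunc.X ^ (g - 1) *
        (1 - RatFunc.C w / (MM w g) ^ 2)) *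
      (RatFunc.C (g : k) * RatFunc.X ^ (g - 1 - j) * ((RatFunc.X ^ g - RatFunc.C (w ^ g)) -
        RatFunc.C (w ^ j) * (RatFunc.X ^ g - 1)) /
        ((RatFunc.X ^ g - 1) * (RatFunc.X ^ g - RatFunc.C (w ^ g)))) := by
  have hg0 : 0 < g := lt_of_le_of_lt (Nat.zero_le _) hj
  have hne : ∀ c : k, (RatFunc.X ^ g - RatFunc.C c : RatFunc k) ≠ 0 := by
    intro c h
    have h2 : (algebraMap k[X] (RatFunc k)) (X ^ g - C c) = 0 := by
      rw [map_sub, map_pow, RatFunc.algebraMap_X, RatFunc.algebraMap_C]; exact h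
    rw [map_eq_zero_iff _ (IsFractionRing.injective k[X] (RatFunc k))] at h2
    exact Polynomial.X_pow_sub_C_ne_zero hg0 _ h2
  have hw1 : 1 - w ≠ 0 := by
    intro h
    have : w = 1 := (sub_eq_zero.1 h).symm
    rw [this, one_pow] at hw
    exact hw rfl
  have hbg : br w g ≠ 0 := by
    intro h
    have := Dft_br (w := w) g
    rw [h, mul_zero] at this
    exact hw (sub_eq_zero.1 this.symm).symm
  have e1 : (RatFunc.X ^ g - 1 : RatFunc k) ≠ 0 := by
    have := hne 1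
    rwa [map_one] at this
  have e2 := hne (w ^ g)
  have hb : (RatFunc.C (br w g) : RatFunc k) ≠ 0 := by
    rwa [Ne, map_eq_zero_iff _ RatFunc.C_injective]
  have hM0 : MM w g ≠ 0 := by
    unfold MM
    apply div_ne_zero _ hb
    have := hne (br w (g + 1))
    rw [← neg_ne_zero, neg_sub]
    exact this
  have hX0 : (RatFunc.X : RatFunc k) ≠ 0 := RatFunc.X_ne_zero
  have hMb : MM w g * RatFunc.C (br w g) = RatFunc.C (br w (g + 1)) - RatFunc.X ^ g := by
    unfold MM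
    rw [div_mul_cancel₀ _ hb]
  have hC1 : (RatFunc.C (1 - w) : RatFunc k) ≠ 0 := by
    rwa [Ne, map_eq_zero_iff _ RatFunc.C_injective]
  have hCg : (RatFunc.C (g : k) : RatFunc k) ≠ 0 := by
    rwa [Ne, map_eq_zero_iff _ RatFunc.C_injective]
  have brC : ∀ n : ℕ, br (RatFunc.C w : RatFunc k) n = RatFunc.C (br w n) := by
    intro n
    unfold br
    rw [map_sum]
    refine Finset.sum_congr rfl fun i _ => ?_
    rw [map_pow]
  have q : ∀ n : ℕ, RatFunc.C (1 - w) * RatFunc.C (br w n) = 1 - RatFunc.C w ^ n := by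
    intro n
    rw [← map_mul, Dft_br, map_sub, map_one, map_pow]
  have m1 : (MM w g - 1) * RatFunc.C (br w g) = - (RatFunc.X ^ g - RatFunc.C (w ^ g)) := by
    have : RatFunc.C (br w (g + 1)) - RatFunc.C (br w g) = RatFunc.C (w ^ g) := by
      rw [← map_sub]
      congr 1
      unfold br
      rw [Finset.sum_range_succ]
      ring
    rw [sub_mul, hMb, ← this]
    ring
  have m2 : (MM w g - RatFunc.C w) * RatFunc.C (br w g) = - (RatFunc.X ^ g - 1) := by
    have : RatFunc.C (br w (g + 1)) - RatFunc.C w * RatFunc.C (br w g) = 1 := by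
      rw [← map_mul, ← map_sub, ← map_one RatFunc.C]
      congr 1
      unfold br
      rw [Finset.sum_range_succ', Finset.mul_sum]
      simp only [pow_succ', pow_zero]
      ring
    rw [sub_mul, hMb, ← this]
    ring
  have m3 : RatFunc.C (1 - w) * (RatFunc.C (br w g) * (br (RatFunc.C w) (j + 1) -
      br (RatFunc.C w) j * MM w g)) = (RatFunc.X ^ g - RatFunc.C (w ^ g)) -
        RatFunc.C (w ^ j) * (RatFunc.X ^ g - 1) := by
    apply mul_left_cancel₀ hC1
    rw [brC, brC]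
    have a1 := q g
    have a2 := q j
    have a3 := q (j + 1)
    have a4 := q (g + 1)
    have a5 : RatFunc.C (1 - w) = (1 - RatFunc.C w : RatFunc k) := by rw [map_sub, map_one]
    calc RatFunc.C (1 - w) * (RatFunc.C (1 - w) * (RatFunc.C (br w g) * (RatFunc.C (br w (j + 1)) -
          RatFunc.C (br w j) * MM w g))) =
        (RatFunc.C (1 - w) * RatFunc.C (br w g)) * (RatFunc.C (1 - w) * RatFunc.C (br w (j + 1))) -
        RatFunc.C (1 - w) * (RatFunc.C (1 - w) * RatFunc.C (br w j)) *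
          (MM w g * RatFunc.C (br w g)) := by ring
      _ = (1 - RatFunc.C w ^ g) * (1 - RatFunc.C w ^ (j + 1)) -
        (1 - RatFunc.C w ^ j) * ((RatFunc.C (1 - w) * RatFunc.C (br w (g + 1))) -
          RatFunc.C (1 - w) * RatFunc.X ^ g) := by
          rw [a1, a3, a2, hMb]; ring
      _ = _ := by
          rw [a4, a5, map_pow, map_pow]; ring
  set M := MM w g with hM
  set E := (1 - RatFunc.C w / M ^ 2 : RatFunc k) with hE
  set Bg := (RatFunc.C (br w g) : RatFunc k) with hBg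
  have m1' : M - 1 = - (RatFunc.X ^ g - RatFunc.C (w ^ g)) / Bg := by
    rw [eq_div_iff hb, m1]
  have m2' : M - RatFunc.C w = - (RatFunc.X ^ g - 1) / Bg := by
    rw [eq_div_iff hb, m2]
  have m3' : br (RatFunc.C w) (j + 1) - br (RatFunc.C w) j * M =
      ((RatFunc.X ^ g - RatFunc.C (w ^ g)) -
        RatFunc.C (w ^ j) * (RatFunc.X ^ g - 1)) / (RatFunc.C (1 - w) * Bg) := by
    rw [eq_div_iff (mul_ne_zero hC1 hb), ← m3]
    ring
  unfold hm
  rw [m1', m2', m3', map_mul]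
  have hXp : (RatFunc.X : RatFunc k) ^ (g - 1) = RatFunc.X ^ (g - 1 - j) * RatFunc.X ^ j := by
    rw [← pow_add]
    congr 1
    omega
  rw [hXp]
  generalize (RatFunc.X ^ g - RatFunc.C (w ^ g) - RatFunc.C (w ^ j) * (RatFunc.X ^ g - 1) :
    RatFunc k) = N at *
  generalize (RatFunc.X ^ g - 1 : RatFunc k) = P at *
  generalize (RatFunc.X ^ g - RatFunc.C (w ^ g) : RatFunc k) = Q at *
  by_cases hE0 : E = 0
  · rw [hE0]
    simp
  have hXj : (RatFunc.X : RatFunc k) ^ j ≠ 0 := pow_ne_zero _ hX0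
  have hXj' : (RatFunc.X : RatFunc k) ^ (g - 1 - j) ≠ 0 := pow_ne_zero _ hX0
  have hMj : M ^ j ≠ 0 := pow_ne_zero _ hM0
  rw [mul_pow]
  generalize (RatFunc.X : RatFunc k) ^ j = U at *
  generalize (RatFunc.X : RatFunc k) ^ (g - 1 - j) = V at *
  generalize M ^ j = Mj at *
  field_simp

/-- Inversion of the discrete Fourier transform. -/
theorem idft {M : Type*} [AddCommGroup M] [Module k M] {g : ℕ} (hg : (g : k) ≠ 0) {θ : k}
    (hθ : IsPrimitiveRoot θ g) (v : Fin g → M) (l : Fin g) :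
    (g : k)⁻¹ • ∑ s : Fin g, (θ⁻¹) ^ ((l : ℕ) * ((s : ℕ) + 1)) •
      ∑ l' : Fin g, θ ^ ((l' : ℕ) * ((s : ℕ) + 1)) • v l' = v l := by
  have hg0 : 0 < g := by
    rcases Nat.eq_zero_or_pos g with h | h
    · subst h; simp at hg
    · exact h
  have hθ0 : θ ≠ 0 := hθ.ne_zero hg0.ne'
  simp only [Finset.smul_sum, smul_smul]
  rw [Finset.sum_comm]
  rw [Finset.sum_eq_single l]
  · rw [← Finset.sum_smul]
    have : ∑ s : Fin g, (g : k)⁻¹ * ((θ⁻¹) ^ ((l : ℕ) * ((s : ℕ) + 1)) *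
        θ ^ ((l : ℕ) * ((s : ℕ) + 1))) = 1 := by
      have h1 : ∀ s : Fin g, (g : k)⁻¹ * ((θ⁻¹) ^ ((l : ℕ) * ((s : ℕ) + 1)) *
        θ ^ ((l : ℕ) * ((s : ℕ) + 1))) = (g : k)⁻¹ := by
        intro s
        rw [← mul_pow, inv_mul_cancel₀ hθ0, one_pow, mul_one]
      rw [Finset.sum_congr rfl (fun s _ => h1 s), Finset.sum_const, Finset.card_univ,
        Fintype.card_fin, nsmul_eq_mul, mul_inv_cancel₀ hg]
    rw [this, one_smul]
  · intro l' _ hl'
    rw [← Finset.sum_smul]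
    have hne : θ⁻¹ ^ (l : ℕ) * θ ^ (l' : ℕ) ≠ 1 := by
      intro h
      apply hl'
      have h2 : θ ^ (l' : ℕ) = θ ^ (l : ℕ) := by
        rw [inv_pow, inv_mul_eq_div, div_eq_one_iff_eq (pow_ne_zero _ hθ0)] at h
        exact h
      exact Fin.ext (hθ.pow_inj l'.2 l.2 h2)
    have h1 : (θ⁻¹ ^ (l : ℕ) * θ ^ (l' : ℕ)) ^ g = 1 := by
      rw [mul_pow, ← pow_mul, ← pow_mul, mul_comm _ g, mul_comm _ g, pow_mul, pow_mul,
        hθ.pow_eq_one, inv_pow, hθ.pow_eq_one, inv_one, one_pow, one_pow, mul_one]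
    have hz := Dft_sum_pow h1 hne
    have : ∑ s : Fin g, (g : k)⁻¹ * ((θ⁻¹) ^ ((l : ℕ) * ((s : ℕ) + 1)) *
        θ ^ ((l' : ℕ) * ((s : ℕ) + 1))) = 0 := by
      have h2 : ∀ s : Fin g, (g : k)⁻¹ * ((θ⁻¹) ^ ((l : ℕ) * ((s : ℕ) + 1)) *
        θ ^ ((l' : ℕ) * ((s : ℕ) + 1))) = (g : k)⁻¹ * (θ⁻¹ ^ (l : ℕ) * θ ^ (l' : ℕ)) *
          (θ⁻¹ ^ (l : ℕ) * θ ^ (l' : ℕ)) ^ (s : ℕ) := by
        intro s
        rw [pow_mul, pow_mul, ← mul_pow, pow_succ]
        ring
      rw [Finset.sum_congr rfl (fun s _ => h2 s), ← Finset.mul_sum, hz, mul_zero]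
    rw [this, zero_smul]
  · intro h
    exact absurd (Finset.mem_univ l) h

end Pool.Agent.GrE
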