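import Mathlib
import Pool.Agent.GrE.Defs

/-!
The functions regular over `x = ∞`: a ring, the integral closure of `regInf`.
-/

set_option autoImplicit false

namespace Pool.Agent.GrE

open Polynomial Pool.Agent.GrS

variable {K : Type*} [Field K] {w t : K}

private lemma Inf_Xinv : (RatFunc.X : RatFunc K)⁻¹ ∈ regInf K := by
  show (RatFunc.X : RatFunc K)⁻¹.intDegree ≤ 0
  rw [RatFunc.intDegree_inv, RatFunc.intDegree_X]
  norm_num

/-- `T / x²` is regular at infinity. -/
theorem Inf_Tf (w : K) : Tf w * (RatFunc.X ^ 2)⁻¹ ∈ regInf K := by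
  have hX : (RatFunc.X : RatFunc K) ≠ 0 := RatFunc.X_ne_zero
  have h2 : Tf w * (RatFunc.X ^ 2)⁻¹ = 1 - algebraMap K (RatFunc K) (1 + w) * (RatFunc.X)⁻¹ := by
    rw [Tf, TT, map_mul, map_sub, RatFunc.algebraMap_X, RatFunc.algebraMap_C,
      RatFunc.algebraMap_eq_C]
    field_simp
  rw [h2]
  exact (regInf K).sub_mem (regInf K).one_mem
    ((regInf K).mul_mem ((regInf K).algebraMap_mem _) Inf_Xinv)

/-- `N / x²` is regular at infinity. -/
theorem Inf_Nf2 (w t : K) : Nf w t * (RatFunc.X ^ 2)⁻¹ ∈ regInf K := by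
  have hX : (RatFunc.X : RatFunc K) ≠ 0 := RatFunc.X_ne_zero
  have h2 : Nf w t * (RatFunc.X ^ 2)⁻¹ = algebraMap K (RatFunc K) t * (RatFunc.X⁻¹ * RatFunc.X⁻¹) -
      algebraMap K (RatFunc K) w * ((1 - algebraMap K (RatFunc K) (1 + w) * (RatFunc.X)⁻¹) *
        (1 - algebraMap K (RatFunc K) (1 + w) * (RatFunc.X)⁻¹)) := by
    rw [Nf, NN, map_sub, map_mul, map_pow, map_sub, RatFunc.algebraMap_X, RatFunc.algebraMap_C,
      RatFunc.algebraMap_C, RatFunc.algebraMap_C, RatFunc.algebraMap_eq_C]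
    field_simp
  rw [h2]
  have h3 : (1 - algebraMap K (RatFunc K) (1 + w) * (RatFunc.X)⁻¹) ∈ regInf K :=
    (regInf K).sub_mem (regInf K).one_mem
      ((regInf K).mul_mem ((regInf K).algebraMap_mem _) Inf_Xinv)
  exact (regInf K).sub_mem ((regInf K).mul_mem ((regInf K).algebraMap_mem _)
    ((regInf K).mul_mem Inf_Xinv Inf_Xinv))
    ((regInf K).mul_mem ((regInf K).algebraMap_mem _) ((regInf K).mul_mem h3 h3))

/-- `N / x³` is regular at infinity. -/
theorem Inf_Nf3 (w t : K) : Nf w t * (RatFunc.X ^ 3)⁻¹ ∈ regInf K := by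
  have hX : (RatFunc.X : RatFunc K) ≠ 0 := RatFunc.X_ne_zero
  have h2 : Nf w t * (RatFunc.X ^ 3)⁻¹ = (Nf w t * (RatFunc.X ^ 2)⁻¹) * RatFunc.X⁻¹ := by
    field_simp
  rw [h2]
  exact (regInf K).mul_mem (Inf_Nf2 w t) Inf_Xinv

/-- `N / x⁴` is regular at infinity. -/
theorem Inf_Nf4 (w t : K) : Nf w t * (RatFunc.X ^ 4)⁻¹ ∈ regInf K := by
  have hX : (RatFunc.X : RatFunc K) ≠ 0 := RatFunc.X_ne_zero
  have h2 : Nf w t * (RatFunc.X ^ 4)⁻¹ = (Nf w t * (RatFunc.X ^ 3)⁻¹) * RatFunc.X⁻¹ := by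
    field_simp
  rw [h2]
  exact (regInf K).mul_mem (Inf_Nf3 w t) Inf_Xinv

/-- `T = x² T'`, `N = x⁴ N'` with `T'`, `N'` regular at infinity. -/
lemma InB.mul {u v : EQ w t} (hu : InB u) (hv : InB v) : InB (u * v) := by
  have hX : (RatFunc.X : RatFunc K) ≠ 0 := RatFunc.X_ne_zero
  obtain ⟨hu1, hu2⟩ := hu
  obtain ⟨hv1, hv2⟩ := hv
  constructor
  · rw [QuadraticAlgebra.re_mul]
    have h : u.re * v.re + Nf w t * u.im * v.im = u.re * v.re +
        (Nf w t * (RatFunc.X ^ 4)⁻¹) * ((RatFunc.X ^ 2 * u.im) * (RatFunc.X ^ 2 * v.im)) := by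
      field_simp
    rw [h]
    exact (regInf K).add_mem ((regInf K).mul_mem hu1 hv1)
      ((regInf K).mul_mem (Inf_Nf4 w t) ((regInf K).mul_mem hu2 hv2))
  · rw [QuadraticAlgebra.im_mul]
    have h : RatFunc.X ^ 2 * (u.re * v.im + u.im * v.re + Tf w * u.im * v.im) =
        u.re * (RatFunc.X ^ 2 * v.im) + (RatFunc.X ^ 2 * u.im) * v.re +
        (Tf w * (RatFunc.X ^ 2)⁻¹) * ((RatFunc.X ^ 2 * u.im) * (RatFunc.X ^ 2 * v.im)) := by
      field_simp
    rw [h]
    exact (regInf K).add_mem ((regInf K).add_mem ((regInf K).mul_mem hu1 hv2)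
      ((regInf K).mul_mem hu2 hv1))
      ((regInf K).mul_mem (Inf_Tf w) ((regInf K).mul_mem hu2 hv2))

lemma InB.add {u v : EQ w t} (hu : InB u) (hv : InB v) : InB (u + v) := by
  refine ⟨(regInf K).add_mem hu.1 hv.1, ?_⟩
  have h : RatFunc.X ^ 2 * (u + v).im = RatFunc.X ^ 2 * u.im + RatFunc.X ^ 2 * v.im := by
    rw [QuadraticAlgebra.im_add, mul_add]
  rw [h]
  exact (regInf K).add_mem hu.2 hv.2

lemma InB.neg {u : EQ w t} (hu : InB u) : InB (-u) := by
  refine ⟨(regInf K).neg_mem hu.1, ?_⟩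
  have h : RatFunc.X ^ 2 * (-u).im = -(RatFunc.X ^ 2 * u.im) := by
    rw [QuadraticAlgebra.im_neg, mul_neg]
  rw [h]
  exact (regInf K).neg_mem hu.2

lemma InB.sub {u v : EQ w t} (hu : InB u) (hv : InB v) : InB (u - v) := by
  rw [sub_eq_add_neg]
  exact hu.add hv.neg

lemma InB.star {u : EQ w t} (hu : InB u) : InB (star u) := by
  have hX : (RatFunc.X : RatFunc K) ≠ 0 := RatFunc.X_ne_zero
  constructor
  · have h : (Star.star u).re = u.re + (Tf w * (RatFunc.X ^ 2)⁻¹) * (RatFunc.X ^ 2 * u.im) := by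
      rw [QuadraticAlgebra.re_star]
      field_simp
    rw [h]
    exact (regInf K).add_mem hu.1 ((regInf K).mul_mem (Inf_Tf w) hu.2)
  · have h : RatFunc.X ^ 2 * (Star.star u).im = -(RatFunc.X ^ 2 * u.im) := by
      rw [QuadraticAlgebra.im_star, mul_neg]
    rw [h]
    exact (regInf K).neg_mem hu.2

lemma InB_of_regInf {r : RatFunc K} (hr : r ∈ regInf K) : InB (algebraMap (RatFunc K) (EQ w t) r) := by
  refine ⟨?_, ?_⟩
  · have h : (algebraMap (RatFunc K) (EQ w t) r).re = r := rfl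
    rw [h]
    exact hr
  · have h : (algebraMap (RatFunc K) (EQ w t) r).im = 0 := rfl
    rw [h, mul_zero]
    exact (regInf K).zero_mem

lemma InB_zero : InB (0 : EQ w t) := by
  have h := InB_of_regInf (w := w) (t := t) (regInf K).zero_mem
  rwa [map_zero] at h

lemma InB_one : InB (1 : EQ w t) := by
  have h := InB_of_regInf (w := w) (t := t) (regInf K).one_mem
  rwa [map_one] at h

lemma InB_const (c : K) : InB (algebraMap K (EQ w t) c) := by
  have h := InB_of_regInf (w := w) (t := t) ((regInf K).algebraMap_mem c)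
  rwa [← IsScalarTower.algebraMap_apply] at h

lemma InB.pow {u : EQ w t} (hu : InB u) (n : ℕ) : InB (u ^ n) := by
  induction n with
  | zero => rw [pow_zero]; exact InB_one
  | succ n ih => rw [pow_succ]; exact ih.mul hu

lemma InB_eps : InB (eps w t) := by
  have hX : (RatFunc.X : RatFunc K) ≠ 0 := RatFunc.X_ne_zero
  refine ⟨(regInf K).one_mem, ?_⟩
  have h : RatFunc.X ^ 2 * (eps w t).im = -1 := by
    show RatFunc.X ^ 2 * (- (RatFunc.X ^ 2)⁻¹) = -1
    field_simp
  rw [h]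
  exact (regInf K).neg_mem (regInf K).one_mem

private lemma Inf_integral {L : Type*} [Field L] [Algebra K L] (A : Subalgebra K L) {r : L}
    (hA : r ∈ A ∨ r⁻¹ ∈ A) (hr : IsIntegral A r) : r ∈ A := by
  rcases hA with hA | hA
  · exact hA
  · by_cases h0 : r = 0
    · rw [h0]
      exact A.zero_mem
    · obtain ⟨p, hp, hpr⟩ := hr
      rw [Polynomial.eval₂_eq_sum_range] at hpr
      rcases Nat.eq_zero_or_pos p.natDegree with hn | hn
      · rw [hn] at hpr
        have h1 : p.coeff 0 = 1 := by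
          have h2 := hp.coeff_natDegree
          rwa [hn] at h2
        simp [h1] at hpr
      · obtain ⟨m, hm⟩ : ∃ m, p.natDegree = m + 1 := ⟨p.natDegree - 1, by omega⟩
        have h1 : p.coeff (m + 1) = 1 := by
          have h2 := hp.coeff_natDegree
          rwa [hm] at h2
        rw [hm, Finset.sum_range_succ, h1, map_one, one_mul] at hpr
        have h3 : r = -(∑ i ∈ Finset.range (m + 1), algebraMap A L (p.coeff i) * r⁻¹ ^ (m - i)) := by
          have h4 : r = r ^ (m + 1) * r⁻¹ ^ m := by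
            rw [pow_succ, mul_comm (r ^ m) r, mul_assoc, ← mul_pow, mul_inv_cancel₀ h0, one_pow,
              mul_one]
          have h5 : r ^ (m + 1) =
              -(∑ i ∈ Finset.range (m + 1), algebraMap A L (p.coeff i) * r ^ i) := by
            rw [eq_neg_iff_add_eq_zero, add_comm]
            exact hpr
          conv_lhs => rw [h4, h5]
          rw [neg_mul, Finset.sum_mul]
          congr 1
          apply Finset.sum_congr rfl
          intro i hi
          have hi' : i ≤ m := by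
            have := Finset.mem_range.1 hi
            omega
          have h6 : r⁻¹ ^ m = r⁻¹ ^ i * r⁻¹ ^ (m - i) := by
            rw [← pow_add]
            congr 1
            omega
          rw [h6, mul_assoc, ← mul_assoc (r ^ i), ← mul_pow, mul_inv_cancel₀ h0, one_pow, one_mul]
        rw [h3]
        refine A.neg_mem (A.sum_mem fun i _ => A.mul_mem ?_ (A.pow_mem hA _))
        exact (p.coeff i).2

/-- `regInf` is integrally closed in `K(x)`. -/
theorem Inf_closed {r : RatFunc K} (hr : IsIntegral (regInf K) r) : r ∈ regInf K := by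
  apply Inf_integral (regInf K) _ hr
  by_cases h : r.intDegree ≤ 0
  · exact Or.inl h
  · right
    show (r⁻¹).intDegree ≤ 0
    rw [RatFunc.intDegree_inv]
    omega

/-- `P / x^n` is a unit of `regInf` for `P` monic of degree `n`. -/
theorem Inf_unit {P : K[X]} {n : ℕ} (hP : P.Monic) (hn : P.natDegree = n) :
    (algebraMap K[X] (RatFunc K) P * (RatFunc.X ^ n)⁻¹)⁻¹ ∈ regInf K := by
  have h1 : (algebraMap K[X] (RatFunc K) P) ≠ 0 := by
    simpa using hP.ne_zero
  have hX : (RatFunc.X : RatFunc K) ^ n = algebraMap K[X] (RatFunc K) (X ^ n) := by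
    rw [map_pow, RatFunc.algebraMap_X]
  change ((algebraMap K[X] (RatFunc K) P * (RatFunc.X ^ n)⁻¹)⁻¹).intDegree ≤ 0
  rw [RatFunc.intDegree_inv,
    RatFunc.intDegree_mul h1 (inv_ne_zero (pow_ne_zero _ RatFunc.X_ne_zero)),
    RatFunc.intDegree_inv, hX, RatFunc.intDegree_polynomial, RatFunc.intDegree_polynomial,
    natDegree_X_pow]
  omega

theorem Inf_TT_monic (w : K) : (TT w).Monic ∧ (TT w).natDegree = 2 := by
  have h : (TT w).Monic := monic_X.mul (monic_X_sub_C _)
  refine ⟨h, ?_⟩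
  rw [TT, monic_X.natDegree_mul (monic_X_sub_C _), natDegree_X, natDegree_X_sub_C]

theorem Inf_NN_deg (w t : K) : (NN w t).natDegree ≤ 2 := by
  unfold NN
  compute_degree

theorem Inf_disc (w t : K) : (TT w ^ 2 + 4 * NN w t).Monic ∧
    (TT w ^ 2 + 4 * NN w t).natDegree = 4 := by
  have h1 : (TT w ^ 2).Monic := (Inf_TT_monic w).1.pow 2
  have h2 : (TT w ^ 2).natDegree = 4 := by
    rw [(Inf_TT_monic w).1.natDegree_pow, (Inf_TT_monic w).2]
  have h3 : (4 * NN w t).natDegree ≤ 2 := by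
    have h4 : (4 : K[X]) = C 4 := (map_ofNat C 4).symm
    rw [h4]
    exact (natDegree_C_mul_le _ _).trans (Inf_NN_deg w t)
  have h4 : (4 * NN w t).degree < (TT w ^ 2).degree := by
    rw [degree_eq_natDegree h1.ne_zero, h2]
    refine lt_of_le_of_lt degree_le_natDegree ?_
    exact_mod_cast (by omega : (4 * NN w t).natDegree < 4)
  refine ⟨h1.add_of_left h4, ?_⟩
  rw [natDegree_add_eq_left_of_degree_lt h4, h2]

/-- The trace as an element of `K(x)`. -/
private lemma Inf_add_star (u : EQ w t) :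
    u + star u = algebraMap (RatFunc K) (EQ w t) (2 * u.re + Tf w * u.im) := by
  ext
  · rw [QuadraticAlgebra.re_add, QuadraticAlgebra.re_star]
    show _ = 2 * u.re + Tf w * u.im
    ring
  · rw [QuadraticAlgebra.im_add, QuadraticAlgebra.im_star]
    show _ = (0 : RatFunc K)
    ring

private lemma Inf_mul_star (u : EQ w t) :
    u * star u = algebraMap (RatFunc K) (EQ w t)
      (u.re ^ 2 + Tf w * u.re * u.im - Nf w t * u.im ^ 2) := by
  ext
  · rw [QuadraticAlgebra.re_mul, QuadraticAlgebra.re_star, QuadraticAlgebra.im_star]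
    show _ = u.re ^ 2 + Tf w * u.re * u.im - Nf w t * u.im ^ 2
    ring
  · rw [QuadraticAlgebra.im_mul, QuadraticAlgebra.re_star, QuadraticAlgebra.im_star]
    show _ = (0 : RatFunc K)
    ring

private lemma Inf_trace_mem {u : EQ w t} (hu : InB u) :
    2 * u.re + Tf w * u.im ∈ regInf K := by
  have hX : (RatFunc.X : RatFunc K) ≠ 0 := RatFunc.X_ne_zero
  have h : 2 * u.re + Tf w * u.im = (u.re + u.re) +
      (Tf w * (RatFunc.X ^ 2)⁻¹) * (RatFunc.X ^ 2 * u.im) := by
    field_simp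
    ring
  rw [h]
  exact (regInf K).add_mem ((regInf K).add_mem hu.1 hu.1)
    ((regInf K).mul_mem (Inf_Tf w) hu.2)

private lemma Inf_norm_mem {u : EQ w t} (hu : InB u) :
    u.re ^ 2 + Tf w * u.re * u.im - Nf w t * u.im ^ 2 ∈ regInf K := by
  have hX : (RatFunc.X : RatFunc K) ≠ 0 := RatFunc.X_ne_zero
  have h : u.re ^ 2 + Tf w * u.re * u.im - Nf w t * u.im ^ 2 = u.re * u.re +
      (Tf w * (RatFunc.X ^ 2)⁻¹) * (u.re * (RatFunc.X ^ 2 * u.im)) -
      (Nf w t * (RatFunc.X ^ 4)⁻¹) * ((RatFunc.X ^ 2 * u.im) * (RatFunc.X ^ 2 * u.im)) := by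
    field_simp
  rw [h]
  exact (regInf K).sub_mem ((regInf K).add_mem ((regInf K).mul_mem hu.1 hu.1)
    ((regInf K).mul_mem (Inf_Tf w) ((regInf K).mul_mem hu.1 hu.2)))
    ((regInf K).mul_mem (Inf_Nf4 w t) ((regInf K).mul_mem hu.2 hu.2))

private lemma Inf_integral_of {u : EQ w t} (hu : InB u) : IsIntegral (regInf K) u := by
  refine ⟨X ^ 2 - C (⟨_, Inf_trace_mem hu⟩ : regInf K) * X +
    C (⟨_, Inf_norm_mem hu⟩ : regInf K), ?_, ?_⟩
  · monicity!
  · have h1 : algebraMap (regInf K) (EQ w t) ⟨_, Inf_trace_mem hu⟩ = u + star u :=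
      (Inf_add_star u).symm
    have h2 : algebraMap (regInf K) (EQ w t) ⟨_, Inf_norm_mem hu⟩ = u * star u :=
      (Inf_mul_star u).symm
    rw [eval₂_add, eval₂_sub, eval₂_mul, eval₂_C, eval₂_C, eval₂_X, eval₂_pow, eval₂_X, h1, h2]
    ring

private lemma Inf_star_integral {u : EQ w t} (hu : IsIntegral (regInf K) u) :
    IsIntegral (regInf K) (star u) := by
  let σ : EQ w t →ₐ[regInf K] EQ w t :=
    { starRingEnd (EQ w t) with
      commutes' := by
        intro r
        show star (algebraMap (RatFunc K) (EQ w t) r) = algebraMap (RatFunc K) (EQ w t) r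
        ext
        · rw [QuadraticAlgebra.re_star]
          show (r : RatFunc K) + Tf w * 0 = r
          ring
        · rw [QuadraticAlgebra.im_star]
          show -(0 : RatFunc K) = 0
          ring }
  exact hu.map σ

private lemma Inf_trace_integral {u : EQ w t} (hu : IsIntegral (regInf K) u) :
    2 * u.re + Tf w * u.im ∈ regInf K := by
  apply Inf_closed
  have h1 := hu.add (Inf_star_integral hu)
  rw [Inf_add_star] at h1
  have hinj : Function.Injective (algebraMap (RatFunc K) (EQ w t)) := by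
    intro a b hab
    exact congrArg QuadraticAlgebra.re hab
  exact (isIntegral_algebraMap_iff hinj).1 h1

/-- Proof (`→`): with `ν' = ν / x²`, `ν'² = T' ν' + N'`; `u = a + b ν'` integral over `regInf` (integrally closed
in `K(x)`: it is a valuation ring), so are `star u`, `u ν'`, hence the traces `2a + T' b` and `a T' + b (T'² + 2N')` are
in `regInf`, and `T'² + 4N'` is a unit of `regInf` (value `1` at infinity); so `a`, `b` are in `regInf`. -/
theorem isIntegral_inf_iff (u : EQ w t) : IsIntegral (regInf K) u ↔ InB u := by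
  refine ⟨fun hu => ?_, Inf_integral_of⟩
  have hX : (RatFunc.X : RatFunc K) ≠ 0 := RatFunc.X_ne_zero
  have hν : InB (⟨0, (RatFunc.X ^ 2)⁻¹⟩ : EQ w t) := ⟨(regInf K).zero_mem, by
    rw [mul_inv_cancel₀ (pow_ne_zero 2 hX)]; exact (regInf K).one_mem⟩
  have h1 := Inf_trace_integral hu
  have h2 := Inf_trace_integral (hu.mul (Inf_integral_of hν))
  rw [QuadraticAlgebra.re_mul, QuadraticAlgebra.im_mul] at h2
  simp only [mul_zero, zero_add, add_zero] at h2
  have hT := Inf_Tf w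
  have hN := Inf_Nf4 w t
  have hTi := Inf_unit (Inf_TT_monic w).1 (Inf_TT_monic w).2
  have hDi := Inf_unit (Inf_disc w t).1 (Inf_disc w t).2
  have hTne : Tf w ≠ 0 := by
    have h := (Inf_TT_monic w).1.ne_zero
    unfold Tf
    simpa using h
  have hD : algebraMap K[X] (RatFunc K) (TT w ^ 2 + 4 * NN w t) = Tf w ^ 2 + 4 * Nf w t := by
    rw [map_add, map_pow, map_mul, map_ofNat]
    rfl
  rw [hD] at hDi
  have hDne : Tf w ^ 2 + 4 * Nf w t ≠ 0 := by
    have h := (Inf_disc w t).1.ne_zero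
    rw [← hD]
    exact fun h' => h ((map_eq_zero_iff _ (RatFunc.algebraMap_injective K)).1 h')
  have hTi' : (Tf w * (RatFunc.X ^ 2)⁻¹)⁻¹ ∈ regInf K := hTi
  have hb : RatFunc.X ^ 2 * u.im ∈ regInf K := by
    have h3 : RatFunc.X ^ 2 * u.im = ((Tf w ^ 2 + 4 * Nf w t) * (RatFunc.X ^ 4)⁻¹)⁻¹ *
        (2 * (2 * (Nf w t * u.im * (RatFunc.X ^ 2)⁻¹) + Tf w * (u.re * (RatFunc.X ^ 2)⁻¹ +
          Tf w * u.im * (RatFunc.X ^ 2)⁻¹)) - (Tf w * (RatFunc.X ^ 2)⁻¹) *
            (2 * u.re + Tf w * u.im)) := by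
      field_simp
      ring
    rw [h3]
    have h4 : (2 : RatFunc K) ∈ regInf K := by
      have := (regInf K).add_mem (regInf K).one_mem (regInf K).one_mem
      rwa [one_add_one_eq_two] at this
    exact (regInf K).mul_mem hDi ((regInf K).sub_mem ((regInf K).mul_mem h4 h2)
      ((regInf K).mul_mem hT h1))
  refine ⟨?_, hb⟩
  have h3 : u.re = (Tf w * (RatFunc.X ^ 2)⁻¹)⁻¹ *
      ((2 * (Nf w t * u.im * (RatFunc.X ^ 2)⁻¹) + Tf w * (u.re * (RatFunc.X ^ 2)⁻¹ +
          Tf w * u.im * (RatFunc.X ^ 2)⁻¹)) - (RatFunc.X ^ 2 * u.im) *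
        ((Tf w * (RatFunc.X ^ 2)⁻¹) * (Tf w * (RatFunc.X ^ 2)⁻¹) +
          (Nf w t * (RatFunc.X ^ 4)⁻¹ + Nf w t * (RatFunc.X ^ 4)⁻¹))) := by
    field_simp
    ring
  rw [h3]
  exact (regInf K).mul_mem hTi' ((regInf K).sub_mem h2 ((regInf K).mul_mem hb
    ((regInf K).add_mem ((regInf K).mul_mem hT hT) ((regInf K).add_mem hN hN))))

end Pool.Agent.GrE
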