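import Mathlib
import Pool.Agent.GrE.Inf

/-!
The two points `O`, `R` over `x = ∞`: values, and the functions `ε`, `δ = (ε x)⁻¹`.
-/

set_option autoImplicit false

namespace Pool.Agent.GrE

open Polynomial Pool.Agent.GrS

/-- `N` has degree at most two. -/
theorem Eps_NN_deg {F : Type*} [Field F] (w t : F) : (NN w t).natDegree ≤ 2 := by
  unfold NN
  compute_degree

/-- `N / x³` is regular at infinity. -/
theorem Eps_Nf3 {F : Type*} [Field F] (w t : F) : Nf w t * (RatFunc.X ^ 3)⁻¹ ∈ regInf F := by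
  have hX : (RatFunc.X : RatFunc F) ≠ 0 := RatFunc.X_ne_zero
  have h1 : (RatFunc.X : RatFunc F)⁻¹ ∈ regInf F := by
    show (RatFunc.X : RatFunc F)⁻¹.intDegree ≤ 0
    rw [RatFunc.intDegree_inv, RatFunc.intDegree_X]
    norm_num
  have h3 : (1 - algebraMap F (RatFunc F) (1 + w) * (RatFunc.X)⁻¹) ∈ regInf F :=
    (regInf F).sub_mem (regInf F).one_mem
      ((regInf F).mul_mem ((regInf F).algebraMap_mem _) h1)
  have h2 : Nf w t * (RatFunc.X ^ 3)⁻¹ = (algebraMap F (RatFunc F) t * (RatFunc.X⁻¹ * RatFunc.X⁻¹) -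
      algebraMap F (RatFunc F) w * ((1 - algebraMap F (RatFunc F) (1 + w) * (RatFunc.X)⁻¹) *
        (1 - algebraMap F (RatFunc F) (1 + w) * (RatFunc.X)⁻¹))) * RatFunc.X⁻¹ := by
    rw [Nf, NN, map_sub, map_mul, map_pow, map_sub, RatFunc.algebraMap_X, RatFunc.algebraMap_C,
      RatFunc.algebraMap_C, RatFunc.algebraMap_C, RatFunc.algebraMap_eq_C]
    field_simp
  rw [h2]
  exact (regInf F).mul_mem ((regInf F).sub_mem ((regInf F).mul_mem ((regInf F).algebraMap_mem _)
    ((regInf F).mul_mem h1 h1))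
    ((regInf F).mul_mem ((regInf F).algebraMap_mem _) ((regInf F).mul_mem h3 h3))) h1

variable {K : Type*} [Field K] {w t : K} [Fact (∀ r : RatFunc K, r ^ 2 ≠ Nf w t + Tf w * r)]

lemma eps_ne_zero : eps w t ≠ 0 := by
  intro h
  have h1 : (eps w t).re = 0 := by
    rw [h]
    rfl
  exact one_ne_zero (α := RatFunc K) h1

lemma xE_ne_zero : xE w t ≠ 0 := by
  intro h
  have h1 : (xE w t).re = 0 := by
    rw [h]
    rfl
  exact RatFunc.X_ne_zero (K := K) h1

omit [Fact (∀ r : RatFunc K, r ^ 2 ≠ Nf w t + Tf w * r)] in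
/-- `N(ε) x = (1 + w) - N / x³`. -/
theorem Eps_norm : QuadraticAlgebra.norm (eps w t) * RatFunc.X =
    algebraMap K (RatFunc K) (1 + w) - Nf w t * (RatFunc.X ^ 3)⁻¹ := by
  have hX : (RatFunc.X : RatFunc K) ≠ 0 := RatFunc.X_ne_zero
  have h1 : QuadraticAlgebra.norm (eps w t) = 1 * 1 + Tf w * 1 * (-(RatFunc.X ^ 2)⁻¹) -
      Nf w t * (-(RatFunc.X ^ 2)⁻¹) * (-(RatFunc.X ^ 2)⁻¹) := by
    rw [QuadraticAlgebra.norm_def]
    rfl
  have h2 : Tf w = RatFunc.X * (RatFunc.X - algebraMap K (RatFunc K) (1 + w)) := by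
    rw [Tf, TT, map_mul, map_sub, RatFunc.algebraMap_X, RatFunc.algebraMap_C,
      RatFunc.algebraMap_eq_C]
  rw [h1, h2]
  field_simp
  ring

/-- `P / x^n` is a unit of `regInf` for `P` of degree `n`. -/
theorem Eps_unit {P : K[X]} {n : ℕ} (hP : P ≠ 0) (hn : P.natDegree = n) :
    (algebraMap K[X] (RatFunc K) P * (RatFunc.X ^ n)⁻¹)⁻¹ ∈ regInf K := by
  have h1 : (algebraMap K[X] (RatFunc K) P) ≠ 0 := by
    simpa using hP
  have hX : (RatFunc.X : RatFunc K) ^ n = algebraMap K[X] (RatFunc K) (X ^ n) := by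
    rw [map_pow, RatFunc.algebraMap_X]
  change ((algebraMap K[X] (RatFunc K) P * (RatFunc.X ^ n)⁻¹)⁻¹).intDegree ≤ 0
  rw [RatFunc.intDegree_inv,
    RatFunc.intDegree_mul h1 (inv_ne_zero (pow_ne_zero _ RatFunc.X_ne_zero)),
    RatFunc.intDegree_inv, hX, RatFunc.intDegree_polynomial, RatFunc.intDegree_polynomial,
    natDegree_X_pow]
  omega

/-- `N(ε) x = (1 + w) - N / x³` is a unit of `regInf`. -/
lemma norm_eps (hs : 1 + w ≠ 0) : QuadraticAlgebra.norm (eps w t) * RatFunc.X ∈ regInf K ∧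
    (QuadraticAlgebra.norm (eps w t) * RatFunc.X)⁻¹ ∈ regInf K := by
  have hX : (RatFunc.X : RatFunc K) ≠ 0 := RatFunc.X_ne_zero
  rw [Eps_norm]
  refine ⟨(regInf K).sub_mem ((regInf K).algebraMap_mem _) (Eps_Nf3 w t), ?_⟩
  have h1 : (C (1 + w) * X ^ 3 : K[X]).natDegree = 3 := natDegree_C_mul_X_pow 3 _ hs
  have h2 : (NN w t).natDegree < (C (1 + w) * X ^ 3 : K[X]).natDegree := by
    have := Eps_NN_deg w t
    omega
  have h3 : (C (1 + w) * X ^ 3 - NN w t : K[X]).natDegree = 3 := by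
    rw [natDegree_sub_eq_left_of_natDegree_lt h2, h1]
  have h4 : (C (1 + w) * X ^ 3 - NN w t : K[X]) ≠ 0 := by
    intro h
    rw [h, natDegree_zero] at h3
    omega
  have h5 := Eps_unit h4 h3
  have h6 : algebraMap K (RatFunc K) (1 + w) - Nf w t * (RatFunc.X ^ 3)⁻¹ =
      algebraMap K[X] (RatFunc K) (C (1 + w) * X ^ 3 - NN w t) * (RatFunc.X ^ 3)⁻¹ := by
    rw [map_sub, map_mul, map_pow, RatFunc.algebraMap_X, RatFunc.algebraMap_C,
      ← RatFunc.algebraMap_eq_C]
    show _ = (_ - Nf w t) * _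
    field_simp
  rw [h6]
  exact h5

/-- The value at infinity of a function of `regInf`. -/
theorem Eps_val {r : RatFunc K} (hr : r ∈ regInf K) :
    ∃ c : K, (r - algebraMap K (RatFunc K) c) * RatFunc.X ∈ regInf K := by
  have hX : (RatFunc.X : RatFunc K) ≠ 0 := RatFunc.X_ne_zero
  have hr' : r.intDegree ≤ 0 := hr
  by_cases h0 : r = 0
  · refine ⟨0, ?_⟩
    rw [h0, map_zero, sub_zero, zero_mul]
    exact (regInf K).zero_mem
  · rcases lt_or_eq_of_le hr' with h | h
    · refine ⟨0, ?_⟩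
      rw [map_zero, sub_zero]
      show (r * RatFunc.X).intDegree ≤ 0
      rw [RatFunc.intDegree_mul h0 hX, RatFunc.intDegree_X]
      omega
    · have hd : r.num.natDegree = r.denom.natDegree := by
        rw [RatFunc.intDegree] at h
        omega
      have hm : r.denom.Monic := r.monic_denom
      refine ⟨r.num.leadingCoeff, ?_⟩
      have hden : algebraMap K[X] (RatFunc K) r.denom ≠ 0 := by
        simpa using r.denom_ne_zero
      have h1 : (r - algebraMap K (RatFunc K) r.num.leadingCoeff) * RatFunc.X =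
          algebraMap K[X] (RatFunc K) ((r.num - C r.num.leadingCoeff * r.denom) * X) *
            (algebraMap K[X] (RatFunc K) r.denom)⁻¹ := by
        rw [map_mul, map_sub, map_mul, RatFunc.algebraMap_X, RatFunc.algebraMap_C,
          ← RatFunc.algebraMap_eq_C]
        have h7 : r = algebraMap K[X] (RatFunc K) r.num * (algebraMap K[X] (RatFunc K) r.denom)⁻¹ := by
          rw [← div_eq_mul_inv]
          exact (RatFunc.num_div_denom r).symm
        have h8 : ∀ c : RatFunc K, (r - c) * RatFunc.X = (algebraMap K[X] (RatFunc K) r.num -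
            c * algebraMap K[X] (RatFunc K) r.denom) * RatFunc.X *
              (algebraMap K[X] (RatFunc K) r.denom)⁻¹ := by
          intro c
          calc (r - c) * RatFunc.X = (algebraMap K[X] (RatFunc K) r.num *
                (algebraMap K[X] (RatFunc K) r.denom)⁻¹ - c) * RatFunc.X := by rw [← h7]
            _ = _ := by
              field_simp
        exact h8 _
      rw [h1]
      by_cases h2 : (r.num - C r.num.leadingCoeff * r.denom) = 0
      · rw [h2, zero_mul, map_zero, zero_mul]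
        exact (regInf K).zero_mem
      · have h3 : (r.num - C r.num.leadingCoeff * r.denom).degree < r.num.degree := by
          apply degree_sub_lt_left
          · rw [degree_mul, degree_C, zero_add, degree_eq_natDegree r.denom_ne_zero,
              degree_eq_natDegree (RatFunc.num_ne_zero h0), hd]
            exact leadingCoeff_ne_zero.2 (RatFunc.num_ne_zero h0)
          · exact RatFunc.num_ne_zero h0
          · rw [leadingCoeff_mul, leadingCoeff_C, hm.leadingCoeff, mul_one]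
        have h4 : (r.num - C r.num.leadingCoeff * r.denom).natDegree < r.num.natDegree :=
          natDegree_lt_natDegree h2 h3
        have h5 : algebraMap K[X] (RatFunc K)
            ((r.num - C r.num.leadingCoeff * r.denom) * X) ≠ 0 := by
          intro h'
          exact (mul_ne_zero h2 X_ne_zero) ((map_eq_zero_iff _ (RatFunc.algebraMap_injective K)).1 h')
        show (algebraMap K[X] (RatFunc K) ((r.num - C r.num.leadingCoeff * r.denom) * X) *
            (algebraMap K[X] (RatFunc K) r.denom)⁻¹).intDegree ≤ 0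
        rw [RatFunc.intDegree_mul h5 (inv_ne_zero hden), RatFunc.intDegree_inv,
          RatFunc.intDegree_polynomial, RatFunc.intDegree_polynomial, natDegree_mul h2 X_ne_zero,
          natDegree_X]
        omega

/-- `ν / x²`. -/
private noncomputable def nu' (w t : K) : EQ w t := ⟨0, (RatFunc.X ^ 2)⁻¹⟩

omit [Fact (∀ r : RatFunc K, r ^ 2 ≠ Nf w t + Tf w * r)] in
private lemma InB_nu' : InB (nu' w t) := by
  refine ⟨(regInf K).zero_mem, ?_⟩
  show RatFunc.X ^ 2 * (RatFunc.X ^ 2)⁻¹ ∈ regInf K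
  rw [mul_inv_cancel₀ (pow_ne_zero 2 RatFunc.X_ne_zero)]
  exact (regInf K).one_mem

omit [Fact (∀ r : RatFunc K, r ^ 2 ≠ Nf w t + Tf w * r)] in
private lemma eps_eq : eps w t = 1 - nu' w t := by
  ext
  · show (1 : RatFunc K) = 1 - 0
    rw [sub_zero]
  · show -(RatFunc.X ^ 2)⁻¹ = (0 : RatFunc K) - (RatFunc.X ^ 2)⁻¹
    rw [zero_sub]

omit [Fact (∀ r : RatFunc K, r ^ 2 ≠ Nf w t + Tf w * r)] in
private lemma split_b (b : EQ w t) : b = algebraMap (RatFunc K) (EQ w t) b.re +
    algebraMap (RatFunc K) (EQ w t) (RatFunc.X ^ 2 * b.im) * nu' w t := by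
  have hX : (RatFunc.X : RatFunc K) ≠ 0 := RatFunc.X_ne_zero
  ext
  · rw [QuadraticAlgebra.re_add, QuadraticAlgebra.re_mul]
    show b.re = b.re + (RatFunc.X ^ 2 * b.im * 0 + Nf w t * 0 * (RatFunc.X ^ 2)⁻¹)
    ring
  · rw [QuadraticAlgebra.im_add, QuadraticAlgebra.im_mul]
    show b.im = 0 + (RatFunc.X ^ 2 * b.im * (RatFunc.X ^ 2)⁻¹ + 0 * 0 +
      Tf w * 0 * (RatFunc.X ^ 2)⁻¹)
    field_simp
    ring

private lemma norm_ne_zero : QuadraticAlgebra.norm (eps w t) ≠ 0 := by
  rw [Ne, QuadraticAlgebra.norm_eq_zero_iff_eq_zero]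
  exact eps_ne_zero

/-- `ε⁻¹ = (N(ε) x)⁻¹ x (star ε)`. -/
theorem Eps_inv : (eps w t)⁻¹ =
    algebraMap (RatFunc K) (EQ w t) ((QuadraticAlgebra.norm (eps w t) * RatFunc.X)⁻¹) *
      (algebraMap (RatFunc K) (EQ w t) RatFunc.X * star (eps w t)) := by
  have hX : (RatFunc.X : RatFunc K) ≠ 0 := RatFunc.X_ne_zero
  have hn := norm_ne_zero (w := w) (t := t)
  symm
  apply eq_inv_of_mul_eq_one_left
  have h1 := QuadraticAlgebra.algebraMap_norm_eq_mul_star (eps w t)
  have h2 : algebraMap (RatFunc K) (EQ w t)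
      ((QuadraticAlgebra.norm (eps w t) * RatFunc.X)⁻¹) *
      (algebraMap (RatFunc K) (EQ w t) RatFunc.X * star (eps w t)) * eps w t =
      algebraMap (RatFunc K) (EQ w t) ((QuadraticAlgebra.norm (eps w t) * RatFunc.X)⁻¹) *
      (algebraMap (RatFunc K) (EQ w t) RatFunc.X * (eps w t * star (eps w t))) := by
    ring
  rw [h2, ← h1, ← map_mul, ← map_mul]
  have h3 : (QuadraticAlgebra.norm (eps w t) * RatFunc.X)⁻¹ *
      (RatFunc.X * QuadraticAlgebra.norm (eps w t)) = 1 := by
    rw [mul_comm RatFunc.X, inv_mul_cancel₀ (mul_ne_zero hn hX)]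
  rw [h3, map_one]

/-- The value at `O`: `b = p + q ν'` (`ν' = ν/x²`), `c = p(∞) + q(∞)`, `ε⁻¹ = star ε / N(ε)`, `star ε = (1 + w)/x + ν'`. -/
theorem exists_valO (hs : 1 + w ≠ 0) {b : EQ w t} (hb : InB b) :
    ∃ c : K, InB ((b - algebraMap K (EQ w t) c) * (eps w t)⁻¹) := by
  obtain ⟨cp, hcp⟩ := Eps_val hb.1
  obtain ⟨cq, hcq⟩ := Eps_val hb.2
  refine ⟨cp + cq, ?_⟩
  have h1 := QuadraticAlgebra.algebraMap_norm_eq_mul_star (eps w t)
  have hst : InB (star (eps w t)) := InB_eps.star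
  have hK : ∀ c : K, algebraMap K (EQ w t) c =
      algebraMap (RatFunc K) (EQ w t) (algebraMap K (RatFunc K) c) := by
    intro c
    rw [← IsScalarTower.algebraMap_apply]
  have h2 : (b - algebraMap K (EQ w t) (cp + cq)) * (eps w t)⁻¹ =
      algebraMap (RatFunc K) (EQ w t) ((QuadraticAlgebra.norm (eps w t) * RatFunc.X)⁻¹) *
      (algebraMap (RatFunc K) (EQ w t) ((b.re - algebraMap K (RatFunc K) cp) * RatFunc.X) *
          star (eps w t) +
        algebraMap (RatFunc K) (EQ w t)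
          ((RatFunc.X ^ 2 * b.im - algebraMap K (RatFunc K) cq) * RatFunc.X) *
          (nu' w t * star (eps w t)) -
        algebraMap K (EQ w t) cq *
          algebraMap (RatFunc K) (EQ w t) (QuadraticAlgebra.norm (eps w t) * RatFunc.X)) := by
    rw [Eps_inv]
    conv_lhs => rw [split_b b]
    have h3 : (algebraMap (RatFunc K) (EQ w t) b.re +
        algebraMap (RatFunc K) (EQ w t) (RatFunc.X ^ 2 * b.im) * nu' w t -
        algebraMap K (EQ w t) (cp + cq)) *
        (algebraMap (RatFunc K) (EQ w t) RatFunc.X * star (eps w t)) =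
        algebraMap (RatFunc K) (EQ w t) ((b.re - algebraMap K (RatFunc K) cp) * RatFunc.X) *
          star (eps w t) +
        algebraMap (RatFunc K) (EQ w t)
          ((RatFunc.X ^ 2 * b.im - algebraMap K (RatFunc K) cq) * RatFunc.X) *
          (nu' w t * star (eps w t)) -
        algebraMap K (EQ w t) cq *
          algebraMap (RatFunc K) (EQ w t) (QuadraticAlgebra.norm (eps w t) * RatFunc.X) := by
      have h4 : eps w t = 1 - nu' w t := eps_eq
      simp only [map_mul, map_sub, map_add, hK]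
      linear_combination (algebraMap (RatFunc K) (EQ w t) (algebraMap K (RatFunc K) cq) *
        algebraMap (RatFunc K) (EQ w t) RatFunc.X * star (eps w t)) * h4 +
        (algebraMap (RatFunc K) (EQ w t) (algebraMap K (RatFunc K) cq) *
        algebraMap (RatFunc K) (EQ w t) RatFunc.X) * h1
    rw [mul_left_comm, h3]
  rw [h2]
  refine (InB_of_regInf (norm_eps hs).2).mul (InB.sub (InB.add ?_ ?_) ?_)
  · exact (InB_of_regInf hcp).mul hst
  · exact (InB_of_regInf hcq).mul (InB_nu'.mul hst)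
  · exact (InB_const cq).mul (InB_of_regInf (norm_eps hs).1)

/-- The value at `R`: `c = p(∞)`. -/
theorem exists_valR {b : EQ w t} (hb : InB b) :
    ∃ c : K, InB ((b - algebraMap K (EQ w t) c) * (eps w t * xE w t)) := by
  have hX : (RatFunc.X : RatFunc K) ≠ 0 := RatFunc.X_ne_zero
  obtain ⟨cp, hcp⟩ := Eps_val hb.1
  refine ⟨cp, ?_⟩
  have hK : ∀ c : K, algebraMap K (EQ w t) c =
      algebraMap (RatFunc K) (EQ w t) (algebraMap K (RatFunc K) c) := by
    intro c
    rw [← IsScalarTower.algebraMap_apply]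
  have hk : InB (nu' w t * eps w t * xE w t) := by
    have h1 : nu' w t * eps w t * xE w t = ⟨- (Nf w t * (RatFunc.X ^ 3)⁻¹),
        algebraMap K (RatFunc K) (1 + w) * (RatFunc.X ^ 2)⁻¹⟩ := by
      have h2 : Tf w = RatFunc.X * (RatFunc.X - algebraMap K (RatFunc K) (1 + w)) := by
        rw [Tf, TT, map_mul, map_sub, RatFunc.algebraMap_X, RatFunc.algebraMap_C,
          RatFunc.algebraMap_eq_C]
      ext
      · rw [QuadraticAlgebra.re_mul, QuadraticAlgebra.re_mul]
        show (0 * 1 + Nf w t * (RatFunc.X ^ 2)⁻¹ * (-(RatFunc.X ^ 2)⁻¹)) * RatFunc.X +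
          Nf w t * _ * 0 = - (Nf w t * (RatFunc.X ^ 3)⁻¹)
        field_simp
        ring
      · rw [QuadraticAlgebra.im_mul, QuadraticAlgebra.im_mul]
        have h5 : ∀ A B T : RatFunc K, T = RatFunc.X * (RatFunc.X - algebraMap K (RatFunc K) (1 + w)) →
            A * 0 + (0 * (-(RatFunc.X ^ 2)⁻¹) + (RatFunc.X ^ 2)⁻¹ * 1 + T *
            (RatFunc.X ^ 2)⁻¹ * (-(RatFunc.X ^ 2)⁻¹)) * RatFunc.X + T * B * 0 =
            algebraMap K (RatFunc K) (1 + w) * (RatFunc.X ^ 2)⁻¹ := by
          intro A B T hT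
          rw [hT]
          field_simp
          ring
        exact h5 _ _ _ h2
    rw [h1]
    refine ⟨(regInf K).neg_mem (Eps_Nf3 w t), ?_⟩
    show RatFunc.X ^ 2 * (algebraMap K (RatFunc K) (1 + w) * (RatFunc.X ^ 2)⁻¹) ∈ regInf K
    have h3 : RatFunc.X ^ 2 * (algebraMap K (RatFunc K) (1 + w) * (RatFunc.X ^ 2)⁻¹) =
        algebraMap K (RatFunc K) (1 + w) := by
      field_simp
    rw [h3]
    exact (regInf K).algebraMap_mem _
  have h2 : (b - algebraMap K (EQ w t) cp) * (eps w t * xE w t) =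
      algebraMap (RatFunc K) (EQ w t) ((b.re - algebraMap K (RatFunc K) cp) * RatFunc.X) *
        eps w t +
      algebraMap (RatFunc K) (EQ w t) (RatFunc.X ^ 2 * b.im) *
        (nu' w t * eps w t * xE w t) := by
    conv_lhs => rw [split_b b]
    simp only [xE, map_mul, map_sub, hK]
    ring
  rw [h2]
  exact ((InB_of_regInf hcp).mul InB_eps).add ((InB_of_regInf hb.2).mul hk)

/-- Its norm is `x` times a unit of `regInf`. -/
theorem not_InB_inv_eps (hs : 1 + w ≠ 0) : ¬ InB ((eps w t)⁻¹) := by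
  intro h
  have hX : (RatFunc.X : RatFunc K) ≠ 0 := RatFunc.X_ne_zero
  have hn := norm_ne_zero (w := w) (t := t)
  have h1 := QuadraticAlgebra.algebraMap_norm_eq_mul_star (eps w t)
  have h2 : (eps w t)⁻¹ * star ((eps w t)⁻¹) =
      algebraMap (RatFunc K) (EQ w t) ((QuadraticAlgebra.norm (eps w t))⁻¹) := by
    have h3 : star (eps w t) * star ((eps w t)⁻¹) = 1 := by
      rw [← star_mul', mul_inv_cancel₀ eps_ne_zero, star_one]
    have h4 : star ((eps w t)⁻¹) = (star (eps w t))⁻¹ := eq_inv_of_mul_eq_one_right h3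
    rw [h4, ← mul_inv, ← h1, map_inv₀]
  have h3 := (h.mul h.star).1
  rw [h2] at h3
  have h4 : (QuadraticAlgebra.norm (eps w t))⁻¹ ∈ regInf K := h3
  have h5 : (RatFunc.X : RatFunc K) ∈ regInf K := by
    have h6 : (RatFunc.X : RatFunc K) = (QuadraticAlgebra.norm (eps w t) * RatFunc.X) *
        (QuadraticAlgebra.norm (eps w t))⁻¹ := by
      field_simp
    rw [h6]
    exact (regInf K).mul_mem (norm_eps hs).1 h4
  have h6 : (RatFunc.X : RatFunc K).intDegree ≤ 0 := h5
  rw [RatFunc.intDegree_X] at h6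
  omega

/-- `δ = (ε x)⁻¹` is regular: `δ = star ε / (N(ε) x)`. -/
theorem InB_delta (hs : 1 + w ≠ 0) : InB ((eps w t * xE w t)⁻¹) := by
  have hX : (RatFunc.X : RatFunc K) ≠ 0 := RatFunc.X_ne_zero
  have h1 : (eps w t * xE w t)⁻¹ = algebraMap (RatFunc K) (EQ w t)
      ((QuadraticAlgebra.norm (eps w t) * RatFunc.X)⁻¹) * star (eps w t) := by
    rw [mul_inv, Eps_inv]
    have h2 : algebraMap (RatFunc K) (EQ w t) RatFunc.X * (xE w t)⁻¹ = 1 :=
      mul_inv_cancel₀ xE_ne_zero
    linear_combination (algebraMap (RatFunc K) (EQ w t)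
      ((QuadraticAlgebra.norm (eps w t) * RatFunc.X)⁻¹) * star (eps w t)) * h2
  rw [h1]
  exact (InB_of_regInf (norm_eps hs).2).mul InB_eps.star

/-- Proof: `c` the value of `b` at `O`; `(b^g - c^g) / ε` is regular, so `c^g / ε` is, so `c = 0`. -/
theorem eps_dvd (hs : 1 + w ≠ 0) {b : EQ w t} {g : ℕ} (hb : InB b)
    (h : InB (b ^ g * (eps w t)⁻¹)) : InB (b * (eps w t)⁻¹) := by
  obtain ⟨c, hc⟩ := exists_valO hs hb
  have hsum : InB (∑ i ∈ Finset.range g, b ^ i * (algebraMap K (EQ w t) c) ^ (g - 1 - i)) := by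
    refine Finset.sum_induction _ InB (fun _ _ h1 h2 => h1.add h2) InB_zero ?_
    intro i _
    exact (hb.pow i).mul ((InB_const c).pow _)
  have h1 : InB ((algebraMap K (EQ w t) c) ^ g * (eps w t)⁻¹) := by
    have h2 : (algebraMap K (EQ w t) c) ^ g * (eps w t)⁻¹ = b ^ g * (eps w t)⁻¹ -
        ((b - algebraMap K (EQ w t) c) * (eps w t)⁻¹) *
        (∑ i ∈ Finset.range g, b ^ i * (algebraMap K (EQ w t) c) ^ (g - 1 - i)) := by
      have h3 := (Commute.all b (algebraMap K (EQ w t) c)).mul_geom_sum₂ g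
      linear_combination (eps w t)⁻¹ * h3
    rw [h2]
    exact h.sub (hc.mul hsum)
  by_cases h0 : c = 0
  · rw [h0, map_zero, sub_zero] at hc
    exact hc
  · exfalso
    apply not_InB_inv_eps (w := w) (t := t) hs
    have h2 : (eps w t)⁻¹ = algebraMap K (EQ w t) ((c ^ g)⁻¹) *
        ((algebraMap K (EQ w t) c) ^ g * (eps w t)⁻¹) := by
      rw [← map_pow, ← mul_assoc, ← map_mul, inv_mul_cancel₀ (pow_ne_zero g h0), map_one, one_mul]
    rw [h2]
    exact (InB_const _).mul h1

end Pool.Agent.GrE
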