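import Mathlib
import Pool.Agent.GrE.Eps

/-!
`L_j ≠ 0`.
-/

set_option autoImplicit false

namespace Pool.Agent.GrE

open Polynomial Pool.Agent.GrS

section

variable {K E : Type*} [Field K] [Field E] [Algebra K E]

/-- If every element of `B` is a constant modulo `z⁻¹ B`, then a subspace of `B` of dimension at least `n + 1`
has an element `v ≠ 0` with `v z^n` in `B`. -/
private lemma exists_mul_pow (B : Submodule K E) (z : E) (hz : z ≠ 0)
    (h : ∀ b ∈ B, ∃ c : K, (b - algebraMap K E c) * z ∈ B) (n : ℕ) :
    ∀ V : Submodule K E, V ≤ B → FiniteDimensional K V → n + 1 ≤ Module.finrank K V →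
      ∃ v ∈ V, v ≠ 0 ∧ v * z ^ n ∈ B := by
  induction n with
  | zero =>
    intro V hV hfin hdim
    have hpos : 0 < Module.finrank K V := by omega
    have : Nontrivial V := Module.finrank_pos_iff.1 hpos
    obtain ⟨v, hv⟩ := exists_ne (0 : V)
    refine ⟨v, v.2, fun h0 => hv (Subtype.ext h0), ?_⟩
    rw [pow_zero, mul_one]
    exact hV v.2
  | succ n ih =>
    intro V hV hfin hdim
    let m : E →ₗ[K] E := LinearMap.mulRight K z
    have hm : ∀ v, m v = v * z := fun v => rfl
    have hminj : Function.Injective m := by
      intro a b hab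
      rw [hm, hm] at hab
      exact mul_right_cancel₀ hz hab
    let V' : Submodule K E := V ⊓ B.comap m
    have : FiniteDimensional K V' := Submodule.finiteDimensional_of_le inf_le_left
    have hdim' : n + 1 ≤ Module.finrank K V' := by
      by_cases hcase : ∀ v ∈ V, v * z ∈ B
      · have : V' = V := by
          apply le_antisymm inf_le_left
          intro v hv
          exact ⟨hv, hcase v hv⟩
        rw [this]
        omega
      · push Not at hcase
        obtain ⟨v0, hv0, hv0z⟩ := hcase
        obtain ⟨c0, hc0⟩ := h v0 (hV hv0)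
        have hc0' : c0 ≠ 0 := by
          rintro rfl
          rw [map_zero, sub_zero] at hc0
          exact hv0z hc0
        have hle : V ≤ V' ⊔ Submodule.span K {v0} := by
          intro v hv
          obtain ⟨c, hc⟩ := h v (hV hv)
          have hmem : v - (c * c0⁻¹) • v0 ∈ V' := by
            refine ⟨V.sub_mem hv (V.smul_mem _ hv0), ?_⟩
            change (v - (c * c0⁻¹) • v0) * z ∈ B
            have e : (v - (c * c0⁻¹) • v0) * z = (v - algebraMap K E c) * z -
                (c * c0⁻¹) • ((v0 - algebraMap K E c0) * z) := by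
              have e1 : algebraMap K E (c * c0⁻¹) * algebraMap K E c0 = algebraMap K E c := by
                rw [← map_mul, mul_assoc, inv_mul_cancel₀ hc0', mul_one]
              rw [Algebra.smul_def, Algebra.smul_def]
              linear_combination (-z) * e1
            rw [e]
            exact B.sub_mem hc (B.smul_mem _ hc0)
          have e : v = (v - (c * c0⁻¹) • v0) + (c * c0⁻¹) • v0 := by abel
          rw [e]
          exact Submodule.add_mem_sup hmem
            (Submodule.smul_mem _ _ (Submodule.mem_span_singleton_self v0))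
        have h1 := Submodule.finrank_mono hle
        have h2 := Submodule.finrank_add_le_finrank_add_finrank V' (Submodule.span K {v0})
        have h3 : Module.finrank K (Submodule.span K {v0}) ≤ 1 := by
          refine (finrank_span_le_card ({v0} : Set E)).trans ?_
          simp
        omega
    have hmap : Module.finrank K (V'.map m) = Module.finrank K V' :=
      (LinearEquiv.finrank_eq (Submodule.equivMapOfInjective m hminj V')).symm
    obtain ⟨v', hv', hv'0, hv'B⟩ := ih (V'.map m) (by
      rintro _ ⟨v, hv, rfl⟩
      exact hv.2) inferInstance (by rw [hmap]; exact hdim')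
    obtain ⟨v, hv, rfl⟩ := hv'
    refine ⟨v, hv.1, ?_, ?_⟩
    · rintro rfl
      exact hv'0 (map_zero m)
    · rw [hm] at hv'B
      rw [pow_succ']
      rwa [← mul_assoc]

private lemma poly_mul_inv_pow {P : K[X]} {n : ℕ} (h : P.natDegree ≤ n) :
    algebraMap K[X] (RatFunc K) P * (RatFunc.X ^ n)⁻¹ ∈ regInf K := by
  by_cases hP : P = 0
  · rw [hP, map_zero, zero_mul]
    exact (regInf K).zero_mem
  · have h1 : (algebraMap K[X] (RatFunc K) P) ≠ 0 := by
      simpa using hP
    have hX : (RatFunc.X : RatFunc K) ^ n = algebraMap K[X] (RatFunc K) (X ^ n) := by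
      rw [map_pow, RatFunc.algebraMap_X]
    change (algebraMap K[X] (RatFunc K) P * (RatFunc.X ^ n)⁻¹).intDegree ≤ 0
    rw [RatFunc.intDegree_mul h1 (inv_ne_zero (pow_ne_zero _ RatFunc.X_ne_zero)),
      RatFunc.intDegree_inv, hX, RatFunc.intDegree_polynomial, RatFunc.intDegree_polynomial,
      natDegree_X_pow]
    omega

end

variable {K : Type*} [Field K] {w t : K} [Fact (∀ r : RatFunc K, r ^ 2 ≠ Nf w t + Tf w * r)]

/-- The functions regular at infinity, as a subspace. -/
private noncomputable def BS (w t : K) : Submodule K (EQ w t) where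
  carrier := {b | InB b}
  add_mem' := fun ha hb => ha.add hb
  zero_mem' := InB_zero
  smul_mem' := by
    intro c b hb
    rw [Algebra.smul_def]
    exact (InB_const c).mul hb

/-- Proof.  `j = 0`: `u = 1`.  `j ≥ 1`: for `deg A ≤ j + 1`, `deg B ≤ j - 1` (dimension `2j + 2`) the function
`b = (A + B ν) x^(-(j+1))` is in `B`; by `exists_valR` and `exists_mul_pow` (with `z = ε x`) there is `(A, B) ≠ 0` with
`b (ε x)^(2j+1) = (A + B ν) ε^(2j+1) x^j` in `B`. -/
theorem exists_L (hs : 1 + w ≠ 0) (j : ℕ) :
    ∃ A B : K[X], (A ≠ 0 ∨ B ≠ 0) ∧ InL j (pp w t A B) := by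
  rcases Nat.eq_zero_or_pos j with hj | hj
  · subst hj
    refine ⟨1, 0, Or.inl one_ne_zero, ⟨_, _, rfl⟩, ?_⟩
    have h1 : pp w t 1 0 = 1 := by
      unfold pp
      rw [map_one, map_zero]
      rfl
    rw [h1]
    unfold gB
    rw [if_pos rfl, mul_one]
    exact InB_one
  · have hX : xE w t ≠ 0 := xE_ne_zero
    have hz : eps w t * xE w t ≠ 0 := mul_ne_zero eps_ne_zero hX
    have hKX : ∀ (c : K) (A : K[X]), algebraMap K[X] (RatFunc K) (c • A) =
        c • algebraMap K[X] (RatFunc K) A := by
      intro c A
      rw [Algebra.smul_def, Algebra.smul_def, map_mul]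
      rfl
    -- the space of the functions `(A + B ν) x^(-(j+1))`
    let P : (degreeLT K (j + 2)) × (degreeLT K j) →ₗ[K] EQ w t :=
      { toFun := fun A => pp w t A.1 A.2 * (xE w t ^ (j + 1))⁻¹
        map_add' := by
          intro A B
          rw [← add_mul]
          congr 1
          unfold pp
          ext
          · rw [QuadraticAlgebra.re_add, ← map_add]
            rfl
          · rw [QuadraticAlgebra.im_add, ← map_add]
            rfl
        map_smul' := by
          intro c A
          rw [RingHom.id_apply, ← smul_mul_assoc]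
          congr 1
          unfold pp
          ext
          · rw [QuadraticAlgebra.re_smul, ← hKX]
            rfl
          · rw [QuadraticAlgebra.im_smul, ← hKX]
            rfl }
    have hP : ∀ A, P A = pp w t A.1 A.2 * (xE w t ^ (j + 1))⁻¹ := fun A => rfl
    have hPinj : Function.Injective P := by
      intro A B hAB
      rw [hP, hP] at hAB
      have h1 := mul_right_cancel₀ (inv_ne_zero (pow_ne_zero _ hX)) hAB
      unfold pp at h1
      have h2 := congrArg QuadraticAlgebra.re h1
      have h3 := congrArg QuadraticAlgebra.im h1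
      exact Prod.ext (Subtype.ext (RatFunc.algebraMap_injective K h2))
        (Subtype.ext (RatFunc.algebraMap_injective K h3))
    have hf : ∀ n, Module.Finite K (degreeLT K n) := fun n =>
      Module.Finite.equiv (degreeLTEquiv K n).symm
    have hd : ∀ n, Module.finrank K (degreeLT K n) = n := fun n => by
      rw [(degreeLTEquiv K n).finrank_eq, Module.finrank_fin_fun]
    have := hf (j + 2)
    have := hf j
    have hdeg : ∀ {n : ℕ} (A : degreeLT K (n + 1)), (A : K[X]).natDegree ≤ n := by
      intro n A
      have h1 := mem_degreeLT.1 A.2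
      by_cases h0 : (A : K[X]) = 0
      · simp [h0]
      · exact Nat.lt_succ_iff.1 ((natDegree_lt_iff_degree_lt h0).2 h1)
    obtain ⟨v, ⟨A, rfl⟩, hv0, hvB⟩ := exists_mul_pow (BS w t) (eps w t * xE w t) hz
      (fun b hb => exists_valR hb) (2 * j + 1) (LinearMap.range P) (by
        rintro _ ⟨A, rfl⟩
        rw [hP]
        have e : (xE w t ^ (j + 1))⁻¹ =
            algebraMap (RatFunc K) (EQ w t) (RatFunc.X ^ (j + 1))⁻¹ := by
          unfold xE
          rw [map_inv₀, map_pow]
        rw [e]
        change InB _
        obtain ⟨i, rfl⟩ : ∃ i, j = i + 1 := ⟨j - 1, by omega⟩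
        refine ⟨?_, ?_⟩
        · rw [QuadraticAlgebra.re_mul, QuadraticAlgebra.algebraMap_re,
            QuadraticAlgebra.algebraMap_im, mul_zero, add_zero]
          exact poly_mul_inv_pow (hdeg A.1)
        · rw [QuadraticAlgebra.im_mul, QuadraticAlgebra.algebraMap_re,
            QuadraticAlgebra.algebraMap_im, mul_zero, mul_zero, zero_add, add_zero]
          have h1 := poly_mul_inv_pow (hdeg A.2)
          have e2 : RatFunc.X ^ 2 * (algebraMap K[X] (RatFunc K) A.2 *
              (RatFunc.X ^ (i + 1 + 1))⁻¹) =
              algebraMap K[X] (RatFunc K) A.2 * (RatFunc.X ^ i)⁻¹ := by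
            have hX : (RatFunc.X : RatFunc K) ≠ 0 := RatFunc.X_ne_zero
            rw [show i + 1 + 1 = 2 + i by ring, pow_add]
            field_simp
          exact e2 ▸ h1) inferInstance (by
        rw [LinearMap.finrank_range_of_inj hPinj, Module.finrank_prod, hd, hd]
        omega)
    refine ⟨A.1, A.2, ?_, ⟨_, _, rfl⟩, ?_⟩
    · by_contra hcon
      push Not at hcon
      apply hv0
      rw [hP, hcon.1, hcon.2]
      unfold pp
      rw [map_zero]
      exact zero_mul _
    · have e : pp w t A.1 A.2 * gB w t j = P A * (eps w t * xE w t) ^ (2 * j + 1) := by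
        rw [hP]
        unfold gB
        rw [if_neg (by omega), mul_pow]
        have e1 : xE w t ^ (2 * j + 1) = xE w t ^ (j + 1) * xE w t ^ j := by
          rw [← pow_add]
          congr 1
          ring
        rw [e1]
        field_simp
      rw [e]
      exact hvB

end Pool.Agent.GrE
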