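import Mathlib

/-!
Kummer extensions `E = M(t)`, `t^g = f`, `g` invertible, with a primitive `g`-th root of unity in the
field of constants `K`: integral elements are graded, and the trace.
-/

set_option autoImplicit false

namespace Pool.Agent.GrE

open Polynomial

section

variable {K M E : Type*} [Field K] [Field M] [Field E] [Algebra K M] [Algebra M E] [Algebra K E]
  [IsScalarTower K M E]

/-- `E` has the basis `1, t, ..., t^(g-1)` over `M`, and `t^g = f`. -/
structure Kum (M E : Type*) [Field M] [Field E] [Algebra M E] (g : ℕ) (f : M) where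
  /-- the generator -/
  t : E
  ht : t ^ g = algebraMap M E f
  /-- the basis of the powers of `t` -/
  b : Module.Basis (Fin g) M E
  hb : ∀ i, b i = t ^ (i : ℕ)
  hf : f ≠ 0

/-- A Kummer extension exists if `X^g - f` is irreducible: `E = AdjoinRoot`. -/
theorem exists_kum {g : ℕ} {f : M} (hf : f ≠ 0) (hg : 0 < g)
    [Fact (Irreducible (X ^ g - C f : M[X]))] :
    Nonempty (Kum M (AdjoinRoot (X ^ g - C f : M[X])) g f) := by
  have h1 : (X ^ g - C f : M[X]) ≠ 0 := X_pow_sub_C_ne_zero hg f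
  have h2 : (AdjoinRoot.powerBasis h1).dim = g := by
    rw [AdjoinRoot.powerBasis_dim, natDegree_X_pow_sub_C]
  refine ⟨{ t := AdjoinRoot.root _, ht := ?_,
            b := (AdjoinRoot.powerBasis h1).basis.reindex (finCongr h2), hb := ?_, hf := hf }⟩
  · have h3 := AdjoinRoot.eval₂_root (X ^ g - C f : M[X])
    rw [eval₂_sub, eval₂_pow, eval₂_X, eval₂_C, sub_eq_zero] at h3
    exact h3
  · intro i
    rw [Module.Basis.reindex_apply, PowerBasis.basis_eq_pow, AdjoinRoot.powerBasis_gen]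
    rfl

private noncomputable def Kum_pb {g : ℕ} {f : M} (k : Kum M E g f) : PowerBasis M E where
  gen := k.t
  dim := g
  basis := k.b
  basis_eq_pow := k.hb

private lemma Kum_pos {g : ℕ} {f : M} (k : Kum M E g f) : 0 < g := by
  rcases Nat.eq_zero_or_pos g with h | h
  · exfalso
    subst h
    have h1 := k.b.index_nonempty
    exact h1.elim (fun i => i.elim0)
  · exact h

private lemma Kum_minpoly {g : ℕ} {f : M} (k : Kum M E g f) :
    minpoly M k.t = X ^ g - C f := by
  have hg := Kum_pos k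
  have h1 : (minpoly M k.t).natDegree = g := (Kum_pb k).natDegree_minpoly
  have h2 : (minpoly M k.t).Monic := minpoly.monic (Kum_pb k).isIntegral_gen
  have h3 : (X ^ g - C f : M[X]).Monic := monic_X_pow_sub_C f hg.ne'
  have h4 : aeval k.t (X ^ g - C f : M[X]) = 0 := by
    rw [map_sub, map_pow, aeval_X, aeval_C, k.ht, sub_self]
  have h5 : minpoly M k.t ∣ X ^ g - C f := minpoly.dvd M k.t h4
  refine (eq_of_monic_of_dvd_of_natDegree_le h2 h3 h5 ?_).symm
  rw [h1, natDegree_X_pow_sub_C]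

private noncomputable def Kum_sig {g : ℕ} {f : M} (k : Kum M E g f) (w : K) (hw : w ^ g = 1) :
    E →ₐ[M] E :=
  (Kum_pb k).lift (algebraMap K E w * k.t) (by
    change aeval _ (minpoly M k.t) = 0
    rw [Kum_minpoly k, map_sub, map_pow, aeval_X, aeval_C, mul_pow, ← map_pow, hw, map_one,
      one_mul, k.ht, sub_self])

omit [Algebra K M] [IsScalarTower K M E] in
private lemma Kum_sig_t {g : ℕ} {f : M} (k : Kum M E g f) (w : K) (hw : w ^ g = 1) :
    Kum_sig k w hw k.t = algebraMap K E w * k.t :=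
  (Kum_pb k).lift_gen _ _

private lemma Kum_sum {ζ : K} {g : ℕ} (hζ : IsPrimitiveRoot ζ g) (hg : 0 < g) (j l : Fin g) :
    ∑ i ∈ Finset.range g, (ζ⁻¹) ^ (i * (j : ℕ)) * (ζ ^ i) ^ (l : ℕ) =
      if l = j then (g : K) else 0 := by
  have hζ0 : ζ ≠ 0 := hζ.ne_zero hg.ne'
  have h1 : ∀ i ∈ Finset.range g, (ζ⁻¹) ^ (i * (j : ℕ)) * (ζ ^ i) ^ (l : ℕ) =
      (ζ ^ (l : ℕ) * (ζ⁻¹) ^ (j : ℕ)) ^ i := by
    intro i _
    rw [mul_pow, ← pow_mul, ← pow_mul, ← pow_mul, mul_comm i (j : ℕ), mul_comm i (l : ℕ), mul_comm]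
  rw [Finset.sum_congr rfl h1]
  have h2 := geom_sum_mul (ζ ^ (l : ℕ) * (ζ⁻¹) ^ (j : ℕ)) g
  split_ifs with h
  · subst h
    rw [← mul_pow, mul_inv_cancel₀ hζ0, one_pow]
    simp
  · have h3 : (ζ ^ (l : ℕ) * (ζ⁻¹) ^ (j : ℕ)) ^ g = 1 := by
      rw [mul_pow, ← pow_mul, ← pow_mul, mul_comm (l : ℕ), mul_comm (j : ℕ), pow_mul, pow_mul,
        hζ.pow_eq_one, inv_pow, hζ.pow_eq_one, inv_one, one_pow, one_pow, one_mul]
    rw [h3, sub_self] at h2
    rcases mul_eq_zero.mp h2 with h4 | h4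
    · exact h4
    · exfalso
      apply h
      rw [sub_eq_zero, inv_pow, ← div_eq_mul_inv, div_eq_one_iff_eq (pow_ne_zero _ hζ0)] at h4
      exact Fin.ext (hζ.pow_inj l.2 j.2 h4)

/-- The averages: if `∑ a_j t^j` is integral over `B`, then so are all `a_j t^j`. -/
theorem Kum.graded {g : ℕ} {f : M} (k : Kum M E g f) {ζ : K} (hζ : IsPrimitiveRoot ζ g)
    (hg : (g : K) ≠ 0) {B : Type*} [CommRing B] [Algebra K B] [Algebra B E] [Algebra B M]
    [IsScalarTower K B E] [IsScalarTower B M E] (a : Fin g → M)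
    (h : IsIntegral B (∑ j, algebraMap M E (a j) * k.t ^ (j : ℕ))) (j : Fin g) :
    IsIntegral B (algebraMap M E (a j) * k.t ^ (j : ℕ)) := by
  have hg0 := Kum_pos k
  have hK : ∀ c : K, IsIntegral B (algebraMap K E c) := by
    intro c
    rw [IsScalarTower.algebraMap_apply K B E]
    exact isIntegral_algebraMap
  -- the conjugates
  have h1 : ∀ i : ℕ, IsIntegral B
      (∑ l, algebraMap M E (a l) * (algebraMap K E (ζ ^ i) * k.t) ^ (l : ℕ)) := by
    intro i
    have hw : (ζ ^ i) ^ g = 1 := by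
      rw [← pow_mul, mul_comm, pow_mul, hζ.pow_eq_one, one_pow]
    have h2 := h.map ((Kum_sig k (ζ ^ i) hw).restrictScalars B)
    rw [map_sum] at h2
    convert h2 using 2 with l
    change _ = Kum_sig k (ζ ^ i) hw _
    rw [map_mul, map_pow (Kum_sig k (ζ ^ i) hw), Kum_sig_t, AlgHom.commutes]
  have h2 : IsIntegral B (∑ i ∈ Finset.range g, algebraMap K E ((ζ⁻¹) ^ (i * (j : ℕ))) *
      ∑ l, algebraMap M E (a l) * (algebraMap K E (ζ ^ i) * k.t) ^ (l : ℕ)) :=
    IsIntegral.sum _ fun i _ => (hK _).mul (h1 i)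
  have h3 : ∑ i ∈ Finset.range g, algebraMap K E ((ζ⁻¹) ^ (i * (j : ℕ))) *
      ∑ l, algebraMap M E (a l) * (algebraMap K E (ζ ^ i) * k.t) ^ (l : ℕ) =
      algebraMap K E (g : K) * (algebraMap M E (a j) * k.t ^ (j : ℕ)) := by
    have h4 : ∀ i ∈ Finset.range g, algebraMap K E ((ζ⁻¹) ^ (i * (j : ℕ))) *
        ∑ l, algebraMap M E (a l) * (algebraMap K E (ζ ^ i) * k.t) ^ (l : ℕ) =
        ∑ l : Fin g, algebraMap K E ((ζ⁻¹) ^ (i * (j : ℕ)) * (ζ ^ i) ^ (l : ℕ)) *
          (algebraMap M E (a l) * k.t ^ (l : ℕ)) := by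
      intro i _
      rw [Finset.mul_sum]
      refine Finset.sum_congr rfl fun l _ => ?_
      rw [map_mul, map_pow _ (ζ ^ i)]
      ring
    rw [Finset.sum_congr rfl h4, Finset.sum_comm]
    have h5 : ∀ l ∈ (Finset.univ : Finset (Fin g)), ∑ i ∈ Finset.range g,
        algebraMap K E ((ζ⁻¹) ^ (i * (j : ℕ)) * (ζ ^ i) ^ (l : ℕ)) *
          (algebraMap M E (a l) * k.t ^ (l : ℕ)) =
        algebraMap K E (if l = j then (g : K) else 0) *
          (algebraMap M E (a l) * k.t ^ (l : ℕ)) := by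
      intro l _
      rw [← Finset.sum_mul, ← map_sum, Kum_sum hζ hg0]
    rw [Finset.sum_congr rfl h5, Finset.sum_eq_single j]
    · rw [if_pos rfl]
    · intro l _ hl
      rw [if_neg hl, map_zero, zero_mul]
    · intro hj
      exact absurd (Finset.mem_univ j) hj
  rw [h3] at h2
  have h6 : algebraMap M E (a j) * k.t ^ (j : ℕ) =
      algebraMap K E (g : K)⁻¹ * (algebraMap K E (g : K) *
        (algebraMap M E (a j) * k.t ^ (j : ℕ))) := by
    rw [← mul_assoc, ← map_mul, inv_mul_cancel₀ hg, map_one, one_mul]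
  rw [h6]
  exact (hK _).mul h2

/-- The trace: `Tr (a t^j) = 0` for `0 < j < g`. -/
theorem Kum.trace_pow {g : ℕ} {f : M} (k : Kum M E g f) (a : M) {j : ℕ} (hj0 : 0 < j)
    (hj : j < g) : Algebra.trace M E (algebraMap M E a * k.t ^ j) = 0 := by
  rw [Algebra.trace_eq_matrix_trace k.b, Matrix.trace]
  refine Finset.sum_eq_zero fun i _ => ?_
  rw [Matrix.diag_apply, Algebra.leftMulMatrix_eq_repr_mul, k.hb, mul_assoc, ← pow_add]
  by_cases h : j + (i : ℕ) < g
  · have h1 : k.t ^ (j + (i : ℕ)) = k.b ⟨j + i, h⟩ := (k.hb ⟨j + i, h⟩).symm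
    rw [h1, ← Algebra.smul_def, map_smul, Module.Basis.repr_self, Finsupp.smul_apply,
      Finsupp.single_apply, if_neg, smul_zero]
    intro h2
    have h3 := congrArg Fin.val h2
    simp only at h3
    omega
  · have h4 : j + (i : ℕ) - g < g := by omega
    have h1 : k.t ^ (j + (i : ℕ)) = algebraMap M E f * k.b ⟨j + i - g, h4⟩ := by
      rw [k.hb, ← k.ht, ← pow_add]
      congr 1
      change _ = g + (j + i - g)
      omega
    rw [h1, ← mul_assoc, ← map_mul, ← Algebra.smul_def, map_smul, Module.Basis.repr_self,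
      Finsupp.smul_apply, Finsupp.single_apply, if_neg, smul_zero]
    intro h2
    have h3 := congrArg Fin.val h2
    simp only at h3
    omega

theorem Kum.trace_one {g : ℕ} {f : M} (k : Kum M E g f) (a : M) :
    Algebra.trace M E (algebraMap M E a) = (g : M) * a := by
  rw [Algebra.trace_algebraMap_of_basis k.b, Fintype.card_fin, nsmul_eq_mul]

/-- Integrality of `a t^j`: over an integrally closed subring, through `f^j a^g`. -/
theorem Kum.integral_iff {g : ℕ} {f : M} (k : Kum M E g f) (hg : 0 < g) {B : Type*} [CommRing B]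
    [Algebra B E] [Algebra B M] [IsScalarTower B M E] (a : M) (j : ℕ) :
    IsIntegral B (algebraMap M E a * k.t ^ j) ↔ IsIntegral B (f ^ j * a ^ g) := by
  rw [← IsIntegral.pow_iff hg, ← isIntegral_algebraMap_iff (algebraMap M E).injective]
  have h : (algebraMap M E a * k.t ^ j) ^ g = algebraMap M E (f ^ j * a ^ g) := by
    rw [mul_pow, ← pow_mul, mul_comm j g, pow_mul, k.ht, map_mul, map_pow, map_pow, mul_comm]
  rw [h]

end

end Pool.Agent.GrE
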