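import Mathlib
import Pool.Agent.GrE.Defs

/-!
The integral closure of `K[x]` in `K(x)[ν]` is `K[x] + K[x] ν` (the affine curve is smooth).
-/

set_option autoImplicit false

namespace Pool.Agent.GrE

open Polynomial

variable {K : Type*} [Field K] {w t : K}

lemma Nor_add {u v : EQ w t} (hu : InA u) (hv : InA v) : InA (u + v) := by
  obtain ⟨A, B, rfl⟩ := hu
  obtain ⟨C, D, rfl⟩ := hv
  refine ⟨A + C, B + D, QuadraticAlgebra.ext ?_ ?_⟩
  · simp [pp]
  · simp [pp]

lemma Nor_neg {u : EQ w t} (hu : InA u) : InA (-u) := by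
  obtain ⟨A, B, rfl⟩ := hu
  refine ⟨-A, -B, QuadraticAlgebra.ext ?_ ?_⟩
  · simp [pp]
  · simp [pp]

lemma Nor_sub {u v : EQ w t} (hu : InA u) (hv : InA v) : InA (u - v) := by
  rw [sub_eq_add_neg]
  exact Nor_add hu (Nor_neg hv)

lemma Nor_pp_mul (A B C D : K[X]) : pp w t A B * pp w t C D =
    pp w t (A * C + NN w t * B * D) (A * D + B * C + TT w * B * D) := by
  refine QuadraticAlgebra.ext ?_ ?_
  · change _ = algebraMap K[X] (RatFunc K) (A * C + NN w t * B * D)
    rw [map_add, map_mul, map_mul, map_mul]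
    rfl
  · change _ = algebraMap K[X] (RatFunc K) (A * D + B * C + TT w * B * D)
    rw [map_add, map_add, map_mul, map_mul, map_mul, map_mul]
    rfl

lemma Nor_mul {u v : EQ w t} (hu : InA u) (hv : InA v) : InA (u * v) := by
  obtain ⟨A, B, rfl⟩ := hu
  obtain ⟨C, D, rfl⟩ := hv
  exact ⟨_, _, Nor_pp_mul A B C D⟩

lemma Nor_algebraMap (A : K[X]) : algebraMap K[X] (EQ w t) A = pp w t A 0 := by
  rw [IsScalarTower.algebraMap_apply K[X] (RatFunc K) (EQ w t), QuadraticAlgebra.algebraMap_eq]
  simp [pp]

lemma Nor_one : InA (1 : EQ w t) := ⟨1, 0, by rw [← Nor_algebraMap, map_one]⟩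

lemma Nor_pow {u : EQ w t} (hu : InA u) (n : ℕ) : InA (u ^ n) := by
  induction n with
  | zero =>
    rw [pow_zero]
    exact Nor_one
  | succ n ih =>
    rw [pow_succ]
    exact Nor_mul ih hu

lemma Nor_algebraMap_mul (A C D : K[X]) : algebraMap K[X] (EQ w t) A * pp w t C D =
    pp w t (A * C) (A * D) := by
  rw [Nor_algebraMap, Nor_pp_mul]
  simp

lemma Nor_pp_inj {A B C D : K[X]} (h : pp w t A B = pp w t C D) : A = C ∧ B = D := by
  have h1 := congrArg QuadraticAlgebra.re h
  have h2 := congrArg QuadraticAlgebra.im h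
  exact ⟨RatFunc.algebraMap_injective K h1, RatFunc.algebraMap_injective K h2⟩

lemma Nor_trace (A B : K[X]) : (pp w t A B).trace =
    algebraMap K[X] (RatFunc K) (2 * A + TT w * B) := by
  rw [QuadraticAlgebra.trace_def, map_add, map_mul, map_mul, map_ofNat]
  rfl

lemma Nor_norm (A B : K[X]) : (pp w t A B).norm =
    algebraMap K[X] (RatFunc K) (A * A + TT w * A * B - NN w t * B * B) := by
  rw [QuadraticAlgebra.norm_def, map_sub, map_add, map_mul, map_mul, map_mul, map_mul, map_mul]
  rfl

/-- elements of `K[x] + K[x] ν` are integral -/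
lemma Nor_isIntegral {u : EQ w t} (hu : InA u) : IsIntegral K[X] u := by
  obtain ⟨A, B, rfl⟩ := hu
  refine ⟨X ^ 2 - C (2 * A + TT w * B) * X + C (A * A + TT w * A * B - NN w t * B * B), ?_, ?_⟩
  · monicity!
  · have h1 := QuadraticAlgebra.sq_sub_trace_smul_add_norm_eq_zero (pp w t A B)
    rw [Nor_trace, Nor_norm, Algebra.smul_def, ← IsScalarTower.algebraMap_apply,
      ← IsScalarTower.algebraMap_apply] at h1
    rw [eval₂_add, eval₂_sub, eval₂_mul, eval₂_pow, eval₂_X, eval₂_C, eval₂_C]
    exact h1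

private lemma Nor_star {u : EQ w t} (hu : IsIntegral K[X] u) : IsIntegral K[X] (star u) := by
  refine IsIntegral.map_of_comp_eq (RingHom.id K[X]) (starRingEnd (EQ w t)) ?_ hu
  rw [RingHom.comp_id]
  apply RingHom.ext
  intro A
  rw [RingHom.comp_apply, starRingEnd_apply, Nor_algebraMap]
  refine QuadraticAlgebra.ext ?_ ?_
  · simp [pp]
  · simp [pp]

private lemma Nor_descend (r : RatFunc K) (h : IsIntegral K[X] (algebraMap (RatFunc K) (EQ w t) r)) :
    ∃ P : K[X], r = algebraMap K[X] (RatFunc K) P := by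
  rw [isIntegral_algebraMap_iff QuadraticAlgebra.algebraMap_injective] at h
  obtain ⟨P, hP⟩ := IsIntegrallyClosed.isIntegral_iff.mp h
  exact ⟨P, hP.symm⟩

/-- The core: denominators of degree one. -/
private lemma Nor_lin (hG : Good w t) (u : EQ w t) (hu : IsIntegral K[X] u) (c : K)
    (h : InA (algebraMap K[X] (EQ w t) (X - C c) * u)) : InA u := by
  obtain ⟨A, B, hAB⟩ := h
  set D : K[X] := X - C c with hD
  have hD0 : D ≠ 0 := X_sub_C_ne_zero c
  -- reduce modulo `D`
  have hA : A = C (A.eval c) + D * (A /ₘ D) := by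
    rw [← modByMonic_X_sub_C_eq_C_eval, modByMonic_add_div]
  have hB : B = C (B.eval c) + D * (B /ₘ D) := by
    rw [← modByMonic_X_sub_C_eq_C_eval, modByMonic_add_div]
  set a := A.eval c
  set b := B.eval c
  set A1 := A /ₘ D
  set B1 := B /ₘ D
  set v : EQ w t := u - pp w t A1 B1 with hv
  have hvi : IsIntegral K[X] v := hu.sub (Nor_isIntegral ⟨A1, B1, rfl⟩)
  have hDv : algebraMap K[X] (EQ w t) D * v = pp w t (C a) (C b) := by
    rw [hv, mul_sub, hAB, Nor_algebraMap_mul]
    refine QuadraticAlgebra.ext ?_ ?_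
    · change algebraMap K[X] (RatFunc K) A - algebraMap K[X] (RatFunc K) (D * A1) =
        algebraMap K[X] (RatFunc K) (C a)
      rw [← map_sub]
      congr 1
      conv_lhs => rw [hA]
      ring
    · change algebraMap K[X] (RatFunc K) B - algebraMap K[X] (RatFunc K) (D * B1) =
        algebraMap K[X] (RatFunc K) (C b)
      rw [← map_sub]
      congr 1
      conv_lhs => rw [hB]
      ring
  -- trace
  obtain ⟨P, hP⟩ : ∃ P : K[X], v.trace = algebraMap K[X] (RatFunc K) P := by
    apply Nor_descend
    rw [QuadraticAlgebra.algebraMap_trace_eq_add_star]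
    exact hvi.add (Nor_star hvi)
  obtain ⟨Q, hQ⟩ : ∃ Q : K[X], v.norm = algebraMap K[X] (RatFunc K) Q := by
    apply Nor_descend
    rw [QuadraticAlgebra.algebraMap_norm_eq_mul_star]
    exact hvi.mul (Nor_star hvi)
  have h1 : D * P = 2 * C a + TT w * C b := by
    apply RatFunc.algebraMap_injective K
    have key : algebraMap K[X] (EQ w t) D * v = algebraMap K[X] (RatFunc K) D • v := by
      rw [IsScalarTower.algebraMap_apply K[X] (RatFunc K) (EQ w t), ← Algebra.smul_def]
    rw [map_mul, ← hP, ← Nor_trace (t := t), ← hDv, key, map_smul, smul_eq_mul]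
  have h2 : D ^ 2 * Q = C a * C a + TT w * C a * C b - NN w t * C b * C b := by
    apply RatFunc.algebraMap_injective K
    rw [map_mul, ← hQ, ← Nor_norm, ← hDv, map_mul QuadraticAlgebra.norm,
      IsScalarTower.algebraMap_apply K[X] (RatFunc K) (EQ w t), QuadraticAlgebra.norm_algebraMap,
      map_pow]
  have hDc : D.eval c = 0 := by
    rw [hD, eval_sub, eval_X, eval_C, sub_self]
  have e1 : 0 = 2 * a + (TT w).eval c * b := by
    have := congrArg (eval c) h1
    simpa [hDc] using this
  have e2 : 0 = a * a + (TT w).eval c * a * b - (NN w t).eval c * b * b := by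
    have := congrArg (eval c) h2
    simpa [hDc] using this
  have e3 : 0 = (derivative (TT w)).eval c * a * b - (derivative (NN w t)).eval c * b * b := by
    have := congrArg (fun p => eval c (derivative p)) h2
    simpa [hDc, derivative_pow] using this
  have hb : b = 0 := by
    by_contra hb
    refine hG.smooth c (-(a / b)) ?_ ?_ ?_
    · field_simp
      linear_combination -e2
    · field_simp
      linear_combination e1
    · field_simp
      have h3 : b * (-((derivative (TT w)).eval c * a) + (derivative (NN w t)).eval c * b) = 0 := by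
        linear_combination e3
      rcases mul_eq_zero.mp h3 with h4 | h4
      · exact absurd h4 hb
      · linear_combination h4
  have ha : a = 0 := by
    rw [hb] at e2
    have : a * a = 0 := by linear_combination -e2
    exact mul_self_eq_zero.mp this
  rw [ha, hb, C_0] at hDv
  have hv0 : v = 0 := by
    have h5 : algebraMap K[X] (EQ w t) D * v = 0 := by
      rw [hDv]
      refine QuadraticAlgebra.ext ?_ ?_
      · simp [pp]
      · simp [pp]
    rw [IsScalarTower.algebraMap_apply K[X] (RatFunc K) (EQ w t), ← Algebra.smul_def] at h5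
    have hD1 : algebraMap K[X] (RatFunc K) D ≠ 0 := by
      intro h6
      exact hD0 (RatFunc.algebraMap_injective K (by rw [h6, map_zero]))
    exact (smul_eq_zero.mp h5).resolve_left hD1
  exact ⟨A1, B1, by rw [← sub_eq_zero, ← hv, hv0]⟩

private lemma Nor_den [IsAlgClosed K] (hG : Good w t) (n : ℕ) : ∀ d : K[X], d ≠ 0 →
    d.natDegree = n → ∀ u : EQ w t, IsIntegral K[X] u → InA (algebraMap K[X] (EQ w t) d * u) →
    InA u := by
  induction n with
  | zero =>
    intro d hd hn u hu h
    rw [natDegree_eq_zero] at hn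
    obtain ⟨c, rfl⟩ := hn
    have hc : c ≠ 0 := by
      rintro rfl
      exact hd C_0
    have h1 : u = pp w t (C c⁻¹) 0 * (algebraMap K[X] (EQ w t) (C c) * u) := by
      rw [← Nor_algebraMap, ← mul_assoc, ← map_mul, ← C_mul, inv_mul_cancel₀ hc, C_1, map_one,
        one_mul]
    rw [h1]
    exact Nor_mul ⟨_, _, rfl⟩ h
  | succ n ih =>
    intro d hd hn u hu h
    obtain ⟨c, hc⟩ := IsAlgClosed.exists_root d (by
      intro h1
      rw [degree_eq_natDegree hd, hn] at h1
      exact absurd h1 (by exact_mod_cast Nat.succ_ne_zero n))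
    obtain ⟨e, rfl⟩ := dvd_iff_isRoot.mpr hc
    have he : e ≠ 0 := right_ne_zero_of_mul hd
    have hn' : e.natDegree = n := by
      rw [natDegree_mul (X_sub_C_ne_zero c) he, natDegree_X_sub_C] at hn
      omega
    refine ih e he hn' u hu ?_
    refine Nor_lin hG _ ?_ c ?_
    · exact isIntegral_algebraMap.mul hu
    · rw [← mul_assoc, ← map_mul]
      exact h

/-- Proof (`→`): `u = a + b ν` integral; `star u` is integral, so trace `2a + T b` and norm
`a² + T a b - N b²` are integral over `K[x]`, hence polynomials.  Let `d` be the monic polynomial of smallest degree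
with `d a`, `d b` polynomials.  If `d ≠ 1` it has a root `c`; then `u' = (d/(x-c)) u = (A + B ν)/(x - c)` is integral
with `A`, `B` polynomials, not both divisible by `x - c`; subtracting `A1 + B1 ν` one may take `A`, `B` constants, not
both `0`.  Trace: `2A + B T(c) = 0`; norm: `(x-c)² ∣ A² + T A B - N B²`, in particular `B ≠ 0` and for `n = -A/B`:
`2n = T(c)`, `n² - T(c) n - N(c) = 0` and (derivative) `T'(c) n + N'(c) = 0`; contradiction to `Good.smooth`. -/
theorem isIntegral_iff [IsAlgClosed K] (hG : Good w t) (u : EQ w t) :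
    IsIntegral K[X] u ↔ InA u := by
  refine ⟨fun hu => ?_, Nor_isIntegral⟩
  obtain ⟨a, d, hd, ha⟩ : ∃ a d : K[X], d ≠ 0 ∧
      algebraMap K[X] (RatFunc K) d * u.re = algebraMap K[X] (RatFunc K) a := by
    refine ⟨u.re.num, u.re.denom, u.re.denom_ne_zero, ?_⟩
    have h1 := RatFunc.num_div_denom u.re
    rw [div_eq_iff (RatFunc.algebraMap_ne_zero u.re.denom_ne_zero)] at h1
    rw [h1, mul_comm]
  obtain ⟨b, e, he, hb⟩ : ∃ b e : K[X], e ≠ 0 ∧
      algebraMap K[X] (RatFunc K) e * u.im = algebraMap K[X] (RatFunc K) b := by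
    refine ⟨u.im.num, u.im.denom, u.im.denom_ne_zero, ?_⟩
    have h1 := RatFunc.num_div_denom u.im
    rw [div_eq_iff (RatFunc.algebraMap_ne_zero u.im.denom_ne_zero)] at h1
    rw [h1, mul_comm]
  refine Nor_den hG _ (d * e) (mul_ne_zero hd he) rfl u hu ⟨e * a, d * b, ?_⟩
  rw [IsScalarTower.algebraMap_apply K[X] (RatFunc K) (EQ w t), ← Algebra.smul_def]
  refine QuadraticAlgebra.ext ?_ ?_
  · change algebraMap K[X] (RatFunc K) (d * e) * u.re = algebraMap K[X] (RatFunc K) (e * a)
    rw [map_mul, map_mul, ← ha]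
    ring
  · change algebraMap K[X] (RatFunc K) (d * e) * u.im = algebraMap K[X] (RatFunc K) (d * b)
    rw [map_mul, map_mul, ← hb]
    ring

end Pool.Agent.GrE
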