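import Mathlib
import Pool.Agent.GrE.Nor

/-!
A function `α = A + B ν` whose norm has degree `1` is a prime element of `A' = K[x] + K[x] ν`.
-/

set_option autoImplicit false

namespace Pool.Agent.GrE

open Polynomial

section

variable {K : Type*} [Field K] {w t : K}

/-- The value of `C + D ν` at `x = e`, `ν = n`. -/
private def Prm_ev (e n : K) (C D : K[X]) : K := C.eval e + D.eval e * n

private lemma Prm_ev_mul {e n : K} (hn : n ^ 2 = (TT w).eval e * n + (NN w t).eval e)
    (A B C D : K[X]) :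
    Prm_ev e n (A * C + NN w t * B * D) (A * D + B * C + TT w * B * D) =
      Prm_ev e n A B * Prm_ev e n C D := by
  simp only [Prm_ev, eval_add, eval_mul]
  linear_combination (-(B.eval e * D.eval e)) * hn

/-- The place of the zero of `α`. -/
private lemma Prm_place {A B P : K[X]} (hP : A * A + TT w * A * B - NN w t * B * B = P)
    (hd : P.natDegree = 1) : ∃ e n k : K, k ≠ 0 ∧ P = C k * (X - C e) ∧ B.eval e ≠ 0 ∧
      n ^ 2 = (TT w).eval e * n + (NN w t).eval e ∧ A.eval e = - n * B.eval e := by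
  obtain ⟨k, hk, b, hb⟩ : ∃ k : K, k ≠ 0 ∧ ∃ b : K, P = C k * X + C b := by
    obtain ⟨a, ha, b, hb⟩ := natDegree_eq_one.mp hd
    exact ⟨a, ha, b, hb.symm⟩
  set e : K := -(b / k) with he
  have hPe : P = C k * (X - C e) := by
    rw [hb, he, mul_sub, ← C_mul, C_inj.mpr (show k * -(b / k) = -b by field_simp), C_neg]
    ring
  have hP0 : P.eval e = 0 := by
    rw [hPe, eval_mul, eval_sub, eval_X, eval_C, eval_C, sub_self, mul_zero]
  have h1 : A.eval e * A.eval e + (TT w).eval e * A.eval e * B.eval e -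
      (NN w t).eval e * B.eval e * B.eval e = 0 := by
    rw [← hP0, ← hP]
    simp
  have hB : B.eval e ≠ 0 := by
    intro hB
    have hA : A.eval e = 0 := by
      rw [hB] at h1
      have : A.eval e * A.eval e = 0 := by linear_combination h1
      exact mul_self_eq_zero.mp this
    obtain ⟨A', rfl⟩ := dvd_iff_isRoot.mpr hA
    obtain ⟨B', rfl⟩ := dvd_iff_isRoot.mpr hB
    have h2 : (X - C e) * (X - C e) ∣ (X - C e) * C k := by
      refine ⟨A' * A' + TT w * A' * B' - NN w t * B' * B', ?_⟩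
      rw [mul_comm _ (C k), ← hPe, ← hP]
      ring
    have h3 : (X - C e) ∣ C k := (mul_dvd_mul_iff_left (X_sub_C_ne_zero e)).mp h2
    have h4 := dvd_iff_isRoot.mp h3
    rw [IsRoot.def, eval_C] at h4
    exact hk h4
  refine ⟨e, -(A.eval e / B.eval e), k, hk, hPe, hB, ?_, ?_⟩
  · field_simp
    linear_combination h1
  · field_simp

end

variable {K : Type*} [Field K] {w t : K} [Fact (∀ r : RatFunc K, r ^ 2 ≠ Nf w t + Tf w * r)]
  {A B P : K[X]}

omit [Fact (∀ r : RatFunc K, r ^ 2 ≠ Nf w t + Tf w * r)] in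
private lemma Prm_P (hP : QuadraticAlgebra.norm (pp w t A B) = algebraMap K[X] (RatFunc K) P) :
    A * A + TT w * A * B - NN w t * B * B = P := by
  rw [Nor_norm] at hP
  exact RatFunc.algebraMap_injective K hP

omit [Fact (∀ r : RatFunc K, r ^ 2 ≠ Nf w t + Tf w * r)] in
private lemma Prm_ne (hP : QuadraticAlgebra.norm (pp w t A B) = algebraMap K[X] (RatFunc K) P)
    (hd : P.natDegree = 1) : pp w t A B ≠ 0 := by
  intro h
  rw [h, QuadraticAlgebra.norm_zero] at hP
  have h1 : P = 0 := RatFunc.algebraMap_injective K (by rw [← hP, map_zero])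
  rw [h1, natDegree_zero] at hd
  exact absurd hd (by norm_num)

/-- Proof: `e` the root of `P = A² + T A B - N B²`; `B(e) ≠ 0` (otherwise `A(e) = 0` and `(x-e)² ∣ P`);
`n = -A(e)/B(e)`, so `n² - T(e) n - N(e) = 0`: `ev (C + D ν) = C(e) + D(e) n` is multiplicative on `A'`, and
`ev v = 0` iff `v / α = v star α / P` is in `A'` (`v star α = C (A + B T) - D B N + (D A - C B) ν`). -/
theorem dvd_of_pow (hP : QuadraticAlgebra.norm (pp w t A B) = algebraMap K[X] (RatFunc K) P)
    (hd : P.natDegree = 1) {v : EQ w t} {n : ℕ} (hv : InA v)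
    (h : InA (v ^ n * (pp w t A B)⁻¹)) : InA (v * (pp w t A B)⁻¹) := by
  have hα := Prm_ne hP hd
  obtain ⟨e, m, k, hk, hPe, hB, hm, hA⟩ := Prm_place (Prm_P hP) hd
  -- a multiplicative function
  have hpow : ∀ (i : ℕ) (C D : K[X]), v = pp w t C D → ∃ C' D' : K[X], v ^ i = pp w t C' D' ∧
      Prm_ev e m C' D' = Prm_ev e m C D ^ i := by
    intro i C D hCD
    induction i with
    | zero =>
      refine ⟨1, 0, ?_, ?_⟩
      · rw [pow_zero, ← Nor_algebraMap, map_one]
      · simp [Prm_ev]
    | succ i ih =>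
      obtain ⟨C', D', h1, h2⟩ := ih
      refine ⟨C' * C + NN w t * D' * D, C' * D + D' * C + TT w * D' * D, ?_, ?_⟩
      · rw [pow_succ, h1, hCD, Nor_pp_mul]
      · rw [Prm_ev_mul hm, h2, pow_succ]
  obtain ⟨C, D, hCD⟩ := hv
  obtain ⟨C', D', h1, h2⟩ := hpow n C D hCD
  obtain ⟨U, V, hUV⟩ := h
  have h3 : v ^ n = pp w t U V * pp w t A B := by
    rw [← hUV, inv_mul_cancel_right₀ hα]
  rw [h1, Nor_pp_mul] at h3
  obtain ⟨h4, h5⟩ := Nor_pp_inj h3
  have h6 : Prm_ev e m C D ^ n = 0 := by
    rw [← h2, h4, h5, Prm_ev_mul hm]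
    have : Prm_ev e m A B = 0 := by
      simp only [Prm_ev, hA]
      ring
    rw [this, mul_zero]
  have h7 : Prm_ev e m C D = 0 := eq_zero_of_pow_eq_zero h6
  -- divisibility
  have h8 : P ∣ C * (A + TT w * B) - NN w t * D * B := by
    rw [hPe]
    refine (isUnit_C.mpr (isUnit_iff_ne_zero.mpr hk)).mul_left_dvd.mpr ?_
    rw [dvd_iff_isRoot, IsRoot.def]
    simp only [eval_sub, eval_mul, eval_add, hA]
    simp only [Prm_ev] at h7
    linear_combination (B.eval e * (-m + (TT w).eval e)) * h7 + (B.eval e * D.eval e) * hm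
  have h9 : P ∣ D * A - C * B := by
    rw [hPe]
    refine (isUnit_C.mpr (isUnit_iff_ne_zero.mpr hk)).mul_left_dvd.mpr ?_
    rw [dvd_iff_isRoot, IsRoot.def]
    simp only [eval_sub, eval_mul, hA]
    simp only [Prm_ev] at h7
    linear_combination (-B.eval e) * h7
  obtain ⟨Q, hQ⟩ := h8
  obtain ⟨S, hS⟩ := h9
  refine ⟨Q, S, ?_⟩
  rw [← div_eq_mul_inv, div_eq_iff hα, hCD, Nor_pp_mul]
  have hP' := Prm_P hP
  have hP0 : P ≠ 0 := by
    intro h0
    rw [h0, natDegree_zero] at hd
    exact absurd hd (by norm_num)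
  congr 1
  · apply mul_left_cancel₀ hP0
    linear_combination (-C) * hP' + A * hQ + NN w t * B * hS
  · apply mul_left_cancel₀ hP0
    linear_combination (-D) * hP' + B * hQ + (A + TT w * B) * hS

/-- The norm of `α⁻¹` is `1/P`. -/
theorem not_InA_inv (hP : QuadraticAlgebra.norm (pp w t A B) = algebraMap K[X] (RatFunc K) P)
    (hd : P.natDegree = 1) : ¬ InA ((pp w t A B)⁻¹) := by
  rintro ⟨U, V, hUV⟩
  have hα := Prm_ne hP hd
  have h1 : (1 : EQ w t) = pp w t A B * pp w t U V := by
    rw [← hUV, mul_inv_cancel₀ hα]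
  have h2 := congrArg QuadraticAlgebra.norm h1
  rw [map_mul QuadraticAlgebra.norm, map_one, hP, Nor_norm, ← map_mul,
    ← map_one (algebraMap K[X] (RatFunc K))] at h2
  have h3 := RatFunc.algebraMap_injective K h2
  have h4 : IsUnit P := IsUnit.of_mul_eq_one _ h3.symm
  have h5 := natDegree_eq_zero_of_isUnit h4
  omega

/-- Proof: a monic factor of degree `0 < d < g` has a constant term `c` with `c^g = ± α^d` (product of `d` roots of
`Y^g = α` in a splitting field).  `c` is integral over `K[x]`, so in `A'`, and `c^g α⁻¹ = ± α^(d-1)` is in `A'`, so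
`c = α c₁`, `c₁` in `A'`, `± 1 = α^(g-d) c₁^g`, and `α⁻¹` is in `A'`, a contradiction. -/
theorem irred [IsAlgClosed K] (hG : Good w t)
    (hP : QuadraticAlgebra.norm (pp w t A B) = algebraMap K[X] (RatFunc K) P)
    (hd : P.natDegree = 1) {g : ℕ} (hg : 0 < g) :
    Irreducible (X ^ g - C (pp w t A B) : (EQ w t)[X]) := by
  have hα := Prm_ne hP hd
  set α := pp w t A B with hαd
  have hαA : InA α := ⟨A, B, rfl⟩
  set f : (EQ w t)[X] := X ^ g - C α with hf
  have hfm : f.Monic := monic_X_pow_sub_C α hg.ne'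
  have hfd : f.natDegree = g := natDegree_X_pow_sub_C
  obtain ⟨p, hp, hpf⟩ := exists_irreducible_of_natDegree_pos (f := f) (by omega)
  have : Fact (Irreducible p) := ⟨hp⟩
  have hdp : p.natDegree ≤ g := by
    rw [← hfd]
    exact natDegree_le_of_dvd hpf hfm.ne_zero
  have hr : (AdjoinRoot.root p) ^ g = algebraMap (EQ w t) (AdjoinRoot p) α := by
    obtain ⟨q, hq⟩ := hpf
    have h1 : aeval (AdjoinRoot.root p) f = 0 := by
      rw [hq, map_mul, AdjoinRoot.aeval_eq, AdjoinRoot.mk_self, zero_mul]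
    rw [hf, map_sub, map_pow, aeval_X, aeval_C, sub_eq_zero] at h1
    exact h1
  set N : EQ w t := Algebra.norm (EQ w t) (AdjoinRoot.root p) with hN
  have hfin : Module.finrank (EQ w t) (AdjoinRoot p) = p.natDegree := by
    rw [(AdjoinRoot.powerBasis hp.ne_zero).finrank, AdjoinRoot.powerBasis_dim]
  have hNg : N ^ g = α ^ p.natDegree := by
    rw [hN, ← map_pow, hr, Algebra.norm_algebraMap, hfin]
  have hNA : InA N := by
    rw [← isIntegral_iff hG]
    refine IsIntegral.of_pow hg ?_
    rw [hNg]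
    exact (Nor_isIntegral hαA).pow _
  have hdeg : p.natDegree = g := by
    by_contra hne
    have hlt : p.natDegree < g := lt_of_le_of_ne hdp hne
    have hpos : 0 < p.natDegree := hp.natDegree_pos
    have h1 : InA (N * α⁻¹) := by
      refine dvd_of_pow hP hd (n := g) hNA ?_
      have h2 : N ^ g * α⁻¹ = α ^ (p.natDegree - 1) := by
        rw [hNg]
        have h3 : α ^ p.natDegree = α ^ (p.natDegree - 1) * α := by
          rw [← pow_succ]
          congr 1
          omega
        rw [h3, mul_inv_cancel_right₀ hα]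
      rw [h2]
      exact Nor_pow hαA _
    apply not_InA_inv hP hd
    have h4 : α⁻¹ = α ^ (g - p.natDegree - 1) * (N * α⁻¹) ^ g := by
      rw [mul_pow, hNg, inv_pow]
      have h5 : α ^ g = α ^ (g - p.natDegree - 1) * α ^ p.natDegree * α := by
        rw [← pow_add, ← pow_succ]
        congr 1
        omega
      rw [← mul_assoc, h5, mul_inv, mul_inv_cancel_left₀]
      exact mul_ne_zero (pow_ne_zero _ hα) (pow_ne_zero _ hα)
    rw [h4]
    exact Nor_mul (Nor_pow hαA _) (Nor_pow h1 _)
  have hass : Associated p f := by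
    obtain ⟨q, hq⟩ := hpf
    have hq0 : q ≠ 0 := by
      rintro rfl
      rw [mul_zero] at hq
      exact hfm.ne_zero hq
    have h1 : q.natDegree = 0 := by
      have h2 := natDegree_mul hp.ne_zero hq0
      rw [← hq, hfd] at h2
      omega
    have h3 : IsUnit q := by
      rw [natDegree_eq_zero] at h1
      obtain ⟨c, rfl⟩ := h1
      rw [isUnit_C, isUnit_iff_ne_zero]
      rintro rfl
      exact hq0 C_0
    exact ⟨h3.unit, hq.symm⟩
  exact hass.irreducible hp

end Pool.Agent.GrE
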