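import Mathlib
import Pool.Agent.GrE.Eps
import Pool.Agent.GrE.Prm

/-!
The `a` for which `a^g α^j` is integral.
-/

set_option autoImplicit false

namespace Pool.Agent.GrE

open Polynomial Pool.Agent.GrS

variable {K : Type*} [Field K] {w t : K} [Fact (∀ r : RatFunc K, r ^ 2 ≠ Nf w t + Tf w * r)]
  {A B P : K[X]}

private theorem root_ne (hP : QuadraticAlgebra.norm (pp w t A B) = algebraMap K[X] (RatFunc K) P)
    (hd : P.natDegree = 1) : pp w t A B ≠ 0 := by
  intro h
  have hP0 : P ≠ 0 := fun h0 => by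
    rw [h0, natDegree_zero] at hd
    exact absurd hd (by norm_num)
  rw [h, QuadraticAlgebra.norm_zero] at hP
  have h2 := (map_eq_zero_iff (algebraMap K[X] (RatFunc K))
    (RatFunc.algebraMap_injective K)).1 hP.symm
  exact hP0 h2

/-- Proof (`→`): `(a α)^g = (a^g α^j) α^(g-j)` is integral, so `v = a α` is in `A'` (`isIntegral_iff`), and
`v^g α⁻¹ = (a^g α^j) α^(g-j-1)` is in `A'`, so `a = v α⁻¹` is (`dvd_of_pow`). -/
theorem root_fin [IsAlgClosed K] (hG : Good w t)
    (hP : QuadraticAlgebra.norm (pp w t A B) = algebraMap K[X] (RatFunc K) P)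
    (hd : P.natDegree = 1) {g j : ℕ} (hj : j < g) (a : EQ w t) :
    IsIntegral K[X] (a ^ g * pp w t A B ^ j) ↔ InA a := by
  have hα : IsIntegral K[X] (pp w t A B) := (isIntegral_iff hG _).2 ⟨A, B, rfl⟩
  have h0 := root_ne hP hd
  constructor
  · intro h
    obtain ⟨m, rfl⟩ := Nat.exists_eq_add_of_lt hj
    have e1 : (a * pp w t A B) ^ (j + m + 1) =
        a ^ (j + m + 1) * pp w t A B ^ j * pp w t A B ^ (m + 1) := by
      rw [mul_pow, mul_assoc, ← pow_add, add_assoc]
    have h1 : IsIntegral K[X] ((a * pp w t A B) ^ (j + m + 1)) := by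
      rw [e1]
      exact h.mul (hα.pow _)
    have h2 : IsIntegral K[X] (a * pp w t A B) := IsIntegral.of_pow (Nat.succ_pos _) h1
    have e2 : (a * pp w t A B) ^ (j + m + 1) * (pp w t A B)⁻¹ =
        a ^ (j + m + 1) * pp w t A B ^ j * pp w t A B ^ m := by
      rw [e1, pow_succ (pp w t A B) m]
      field_simp
    have h3 : InA ((a * pp w t A B) ^ (j + m + 1) * (pp w t A B)⁻¹) := by
      rw [e2]
      exact (isIntegral_iff hG _).1 (h.mul (hα.pow _))
    have h4 := dvd_of_pow hP hd ((isIntegral_iff hG _).1 h2) h3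
    rwa [mul_assoc, mul_inv_cancel₀ h0, mul_one] at h4
  · intro h
    exact (((isIntegral_iff hG _).2 h).pow _).mul (hα.pow _)

private theorem root_reg (hd : P.natDegree = 1) :
    (algebraMap K[X] (RatFunc K) P * (RatFunc.X : RatFunc K)⁻¹)⁻¹ ∈ regInf K := by
  have hP0 : P ≠ 0 := fun h0 => by
    rw [h0, natDegree_zero] at hd
    exact absurd hd (by norm_num)
  have h1 : algebraMap K[X] (RatFunc K) P ≠ 0 := by
    rw [Ne, map_eq_zero_iff (algebraMap K[X] (RatFunc K)) (RatFunc.algebraMap_injective K)]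
    exact hP0
  have h2 : (RatFunc.X : RatFunc K)⁻¹ ≠ 0 := inv_ne_zero RatFunc.X_ne_zero
  change RatFunc.intDegree _ ≤ 0
  rw [RatFunc.intDegree_inv, RatFunc.intDegree_mul h1 h2, RatFunc.intDegree_inv,
    RatFunc.intDegree_X, RatFunc.intDegree_polynomial, hd]
  norm_num

private theorem root_unit (hs : 1 + w ≠ 0)
    (hP : QuadraticAlgebra.norm (pp w t A B) = algebraMap K[X] (RatFunc K) P)
    (hd : P.natDegree = 1) {g : ℕ} (hU : InB (pp w t A B * (eps w t ^ (2 * g + 1) * xE w t ^ g))) :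
    InB ((pp w t A B * (eps w t ^ (2 * g + 1) * xE w t ^ g))⁻¹) := by
  set U := pp w t A B * (eps w t ^ (2 * g + 1) * xE w t ^ g) with hUd
  have hX : (RatFunc.X : RatFunc K) ≠ 0 := RatFunc.X_ne_zero
  have h1 : QuadraticAlgebra.norm U = (algebraMap K[X] (RatFunc K) P * (RatFunc.X : RatFunc K)⁻¹) *
      (QuadraticAlgebra.norm (eps w t) * RatFunc.X) ^ (2 * g + 1) := by
    have h2 : QuadraticAlgebra.norm (xE w t) = (RatFunc.X : RatFunc K) ^ 2 := by
      unfold xE
      exact QuadraticAlgebra.norm_algebraMap _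
    rw [hUd, map_mul, map_mul, map_pow, map_pow, hP, h2, mul_pow, ← pow_mul, pow_succ _ (2 * g),
      pow_succ (RatFunc.X : RatFunc K) (2 * g)]
    field_simp
  have h3 : (QuadraticAlgebra.norm U)⁻¹ ∈ regInf K := by
    rw [h1, mul_inv, ← inv_pow]
    exact mul_mem (root_reg hd) (pow_mem (norm_eps hs).2 _)
  have h4 : U⁻¹ = algebraMap (RatFunc K) (EQ w t) ((QuadraticAlgebra.norm U)⁻¹) * star U := by
    rw [← Algebra.smul_def]
    rfl
  rw [h4]
  exact (InB_of_regInf h3).mul hU.star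

/-- Proof: `U = α ε^(2g+1) x^g` is regular at infinity with norm `P x⁻¹ (N(ε) x)^(2g+1)` a unit of `regInf`, so `U` is
a unit.  For `j ≥ 1` and `b = a ε^(-2j) x^(-j)`: `b^g = (a^g α^j) U^(-j) ε^j`; so `a^g α^j` regular implies `b`
regular (integral, `isIntegral_inf_iff`) and `b^g ε⁻¹` regular, so `b ε⁻¹` regular (`eps_dvd`).  Conversely, `a = ε^(2j+1) x^j b` gives
`a^g α^j = b^g U^j ε^(g-j)`.  `j = 0`: `a^g` integral iff `a` integral. -/
theorem root_inf (hs : 1 + w ≠ 0)
    (hP : QuadraticAlgebra.norm (pp w t A B) = algebraMap K[X] (RatFunc K) P)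
    (hd : P.natDegree = 1) {g j : ℕ} (hL : InL g (pp w t A B)) (hj : j < g) (a : EQ w t) :
    IsIntegral (regInf K) (a ^ g * pp w t A B ^ j) ↔ InB (a * (gB w t j)⁻¹) := by
  have hg : g ≠ 0 := by omega
  have h0 := root_ne hP hd
  have he : eps w t ≠ 0 := eps_ne_zero
  have hx : xE w t ≠ 0 := xE_ne_zero
  have hU : InB (pp w t A B * (eps w t ^ (2 * g + 1) * xE w t ^ g)) := by
    have := hL.2
    unfold gB at this
    rwa [if_neg hg] at this
  have hU' := root_unit hs hP hd hU
  set α := pp w t A B with hα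
  set e := eps w t with hee
  set x := xE w t with hxx
  rcases Nat.eq_zero_or_pos j with hj0 | hj0
  · subst hj0
    have h1 : gB w t 0 = 1 := by
      unfold gB
      rw [if_pos rfl]
    rw [h1, inv_one, mul_one, pow_zero, mul_one]
    constructor
    · intro h
      exact (isIntegral_inf_iff a).1 (IsIntegral.of_pow (by omega) h)
    · intro h
      exact ((isIntegral_inf_iff a).2 h).pow g
  · obtain ⟨i, rfl⟩ : ∃ i, j = i + 1 := ⟨j - 1, by omega⟩
    obtain ⟨m, rfl⟩ := Nat.exists_eq_add_of_lt hj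
    have h1 : gB w t (i + 1) = e ^ (2 * (i + 1) + 1) * x ^ (i + 1) := by
      unfold gB
      rw [if_neg (Nat.succ_ne_zero i)]
    rw [h1]
    set U := α * (e ^ (2 * (i + 1 + m + 1) + 1) * x ^ (i + 1 + m + 1)) with hUd
    have hU0 : U ≠ 0 := mul_ne_zero h0 (mul_ne_zero (pow_ne_zero _ he) (pow_ne_zero _ hx))
    constructor
    · intro h
      have h2 := (isIntegral_inf_iff _).1 h
      set b := a * (e ^ (2 * (i + 1)) * x ^ (i + 1))⁻¹ with hb
      have e1 : b ^ (i + 1 + m + 1) * U ^ (i + 1) =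
          a ^ (i + 1 + m + 1) * α ^ (i + 1) * e ^ (i + 1) := by
        have e2 : a = b * (e ^ (2 * (i + 1)) * x ^ (i + 1)) := by
          rw [hb, inv_mul_cancel_right₀]
          exact mul_ne_zero (pow_ne_zero _ he) (pow_ne_zero _ hx)
        rw [e2, hUd]
        ring
      have e3 : b ^ (i + 1 + m + 1) = a ^ (i + 1 + m + 1) * α ^ (i + 1) * (U⁻¹) ^ (i + 1) *
          e ^ (i + 1) := by
        rw [inv_pow, ← mul_right_inj' (pow_ne_zero (i + 1) hU0), mul_comm (U ^ (i + 1)), e1]
        field_simp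
      have e4 : b ^ (i + 1 + m + 1) * e⁻¹ = a ^ (i + 1 + m + 1) * α ^ (i + 1) * (U⁻¹) ^ (i + 1) *
          e ^ i := by
        rw [e3, pow_succ e i]
        field_simp
      have h3 : InB (b ^ (i + 1 + m + 1)) := by
        rw [e3]
        exact (h2.mul (hU'.pow _)).mul (InB_eps.pow _)
      have h4 : InB b := (isIntegral_inf_iff b).1
        (IsIntegral.of_pow (Nat.succ_pos _) ((isIntegral_inf_iff _).2 h3))
      have h5 : InB (b ^ (i + 1 + m + 1) * e⁻¹) := by
        rw [e4]
        exact (h2.mul (hU'.pow _)).mul (InB_eps.pow _)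
      have h6 := eps_dvd hs h4 h5
      have e5 : a * (e ^ (2 * (i + 1) + 1) * x ^ (i + 1))⁻¹ = b * e⁻¹ := by
        rw [hb, pow_succ e (2 * (i + 1))]
        field_simp
      rw [e5]
      exact h6
    · intro h
      set c := a * (e ^ (2 * (i + 1) + 1) * x ^ (i + 1))⁻¹ with hc
      have e2 : a = c * (e ^ (2 * (i + 1) + 1) * x ^ (i + 1)) := by
        rw [hc, inv_mul_cancel_right₀]
        exact mul_ne_zero (pow_ne_zero _ he) (pow_ne_zero _ hx)
      have e3 : a ^ (i + 1 + m + 1) * α ^ (i + 1) = c ^ (i + 1 + m + 1) * U ^ (i + 1) *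
          e ^ (m + 1) := by
        rw [e2, hUd]
        ring
      rw [isIntegral_inf_iff, e3]
      exact ((h.pow _).mul (hU.pow _)).mul (InB_eps.pow _)

end Pool.Agent.GrE
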