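import Mathlib
import Pool.Agent.GrE.Defs

/-!
Traces from the function field of the curve of genus one, and the duals of `A' = K[x] + K[x] ν` and of the functions
regular at infinity.
-/

set_option autoImplicit false

namespace Pool.Agent.GrE

open Polynomial Pool.Agent.GrS

variable {K : Type*} [Field K] {w t : K}

theorem trace_eq (u : EQ w t) :
    Algebra.trace (RatFunc K) (EQ w t) u = 2 * u.re + Tf w * u.im := by
  rw [Algebra.trace_eq_matrix_trace (QuadraticAlgebra.basis (Nf w t) (Tf w)) u,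
    Matrix.trace_fin_two, Algebra.leftMulMatrix_eq_repr_mul, Algebra.leftMulMatrix_eq_repr_mul,
    QuadraticAlgebra.basis_repr_apply, QuadraticAlgebra.basis_repr_apply]
  have h0 : (QuadraticAlgebra.basis (Nf w t) (Tf w)) 0 = (⟨1, 0⟩ : EQ w t) := by
    apply (QuadraticAlgebra.basis (Nf w t) (Tf w)).repr.injective
    rw [Module.Basis.repr_self]
    ext i
    rw [QuadraticAlgebra.basis_repr_apply]
    fin_cases i <;> simp
  have h1 : (QuadraticAlgebra.basis (Nf w t) (Tf w)) 1 = (⟨0, 1⟩ : EQ w t) := by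
    apply (QuadraticAlgebra.basis (Nf w t) (Tf w)).repr.injective
    rw [Module.Basis.repr_self]
    ext i
    rw [QuadraticAlgebra.basis_repr_apply]
    fin_cases i <;> simp
  rw [h0, h1]
  simp only [QuadraticAlgebra.re_mul, QuadraticAlgebra.im_mul, Matrix.cons_val_zero,
    Matrix.cons_val_one]
  ring

/-- `Tr u = im (u W)`. -/
theorem trace_eq_im (u : EQ w t) :
    Algebra.trace (RatFunc K) (EQ w t) u = (u * WE w t).im := by
  rw [trace_eq, QuadraticAlgebra.im_mul, WE]
  ring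

theorem Tr_Tf_div_mem (w : K) : Tf w * (RatFunc.X ^ 2)⁻¹ ∈ regInf K := by
  have hX : (RatFunc.X : RatFunc K) ≠ 0 := RatFunc.X_ne_zero
  have h1 : (RatFunc.X : RatFunc K)⁻¹ ∈ regInf K := by
    show (RatFunc.X : RatFunc K)⁻¹.intDegree ≤ 0
    rw [RatFunc.intDegree_inv, RatFunc.intDegree_X]
    norm_num
  have h2 : Tf w * (RatFunc.X ^ 2)⁻¹ = 1 - algebraMap K (RatFunc K) (1 + w) * (RatFunc.X)⁻¹ := by
    rw [Tf, TT, map_mul, map_sub, RatFunc.algebraMap_X, RatFunc.algebraMap_C,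
      RatFunc.algebraMap_eq_C]
    field_simp
  rw [h2]
  exact (regInf K).sub_mem (regInf K).one_mem
    ((regInf K).mul_mem ((regInf K).algebraMap_mem _) h1)

/-- Proof: `Tr (f a) = im (f W a)`; take `a = 1`, `a = ν`. -/
theorem dual_fin (f : EQ w t) :
    (∀ a : EQ w t, InA a → Algebra.trace (RatFunc K) (EQ w t) (f * a) ∈
      (algebraMap K[X] (RatFunc K)).range) ↔ InA (f * WE w t) := by
  have htr : ∀ a : EQ w t, Algebra.trace (RatFunc K) (EQ w t) (f * a) =
      (f * WE w t).re * a.im + (f * WE w t).im * a.re + Tf w * (f * WE w t).im * a.im := by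
    intro a
    rw [trace_eq_im, mul_right_comm, QuadraticAlgebra.im_mul]
  constructor
  · intro h
    have h1 := h ⟨1, 0⟩ ⟨1, 0, by rw [pp, map_one, map_zero]⟩
    have h2 := h ⟨0, 1⟩ ⟨0, 1, by rw [pp, map_one, map_zero]⟩
    rw [htr] at h1 h2
    simp only [mul_one, mul_zero, add_zero, zero_add] at h1 h2
    obtain ⟨B, hB⟩ := h1
    have h3 : (f * WE w t).re ∈ (algebraMap K[X] (RatFunc K)).range := by
      have h4 : (f * WE w t).re = ((f * WE w t).re + Tf w * (f * WE w t).im) -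
          algebraMap K[X] (RatFunc K) (TT w * B) := by
        rw [map_mul, hB]
        show _ = _ - Tf w * _
        ring
      rw [h4]
      exact Subring.sub_mem _ h2 ⟨_, rfl⟩
    obtain ⟨A, hA⟩ := h3
    refine ⟨A, B, ?_⟩
    rw [pp, hA, hB]
  · rintro ⟨A, B, h⟩ a ⟨C', D, rfl⟩
    rw [htr, h]
    refine ⟨A * D + B * C' + TT w * B * D, ?_⟩
    simp only [pp, map_add, map_mul, Tf]

/-- Proof: `Tr (f a) = im (f W a)`; take `a = 1`, `a = ν / x²`. -/
theorem dual_inf (f : EQ w t) :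
    (∀ a : EQ w t, InB a → RatFunc.X ^ 2 * Algebra.trace (RatFunc K) (EQ w t) (f * a) ∈ regInf K) ↔
      InB (f * WE w t) := by
  have hX : (RatFunc.X : RatFunc K) ≠ 0 := RatFunc.X_ne_zero
  have htr : ∀ a : EQ w t, Algebra.trace (RatFunc K) (EQ w t) (f * a) =
      (f * WE w t).re * a.im + (f * WE w t).im * a.re + Tf w * (f * WE w t).im * a.im := by
    intro a
    rw [trace_eq_im, mul_right_comm, QuadraticAlgebra.im_mul]
  have hT := Tr_Tf_div_mem w
  constructor
  · intro h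
    have h1 := h ⟨1, 0⟩ ⟨(regInf K).one_mem, by rw [mul_zero]; exact (regInf K).zero_mem⟩
    have h2 := h ⟨0, (RatFunc.X ^ 2)⁻¹⟩ ⟨(regInf K).zero_mem, by
      rw [mul_inv_cancel₀ (pow_ne_zero 2 hX)]; exact (regInf K).one_mem⟩
    rw [htr] at h1 h2
    simp only [mul_one, mul_zero, add_zero, zero_add] at h1 h2
    refine ⟨?_, h1⟩
    have h3 : (f * WE w t).re = RatFunc.X ^ 2 * ((f * WE w t).re * (RatFunc.X ^ 2)⁻¹ +
        Tf w * (f * WE w t).im * (RatFunc.X ^ 2)⁻¹) -
        (Tf w * (RatFunc.X ^ 2)⁻¹) * (RatFunc.X ^ 2 * (f * WE w t).im) := by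
      field_simp
      ring
    rw [h3]
    exact (regInf K).sub_mem h2 ((regInf K).mul_mem hT h1)
  · rintro ⟨h1, h2⟩ a ⟨h3, h4⟩
    rw [htr]
    have h5 : RatFunc.X ^ 2 * ((f * WE w t).re * a.im + (f * WE w t).im * a.re +
        Tf w * (f * WE w t).im * a.im) =
        (f * WE w t).re * (RatFunc.X ^ 2 * a.im) + (RatFunc.X ^ 2 * (f * WE w t).im) * a.re +
        (Tf w * (RatFunc.X ^ 2)⁻¹) * (RatFunc.X ^ 2 * (f * WE w t).im) *
          (RatFunc.X ^ 2 * a.im) := by
      field_simp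
    rw [h5]
    exact (regInf K).add_mem ((regInf K).add_mem ((regInf K).mul_mem h1 h4)
      ((regInf K).mul_mem h2 h3)) ((regInf K).mul_mem ((regInf K).mul_mem hT h2) h4)

end Pool.Agent.GrE
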