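import Mathlib
import Pool.Agent.GrE.Kum
import Pool.Agent.GrE.Root
import Pool.Agent.GrE.Tr

/-!
The regular differentials of the curve `y^g = α` over the curve of genus one: the two charts.
-/

set_option autoImplicit false

namespace Pool.Agent.GrE

open Polynomial Pool.Agent.GrS

section

variable {K : Type*} [Field K] {w t : K} [Fact (∀ r : RatFunc K, r ^ 2 ≠ Nf w t + Tf w * r)]
  {E : Type*} [Field E] [Algebra (EQ w t) E] [Algebra K E] [Algebra K[X] E] [Algebra (RatFunc K) E]
  [IsScalarTower K (EQ w t) E] [IsScalarTower K[X] (EQ w t) E]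
  [IsScalarTower (RatFunc K) (EQ w t) E]
  {A B P : K[X]} {g : ℕ}

/-- `∑ f_j y^(-j)`. -/
noncomputable def elt (k : Kum (EQ w t) E g (pp w t A B)) (f : Fin g → EQ w t) : E :=
  ∑ j, algebraMap (EQ w t) E (f j) * (k.t ^ (j : ℕ))⁻¹

omit [Algebra K E] [Algebra K[X] E] [Algebra (RatFunc K) E]
  [IsScalarTower K (EQ w t) E] [IsScalarTower K[X] (EQ w t) E]
  [IsScalarTower (RatFunc K) (EQ w t) E] in
private lemma HKa_pos (k : Kum (EQ w t) E g (pp w t A B)) : 0 < g := by
  rcases Nat.eq_zero_or_pos g with h | h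
  · exfalso
    subst h
    exact k.b.index_nonempty.elim (fun i => i.elim0)
  · exact h

omit [Algebra K E] [Algebra K[X] E] [Algebra (RatFunc K) E]
  [IsScalarTower K (EQ w t) E] [IsScalarTower K[X] (EQ w t) E]
  [IsScalarTower (RatFunc K) (EQ w t) E] in
private lemma HKa_t_ne (k : Kum (EQ w t) E g (pp w t A B)) : k.t ≠ 0 := by
  intro h
  have h1 := k.ht
  rw [h, zero_pow (HKa_pos k).ne'] at h1
  exact k.hf ((map_eq_zero _).mp h1.symm)

omit [Algebra K E] [Algebra K[X] E] [Algebra (RatFunc K) E]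
  [IsScalarTower K (EQ w t) E] [IsScalarTower K[X] (EQ w t) E]
  [IsScalarTower (RatFunc K) (EQ w t) E] in
private lemma HKa_mul (k : Kum (EQ w t) E g (pp w t A B)) (f : Fin g → EQ w t) :
    elt k f * k.t ^ (g - 1) = ∑ i, f (Fin.rev i) • k.b i := by
  rw [elt, Finset.sum_mul, ← Equiv.sum_comp Fin.revPerm]
  refine Finset.sum_congr rfl fun i _ => ?_
  rw [k.hb, Algebra.smul_def, Fin.revPerm_apply, mul_assoc]
  congr 1
  have h1 : g - 1 = ((Fin.rev i : Fin g) : ℕ) + (i : ℕ) := by
    rw [Fin.val_rev]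
    omega
  rw [h1, pow_add, ← mul_assoc, inv_mul_cancel₀ (pow_ne_zero _ (HKa_t_ne k)), one_mul]

omit [Algebra K E] [Algebra K[X] E] [Algebra (RatFunc K) E]
  [IsScalarTower K (EQ w t) E] [IsScalarTower K[X] (EQ w t) E]
  [IsScalarTower (RatFunc K) (EQ w t) E] in
/-- `y^(-j) = y^(g-j) / α`, so the `y^(-j)`, `j < g`, are a basis. -/
theorem exists_elt (k : Kum (EQ w t) E g (pp w t A B)) (e : E) : ∃ f, e = elt k f := by
  refine ⟨fun j => k.b.equivFun (e * k.t ^ (g - 1)) (Fin.rev j), ?_⟩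
  apply mul_right_cancel₀ (pow_ne_zero (g - 1) (HKa_t_ne k))
  rw [HKa_mul]
  simp only [Fin.rev_rev]
  exact (k.b.sum_equivFun _).symm

omit [Algebra K E] [Algebra K[X] E] [Algebra (RatFunc K) E]
  [IsScalarTower K (EQ w t) E] [IsScalarTower K[X] (EQ w t) E]
  [IsScalarTower (RatFunc K) (EQ w t) E] in
theorem elt_injective (k : Kum (EQ w t) E g (pp w t A B)) : Function.Injective (elt k) := by
  intro f f' h
  have h1 : ∑ i, f (Fin.rev i) • k.b i = ∑ i, f' (Fin.rev i) • k.b i := by
    rw [← HKa_mul, ← HKa_mul, h]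
  rw [← k.b.equivFun_symm_apply (fun i => f (Fin.rev i)),
    ← k.b.equivFun_symm_apply (fun i => f' (Fin.rev i))] at h1
  have h2 := k.b.equivFun.symm.injective h1
  funext i
  have h3 := congrFun h2 (Fin.rev i)
  simpa only [Fin.rev_rev] using h3

omit [Algebra K E] [Algebra K[X] E] [Algebra (RatFunc K) E]
  [IsScalarTower K (EQ w t) E] [IsScalarTower K[X] (EQ w t) E]
  [IsScalarTower (RatFunc K) (EQ w t) E] in
private lemma HKa_tr (k : Kum (EQ w t) E g (pp w t A B)) (c : EQ w t) (j i : Fin g) :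
    Algebra.trace (EQ w t) E (algebraMap (EQ w t) E c * ((k.t ^ (j : ℕ))⁻¹ * k.t ^ (i : ℕ))) =
      if i = j then (g : EQ w t) * c else 0 := by
  have hy := HKa_t_ne k
  rcases lt_trichotomy (i : ℕ) (j : ℕ) with h | h | h
  · rw [if_neg (by
      intro h1
      rw [h1] at h
      exact lt_irrefl _ h)]
    have h1 : algebraMap (EQ w t) E c * ((k.t ^ (j : ℕ))⁻¹ * k.t ^ (i : ℕ)) =
        algebraMap (EQ w t) E (c * (pp w t A B)⁻¹) * k.t ^ (g + (i : ℕ) - (j : ℕ)) := by
      rw [map_mul, map_inv₀, ← k.ht, mul_assoc]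
      congr 1
      rw [inv_mul_eq_iff_eq_mul₀ (pow_ne_zero _ hy), mul_left_comm, ← pow_add,
        eq_inv_mul_iff_mul_eq₀ (pow_ne_zero _ hy), ← pow_add]
      congr 1
      have := i.2
      have := j.2
      omega
    rw [h1]
    exact k.trace_pow _ (by have := j.2; omega) (by omega)
  · rw [if_pos (Fin.ext h)]
    have h1 : algebraMap (EQ w t) E c * ((k.t ^ (j : ℕ))⁻¹ * k.t ^ (i : ℕ)) =
        algebraMap (EQ w t) E c := by
      rw [h, inv_mul_cancel₀ (pow_ne_zero _ hy), mul_one]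
    rw [h1]
    exact k.trace_one _
  · rw [if_neg (by
      intro h1
      rw [h1] at h
      exact lt_irrefl _ h)]
    have h1 : algebraMap (EQ w t) E c * ((k.t ^ (j : ℕ))⁻¹ * k.t ^ (i : ℕ)) =
        algebraMap (EQ w t) E c * k.t ^ ((i : ℕ) - (j : ℕ)) := by
      congr 1
      rw [inv_mul_eq_iff_eq_mul₀ (pow_ne_zero _ hy), ← pow_add]
      congr 1
      omega
    rw [h1]
    exact k.trace_pow _ (by omega) (by have := i.2; omega)

omit [Algebra K E] [Algebra K[X] E] [IsScalarTower K (EQ w t) E] [IsScalarTower K[X] (EQ w t) E] in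
/-- `Tr((∑ f_j y^(-j)) (∑ a_i y^i)) = g Tr(∑ f_j a_j)`, where the traces are to `K(x)`.  Use `Algebra.trace_trace`,
`Kum.trace_pow`, `Kum.trace_one` (for `i < j`: `y^(i-j) = α⁻¹ y^(g+i-j)`). -/
theorem trace_elt (k : Kum (EQ w t) E g (pp w t A B)) (f a : Fin g → EQ w t) :
    Algebra.trace (RatFunc K) E (elt k f * ∑ i, algebraMap (EQ w t) E (a i) * k.t ^ (i : ℕ)) =
      (g : RatFunc K) * Algebra.trace (RatFunc K) (EQ w t) (∑ j, f j * a j) := by
  have : Module.Finite (EQ w t) E := Module.Finite.of_basis k.b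
  rw [← Algebra.trace_trace (S := EQ w t)]
  have h1 : elt k f * ∑ i, algebraMap (EQ w t) E (a i) * k.t ^ (i : ℕ) =
      ∑ j, ∑ i, algebraMap (EQ w t) E (f j * a i) * ((k.t ^ (j : ℕ))⁻¹ * k.t ^ (i : ℕ)) := by
    rw [elt, Finset.sum_mul_sum]
    refine Finset.sum_congr rfl fun j _ => Finset.sum_congr rfl fun i _ => ?_
    rw [map_mul]
    ring
  have h2 : Algebra.trace (EQ w t) E
      (elt k f * ∑ i, algebraMap (EQ w t) E (a i) * k.t ^ (i : ℕ)) =
      (g : RatFunc K) • ∑ j, f j * a j := by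
    rw [h1, map_sum, Algebra.smul_def, map_natCast, Finset.mul_sum]
    refine Finset.sum_congr rfl fun j _ => ?_
    rw [map_sum]
    simp only [HKa_tr]
    rw [Finset.sum_ite_eq' Finset.univ j (fun i => (g : EQ w t) * (f j * a i)),
      if_pos (Finset.mem_univ j)]
  rw [h2, map_smul, smul_eq_mul]

omit [Algebra K E] [Algebra K[X] E] [Algebra (RatFunc K) E]
  [IsScalarTower K (EQ w t) E] [IsScalarTower K[X] (EQ w t) E]
  [IsScalarTower (RatFunc K) (EQ w t) E] in
private lemma HKa_single (k : Kum (EQ w t) E g (pp w t A B)) (j : Fin g) (a : EQ w t) :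
    algebraMap (EQ w t) E a * k.t ^ (j : ℕ) =
      ∑ i, algebraMap (EQ w t) E ((Pi.single j a : Fin g → EQ w t) i) * k.t ^ (i : ℕ) := by
  rw [Finset.sum_eq_single j]
  · rw [Pi.single_eq_same]
  · intro i _ hi
    rw [Pi.single_eq_of_ne hi, map_zero, zero_mul]
  · intro h
    exact absurd (Finset.mem_univ j) h

omit [Algebra K E] [Algebra K[X] E] [IsScalarTower K (EQ w t) E] [IsScalarTower K[X] (EQ w t) E] in
private lemma HKa_trace_single (k : Kum (EQ w t) E g (pp w t A B)) (f : Fin g → EQ w t)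
    (j : Fin g) (a : EQ w t) :
    Algebra.trace (RatFunc K) E (elt k f * (algebraMap (EQ w t) E a * k.t ^ (j : ℕ))) =
      (g : RatFunc K) * Algebra.trace (RatFunc K) (EQ w t) (f j * a) := by
  rw [HKa_single, trace_elt]
  congr 2
  rw [Finset.sum_eq_single j]
  · rw [Pi.single_eq_same]
  · intro i _ hi
    rw [Pi.single_eq_of_ne hi, mul_zero]
  · intro h
    exact absurd (Finset.mem_univ j) h

omit [Algebra K E] [Algebra K[X] E] [Algebra (RatFunc K) E]
  [IsScalarTower K (EQ w t) E] [IsScalarTower K[X] (EQ w t) E]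
  [IsScalarTower (RatFunc K) (EQ w t) E] in
private lemma HKa_coord (k : Kum (EQ w t) E g (pp w t A B)) (e : E) :
    ∃ a : Fin g → EQ w t, e = ∑ i, algebraMap (EQ w t) E (a i) * k.t ^ (i : ℕ) := by
  refine ⟨k.b.equivFun e, ?_⟩
  conv_lhs => rw [← k.b.sum_equivFun e]
  refine Finset.sum_congr rfl fun i _ => ?_
  rw [k.hb, Algebra.smul_def]

private lemma HKa_root [IsAlgClosed K] (hg : (g : K) ≠ 0) : ∃ ζ : K, IsPrimitiveRoot ζ g := by
  have : NeZero (g : K) := ⟨hg⟩
  exact HasEnoughRootsOfUnity.exists_primitiveRoot K g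

/-- Proof: by `Kum.graded`, `Kum.integral_iff`, `root_fin` the elements integral over `K[x]` are the `∑ a_i y^i` with
`a_i` in `A'`; `trace_elt`, `dual_fin`. -/
theorem mem_omFin [IsAlgClosed K] (hG : Good w t)
    (hP : QuadraticAlgebra.norm (pp w t A B) = algebraMap K[X] (RatFunc K) P)
    (hd : P.natDegree = 1) (hg : (g : K) ≠ 0)
    (k : Kum (EQ w t) E g (pp w t A B)) (f : Fin g → EQ w t) :
    elt k f ∈ omFin K E ↔ ∀ j, InA (f j * WE w t) := by
  have hg0 := HKa_pos k
  have hgR : (g : RatFunc K) = algebraMap K[X] (RatFunc K) (C (g : K)) := by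
    rw [map_natCast, map_natCast]
  have hgi : algebraMap K[X] (RatFunc K) (C (g : K)⁻¹) * (g : RatFunc K) = 1 := by
    rw [hgR, ← map_mul, ← C_mul, inv_mul_cancel₀ hg, C_1, map_one]
  have hKE : IsScalarTower K K[X] E := by
    refine IsScalarTower.of_algebraMap_eq fun c => ?_
    rw [IsScalarTower.algebraMap_apply K (EQ w t) E, IsScalarTower.algebraMap_apply K[X] (EQ w t) E,
      IsScalarTower.algebraMap_apply K K[X] (EQ w t)]
  constructor
  · intro h j
    rw [← dual_fin]
    intro a ha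
    have h1 : IsIntegral K[X] (algebraMap (EQ w t) E a * k.t ^ (j : ℕ)) := by
      rw [k.integral_iff hg0, mul_comm, root_fin hG hP hd j.2]
      exact ha
    have h2 := h _ h1
    rw [HKa_trace_single] at h2
    have h3 : Algebra.trace (RatFunc K) (EQ w t) (f j * a) =
        algebraMap K[X] (RatFunc K) (C (g : K)⁻¹) *
          ((g : RatFunc K) * Algebra.trace (RatFunc K) (EQ w t) (f j * a)) := by
      rw [← mul_assoc, hgi, one_mul]
    rw [h3]
    exact Subring.mul_mem _ ⟨_, rfl⟩ h2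
  · intro h e he
    obtain ⟨ζ, hζ⟩ := HKa_root (K := K) hg
    obtain ⟨a, rfl⟩ := HKa_coord k e
    rw [trace_elt, map_sum, hgR]
    refine Subring.mul_mem _ ⟨_, rfl⟩ (Subring.sum_mem _ fun j _ => ?_)
    have h1 := k.graded hζ hg a he j
    rw [k.integral_iff hg0, mul_comm, root_fin hG hP hd j.2] at h1
    exact (dual_fin (f j)).mpr (h j) (a j) h1

/-- Proof: the elements integral over `regInf` are the `∑ a_i y^i` with `a_i / gB i` regular at infinity (`root_inf`);
`trace_elt`, `dual_inf`. -/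
theorem mem_omInf [IsAlgClosed K] (hG : Good w t)
    (hP : QuadraticAlgebra.norm (pp w t A B) = algebraMap K[X] (RatFunc K) P)
    (hd : P.natDegree = 1) (hg : (g : K) ≠ 0) (hL : InL g (pp w t A B))
    (k : Kum (EQ w t) E g (pp w t A B)) (f : Fin g → EQ w t) :
    elt k f ∈ omInf K E ↔ ∀ j : Fin g, InB (f j * WE w t * gB w t j) := by
  have hg0 := HKa_pos k
  have hgR : (g : RatFunc K) = algebraMap K (RatFunc K) (g : K) := by
    rw [map_natCast]
  have hgi : algebraMap K (RatFunc K) (g : K)⁻¹ * (g : RatFunc K) = 1 := by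
    rw [hgR, ← map_mul, inv_mul_cancel₀ hg, map_one]
  have hTower : IsScalarTower (regInf K) (EQ w t) E := by
    refine IsScalarTower.of_algebraMap_eq fun c => ?_
    exact IsScalarTower.algebraMap_apply (RatFunc K) (EQ w t) E (c : RatFunc K)
  have hKE : IsScalarTower K (regInf K) E := by
    refine IsScalarTower.of_algebraMap_eq fun c => ?_
    have h1 : algebraMap (regInf K) E (algebraMap K (regInf K) c) =
        algebraMap (RatFunc K) E (algebraMap K (RatFunc K) c) := rfl
    rw [h1, IsScalarTower.algebraMap_apply (RatFunc K) (EQ w t) E,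
      IsScalarTower.algebraMap_apply K (EQ w t) E,
      IsScalarTower.algebraMap_apply K (RatFunc K) (EQ w t)]
  have hgB : ∀ j : ℕ, gB w t j ≠ 0 := by
    intro j
    rw [gB]
    split_ifs
    · exact one_ne_zero
    · exact mul_ne_zero (pow_ne_zero _ eps_ne_zero) (pow_ne_zero _ xE_ne_zero)
  constructor
  · intro h j
    have h0 : f j * WE w t * gB w t j = (f j * gB w t j) * WE w t := by ring
    rw [h0, ← dual_inf]
    intro b hb
    have h1 : IsIntegral (regInf K) (algebraMap (EQ w t) E (gB w t j * b) * k.t ^ (j : ℕ)) := by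
      rw [k.integral_iff hg0, mul_comm, root_inf hG.s_ne hP hd hL j.2]
      have h2 : gB w t j * b * (gB w t j)⁻¹ = b := by
        rw [mul_comm (gB w t j) b, mul_assoc, mul_inv_cancel₀ (hgB j), mul_one]
      rw [h2]
      exact hb
    have h2 := h _ h1
    rw [HKa_trace_single] at h2
    have h3 : RatFunc.X ^ 2 * Algebra.trace (RatFunc K) (EQ w t) (f j * gB w t j * b) =
        algebraMap K (RatFunc K) (g : K)⁻¹ * (RatFunc.X ^ 2 *
          ((g : RatFunc K) * Algebra.trace (RatFunc K) (EQ w t) (f j * (gB w t j * b)))) := by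
      rw [mul_assoc (f j)]
      linear_combination (-(RatFunc.X ^ 2 *
        Algebra.trace (RatFunc K) (EQ w t) (f j * (gB w t j * b)))) * hgi
    rw [h3]
    exact (regInf K).mul_mem ((regInf K).algebraMap_mem _) h2
  · intro h e he
    obtain ⟨ζ, hζ⟩ := HKa_root (K := K) hg
    obtain ⟨a, rfl⟩ := HKa_coord k e
    rw [trace_elt, map_sum, hgR, mul_left_comm, Finset.mul_sum]
    refine (regInf K).mul_mem ((regInf K).algebraMap_mem _) ((regInf K).sum_mem fun j _ => ?_)
    have h1 := k.graded hζ hg a he j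
    rw [k.integral_iff hg0, mul_comm, root_inf hG.s_ne hP hd hL j.2] at h1
    have h2 : f j * a j = f j * gB w t j * (a j * (gB w t j)⁻¹) := by
      field_simp [hgB j]
    rw [h2]
    refine (dual_inf (f j * gB w t j)).mpr ?_ _ h1
    have h3 : f j * gB w t j * WE w t = f j * WE w t * gB w t j := by ring
    rw [h3]
    exact h j

end

end Pool.Agent.GrE
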