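import Mathlib
import Pool.Agent.GrE.Eps

/-!
`dim L_j ≤ 1` and the norms of the elements of `L_j`.
-/

set_option autoImplicit false

namespace Pool.Agent.GrE

open Polynomial Pool.Agent.GrS

section

variable {K : Type*} [Field K]

/-- A polynomial times `x⁻¹` which is regular at infinity has degree at most one. -/
private lemma deg_le_one {P : K[X]}
    (h : algebraMap K[X] (RatFunc K) P * RatFunc.X⁻¹ ∈ regInf K) : P.natDegree ≤ 1 := by
  by_cases hP : P = 0
  · simp [hP]
  · have h1 : (algebraMap K[X] (RatFunc K) P) ≠ 0 := by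
      simpa using hP
    have h2 : (algebraMap K[X] (RatFunc K) P * RatFunc.X⁻¹).intDegree ≤ 0 := h
    rw [RatFunc.intDegree_mul h1 (inv_ne_zero RatFunc.X_ne_zero), RatFunc.intDegree_inv,
      RatFunc.intDegree_X, RatFunc.intDegree_polynomial] at h2
    omega

private lemma eq_zero_of_X {Q : K[X]}
    (h : RatFunc.X * algebraMap K[X] (RatFunc K) Q ∈ regInf K) : Q = 0 := by
  by_contra hQ
  have h1 : (algebraMap K[X] (RatFunc K) Q) ≠ 0 := by
    simpa using hQ
  have h2 : (RatFunc.X * algebraMap K[X] (RatFunc K) Q).intDegree ≤ 0 := h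
  rw [RatFunc.intDegree_mul RatFunc.X_ne_zero h1, RatFunc.intDegree_X,
    RatFunc.intDegree_polynomial] at h2
  omega

private lemma deg_zero {P : K[X]}
    (h : algebraMap K[X] (RatFunc K) P ∈ regInf K) : P.natDegree = 0 := by
  have h2 : (algebraMap K[X] (RatFunc K) P).intDegree ≤ 0 := h
  rw [RatFunc.intDegree_polynomial] at h2
  omega

private lemma poly_sq {P Q S : K[X]} (_hP : P.natDegree ≤ 1) (hQ : Q.natDegree ≤ 1)
    (hS : S.natDegree ≤ 1) (hQ0 : Q ≠ 0) (h : P ^ 2 = S * Q) : ∃ c : K, P = C c * Q := by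
  by_cases hP0 : P = 0
  · exact ⟨0, by simp [hP0]⟩
  have hS0 : S ≠ 0 := by
    rintro rfl
    rw [zero_mul] at h
    exact hP0 (pow_eq_zero_iff (two_ne_zero) |>.1 h)
  have hdeg := congrArg natDegree h
  rw [natDegree_pow, natDegree_mul hS0 hQ0] at hdeg
  rcases Nat.lt_or_ge 0 Q.natDegree with h1 | h1
  · -- degree one: Q divides P
    have hQ1 : Q.natDegree = 1 := by omega
    have hirr : Irreducible Q := by
      apply Polynomial.irreducible_of_degree_eq_one
      rw [Polynomial.degree_eq_natDegree hQ0, hQ1]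
      rfl
    have hdvd : Q ∣ P := by
      have : Q ∣ P ^ 2 := ⟨S, by rw [h, mul_comm]⟩
      exact hirr.prime.dvd_of_dvd_pow this
    obtain ⟨R, hR⟩ := hdvd
    have hR0 : R ≠ 0 := by
      rintro rfl
      exact hP0 (by rw [hR, mul_zero])
    have h2 : R.natDegree = 0 := by
      have h3 := congrArg natDegree hR
      rw [natDegree_mul hQ0 hR0] at h3
      omega
    obtain ⟨c, hc⟩ := Polynomial.natDegree_eq_zero.1 h2
    exact ⟨c, by rw [hR, ← hc, mul_comm]⟩
  · have hQ1 : Q.natDegree = 0 := by omega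
    have hP1 : P.natDegree = 0 := by omega
    obtain ⟨q, hq⟩ := Polynomial.natDegree_eq_zero.1 hQ1
    obtain ⟨p, hp⟩ := Polynomial.natDegree_eq_zero.1 hP1
    have hq0 : q ≠ 0 := by
      rintro rfl
      exact hQ0 (by rw [← hq, C_0])
    refine ⟨p * q⁻¹, ?_⟩
    rw [← hp, ← hq, ← C_mul, mul_assoc, inv_mul_cancel₀ hq0, mul_one]

private lemma InA_mul {w t : K} {u v : EQ w t} (hu : InA u) (hv : InA v) : InA (u * v) := by
  obtain ⟨A, B, rfl⟩ := hu
  obtain ⟨C, D, rfl⟩ := hv
  refine ⟨A * C + NN w t * B * D, A * D + B * C + TT w * B * D, ?_⟩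
  ext
  · rw [QuadraticAlgebra.re_mul]
    simp only [pp, map_add, map_mul]
    rfl
  · rw [QuadraticAlgebra.im_mul]
    simp only [pp, map_add, map_mul]
    rfl

private lemma InA_star {w t : K} {u : EQ w t} (hu : InA u) : InA (star u) := by
  obtain ⟨A, B, rfl⟩ := hu
  refine ⟨A + TT w * B, -B, ?_⟩
  ext
  · rw [QuadraticAlgebra.re_star]
    simp only [pp, map_add, map_mul]
    rfl
  · rw [QuadraticAlgebra.im_star]
    simp only [pp, map_neg]

end

variable {K : Type*} [Field K] {w t : K} [Fact (∀ r : RatFunc K, r ^ 2 ≠ Nf w t + Tf w * r)]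

/-- Proof: `star (u' ε^(2j+1) x^j)` and `u ε^(2j+1) x^j` are regular at infinity, `ε star ε x` is a unit, so
`u star u' x⁻¹ = P/x + (Q/x) ν` is regular at infinity and `P`, `Q` are polynomials: `Q = 0`, `deg P ≤ 1`.  (`j = 0`: both are
constants.) -/
theorem mul_star_L (hs : 1 + w ≠ 0) {j : ℕ} {u u' : EQ w t} (hu : InL j u) (hu' : InL j u') :
    ∃ P : K[X], P.natDegree ≤ 1 ∧ u * star u' = algebraMap (RatFunc K) (EQ w t)
      (algebraMap K[X] (RatFunc K) P) := by
  obtain ⟨P, Q, hPQ⟩ := InA_mul hu.1 (InA_star hu'.1)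
  have key : InB (u * star u' * algebraMap (RatFunc K) (EQ w t) RatFunc.X⁻¹) := by
    rcases Nat.eq_zero_or_pos j with hj | hj
    · subst hj
      have h1 : InB u := by simpa [gB] using hu.2
      have h2 : InB u' := by simpa [gB] using hu'.2
      refine (h1.mul h2.star).mul (InB_of_regInf ?_)
      change (RatFunc.X⁻¹ : RatFunc K).intDegree ≤ 0
      rw [RatFunc.intDegree_inv, RatFunc.intDegree_X]
      omega
    · have hg : gB w t j = eps w t ^ (2 * j + 1) * xE w t ^ j := by
        unfold gB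
        rw [if_neg (by omega)]
      have h1 := hu.2.mul hu'.2.star
      obtain ⟨hn1, hn2⟩ := norm_eps (w := w) (t := t) hs
      have h3 := h1.mul ((InB_of_regInf (w := w) (t := t) hn2).pow (2 * j + 1))
      convert h3 using 1
      have hsx : star (xE w t) = xE w t := by
        unfold xE
        ext <;> simp
      have hse : eps w t * star (eps w t) =
          algebraMap (RatFunc K) (EQ w t) (QuadraticAlgebra.norm (eps w t)) :=
        (QuadraticAlgebra.algebraMap_norm_eq_mul_star _).symm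
      have hne : QuadraticAlgebra.norm (eps w t) ≠ 0 := by
        rw [Ne, QuadraticAlgebra.norm_eq_zero_iff_eq_zero]
        exact eps_ne_zero
      rw [hg, star_mul, star_mul, star_pow, star_pow, hsx]
      have e1 : u * (eps w t ^ (2 * j + 1) * xE w t ^ j) *
          (xE w t ^ j * star (eps w t) ^ (2 * j + 1) * star u') =
          u * star u' * (eps w t * star (eps w t)) ^ (2 * j + 1) * xE w t ^ (2 * j) := by
        rw [mul_pow]
        ring
      have hX : (RatFunc.X : RatFunc K) ≠ 0 := RatFunc.X_ne_zero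
      have e2 : (RatFunc.X : RatFunc K)⁻¹ = QuadraticAlgebra.norm (eps w t) ^ (2 * j + 1) *
          RatFunc.X ^ (2 * j) * (QuadraticAlgebra.norm (eps w t) * RatFunc.X)⁻¹ ^ (2 * j + 1) := by
        rw [inv_pow, mul_pow, pow_succ RatFunc.X (2 * j)]
        field_simp
      rw [e1, hse, e2]
      unfold xE
      rw [map_mul, map_mul, map_pow, map_pow, map_pow]
      ring
  rw [hPQ] at key
  have k1 : algebraMap K[X] (RatFunc K) P * RatFunc.X⁻¹ ∈ regInf K := by
    have := key.1
    simpa only [pp, QuadraticAlgebra.re_mul, QuadraticAlgebra.algebraMap_re,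
      QuadraticAlgebra.algebraMap_im, mul_zero, add_zero] using this
  have k2 : RatFunc.X * algebraMap K[X] (RatFunc K) Q ∈ regInf K := by
    have := key.2
    have hX : (RatFunc.X : RatFunc K) ≠ 0 := RatFunc.X_ne_zero
    have e : RatFunc.X ^ 2 * (pp w t P Q * algebraMap (RatFunc K) (EQ w t) RatFunc.X⁻¹).im =
        RatFunc.X * algebraMap K[X] (RatFunc K) Q := by
      simp only [pp, QuadraticAlgebra.im_mul, QuadraticAlgebra.algebraMap_re,
        QuadraticAlgebra.algebraMap_im, mul_zero, add_zero, zero_add]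
      field_simp
    rwa [e] at this
  have hQ := eq_zero_of_X k2
  refine ⟨P, deg_le_one k1, ?_⟩
  rw [hPQ, hQ]
  ext <;> simp [pp]

theorem norm_L (hs : 1 + w ≠ 0) {j : ℕ} {u : EQ w t} (hu : InL j u) :
    ∃ P : K[X], P.natDegree ≤ 1 ∧ QuadraticAlgebra.norm u = algebraMap K[X] (RatFunc K) P := by
  obtain ⟨P, h1, h2⟩ := mul_star_L hs hu hu
  refine ⟨P, h1, ?_⟩
  rw [← QuadraticAlgebra.algebraMap_norm_eq_mul_star, QuadraticAlgebra.algebraMap_inj] at h2
  exact h2

/-- Proof: `u star u' = P`, `N(u') = Q ≠ 0`, `N(u) = S`; so `P² = S Q` and the degrees are at most one, so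
`P = c Q`, and `Q u = u u' star u' = P u'`. -/
theorem uniq_L (hs : 1 + w ≠ 0) {j : ℕ} {u u' : EQ w t} (hu : InL j u) (hu' : InL j u')
    (h0 : u' ≠ 0) : ∃ c : K, u = algebraMap K (EQ w t) c * u' := by
  obtain ⟨P, hP1, hP2⟩ := mul_star_L hs hu hu'
  obtain ⟨Q, hQ1, hQ2⟩ := norm_L hs hu'
  obtain ⟨S, hS1, hS2⟩ := norm_L hs hu
  have hQ0 : Q ≠ 0 := by
    rintro rfl
    rw [map_zero, QuadraticAlgebra.norm_eq_zero_iff_eq_zero] at hQ2
    exact h0 hQ2
  have hsq : P ^ 2 = S * Q := by
    have h := congrArg QuadraticAlgebra.norm hP2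
    rw [map_mul, QuadraticAlgebra.norm_star, QuadraticAlgebra.norm_algebraMap, hS2, hQ2,
      ← map_mul, ← map_pow] at h
    exact (RatFunc.algebraMap_injective K h).symm
  obtain ⟨c, hc⟩ := poly_sq hP1 hQ1 hS1 hQ0 hsq
  refine ⟨c, ?_⟩
  have hQ' : algebraMap (RatFunc K) (EQ w t) (algebraMap K[X] (RatFunc K) Q) ≠ 0 := by
    rw [Ne, map_eq_zero, map_eq_zero_iff _ (RatFunc.algebraMap_injective K)]
    exact hQ0
  apply mul_right_cancel₀ hQ'
  calc u * algebraMap (RatFunc K) (EQ w t) (algebraMap K[X] (RatFunc K) Q)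
      = u * (u' * star u') := by rw [← hQ2, QuadraticAlgebra.algebraMap_norm_eq_mul_star]
    _ = (u * star u') * u' := by ring
    _ = algebraMap (RatFunc K) (EQ w t) (algebraMap K[X] (RatFunc K) (C c * Q)) * u' := by
        rw [hP2, hc]
    _ = algebraMap K (EQ w t) c * u' *
        algebraMap (RatFunc K) (EQ w t) (algebraMap K[X] (RatFunc K) Q) := by
        rw [map_mul, map_mul, IsScalarTower.algebraMap_apply K (RatFunc K) (EQ w t),
          RatFunc.algebraMap_C, RatFunc.algebraMap_eq_C]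
        ring

end Pool.Agent.GrE
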