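import Mathlib
import Pool.Agent.GrE.HKa
import Pool.Agent.GrE.Ex
import Pool.Agent.GrE.Uni

/-!
The regular differentials of the curve `y^g = α` over the curve of genus one; the genus is `g`.
-/

set_option autoImplicit false

namespace Pool.Agent.GrE

open Polynomial Pool.Agent.GrS

section

variable {K E : Type*} [Field K] [Field E] [Algebra K E] [Algebra K[X] E] [Algebra (RatFunc K) E]
  [IsScalarTower K (RatFunc K) E]

omit [Algebra K[X] E] in
private lemma HKb_smul (c : K) (x a : E) :
    Algebra.trace (RatFunc K) E (c • x * a) =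
      algebraMap K (RatFunc K) c * Algebra.trace (RatFunc K) E (x * a) := by
  rw [smul_mul_assoc, ← IsScalarTower.algebraMap_smul (RatFunc K) c (x * a), map_smul, smul_eq_mul]

private lemma HKb_fin : (Submodule.span K (omFin K E) : Set E) = omFin K E := by
  refine le_antisymm ?_ Submodule.subset_span
  intro x hx
  refine Submodule.span_induction (p := fun y _ => y ∈ omFin K E) (fun y hy => hy) ?_ ?_ ?_ hx
  · intro a _
    rw [zero_mul, map_zero]
    exact Subring.zero_mem _
  · intro y z _ _ hy hz a ha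
    rw [add_mul, map_add]
    exact Subring.add_mem _ (hy a ha) (hz a ha)
  · intro c y _ hy a ha
    rw [HKb_smul]
    refine Subring.mul_mem _ ⟨C c, ?_⟩ (hy a ha)
    rw [RatFunc.algebraMap_C, RatFunc.algebraMap_eq_C]

omit [Algebra K[X] E] in
private lemma HKb_inf : (Submodule.span K (omInf K E) : Set E) = omInf K E := by
  refine le_antisymm ?_ Submodule.subset_span
  intro x hx
  refine Submodule.span_induction (p := fun y _ => y ∈ omInf K E) (fun y hy => hy) ?_ ?_ ?_ hx
  · intro a _
    rw [zero_mul, map_zero, mul_zero]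
    exact (regInf K).zero_mem
  · intro y z _ _ hy hz a ha
    rw [add_mul, map_add, mul_add]
    exact (regInf K).add_mem (hy a ha) (hz a ha)
  · intro c y _ hy a ha
    rw [HKb_smul, mul_left_comm]
    exact (regInf K).mul_mem ((regInf K).algebraMap_mem c) (hy a ha)

/-- the two charts are subspaces, so they are their spans -/
lemma HKb_mem (x : E) : x ∈ HK K E 1 ↔ x ∈ omFin K E ∧ x ∈ omInf K E := by
  rw [HK, pow_one, pow_one, Submodule.mem_inf]
  refine and_congr ?_ ?_
  · rw [← SetLike.mem_coe, HKb_fin]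
  · rw [← SetLike.mem_coe, HKb_inf]

end

section

variable {K : Type*} [Field K] {w t : K} [Fact (∀ r : RatFunc K, r ^ 2 ≠ Nf w t + Tf w * r)]
  {E : Type*} [Field E] [Algebra (EQ w t) E] [Algebra K E] [Algebra K[X] E] [Algebra (RatFunc K) E]
  [IsScalarTower K (EQ w t) E] [IsScalarTower K[X] (EQ w t) E]
  [IsScalarTower (RatFunc K) (EQ w t) E]
  {A B P : K[X]} {g : ℕ}

/-- Proof: `omFin`, `omInf` are stable under sums and constants (`mem_omFin`, `mem_omInf`), so they are their spans. -/
theorem mem_HK [IsAlgClosed K] (hG : Good w t)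
    (hP : QuadraticAlgebra.norm (pp w t A B) = algebraMap K[X] (RatFunc K) P)
    (hd : P.natDegree = 1) (hg : (g : K) ≠ 0) (hL : InL g (pp w t A B))
    (k : Kum (EQ w t) E g (pp w t A B)) (f : Fin g → EQ w t) :
    elt k f ∈ HK K E 1 ↔ ∀ j : Fin g, InL (j : ℕ) (f j * WE w t) := by
  have : IsScalarTower K (RatFunc K) E := by
    refine IsScalarTower.of_algebraMap_eq fun c => ?_
    rw [IsScalarTower.algebraMap_apply K (EQ w t) E,
      IsScalarTower.algebraMap_apply (RatFunc K) (EQ w t) E,
      IsScalarTower.algebraMap_apply K (RatFunc K) (EQ w t)]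
  rw [HKb_mem, mem_omFin hG hP hd hg k f, mem_omInf hG hP hd hg hL k f, ← forall_and]
  exact Iff.rfl

omit [Fact (∀ r : RatFunc K, r ^ 2 ≠ Nf w t + Tf w * r)] in
private lemma HKb_WE : WE w t ≠ 0 := by
  intro h
  have h1 := congrArg QuadraticAlgebra.re h
  have h2 : -Tf w = 0 := h1
  have h3 : TT w = 0 := by
    apply RatFunc.algebraMap_injective K
    rw [map_zero, ← neg_eq_zero]
    exact h2
  rw [TT] at h3
  exact mul_ne_zero X_ne_zero (X_sub_C_ne_zero _) h3

private lemma HKb_scal {j : ℕ} (c : K) {u : EQ w t} (hu : InL j u) :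
    InL j (algebraMap K (EQ w t) c * u) := by
  refine ⟨?_, ?_⟩
  · obtain ⟨A, B, rfl⟩ := hu.1
    refine ⟨C c * A, C c * B, ?_⟩
    rw [← Nor_algebraMap_mul, IsScalarTower.algebraMap_apply K K[X] (EQ w t)]
    rfl
  · rw [mul_assoc]
    exact (InB_const c).mul hu.2

/-- Proof: `L_j` has dimension one (`exists_L`, `uniq_L`), so by `mem_HK` the `(h_j / W) y^(-j)` are a basis. -/
theorem genus_eq [IsAlgClosed K] (hG : Good w t)
    (hP : QuadraticAlgebra.norm (pp w t A B) = algebraMap K[X] (RatFunc K) P)
    (hd : P.natDegree = 1) (hg : (g : K) ≠ 0) (hL : InL g (pp w t A B))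
    (k : Kum (EQ w t) E g (pp w t A B)) : genus K E = g := by
  have hex : ∀ j : Fin g, ∃ u : EQ w t, u ≠ 0 ∧ InL (j : ℕ) u := by
    intro j
    obtain ⟨A', B', h1, h2⟩ := exists_L (w := w) (t := t) hG.s_ne (j : ℕ)
    refine ⟨pp w t A' B', ?_, h2⟩
    intro h0
    have h3 : pp w t A' B' = pp w t 0 0 := by
      rw [h0, ← Nor_algebraMap, map_zero]
    obtain ⟨e1, e2⟩ := Nor_pp_inj h3
    rcases h1 with h1 | h1
    · exact h1 e1
    · exact h1 e2
  choose h hne hhL using hex
  have hW := HKb_WE (w := w) (t := t)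
  set e : Fin g → E := fun j => algebraMap (EQ w t) E (h j * (WE w t)⁻¹) * (k.t ^ (j : ℕ))⁻¹ with he
  have hcomb : ∀ c : Fin g → K, Fintype.linearCombination K e c =
      elt k (fun j => algebraMap K (EQ w t) (c j) * (h j * (WE w t)⁻¹)) := by
    intro c
    rw [Fintype.linearCombination_apply, elt]
    refine Finset.sum_congr rfl fun j _ => ?_
    rw [Algebra.smul_def, IsScalarTower.algebraMap_apply K (EQ w t) E, he, map_mul _
      (algebraMap K (EQ w t) (c j)), mul_assoc]
  have hinj : Function.Injective (Fintype.linearCombination K e) := by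
    rw [← LinearMap.ker_eq_bot, LinearMap.ker_eq_bot']
    intro c hc
    rw [hcomb] at hc
    have h0 : elt k (fun _ => (0 : EQ w t)) = 0 := by
      rw [elt]
      refine Finset.sum_eq_zero fun j _ => ?_
      rw [map_zero, zero_mul]
    rw [← h0] at hc
    have h1 := elt_injective k hc
    funext j
    have h2 := congrFun h1 j
    have h3 := (mul_eq_zero.mp h2).resolve_right (mul_ne_zero (hne j) (inv_ne_zero hW))
    exact (map_eq_zero _).mp h3
  have hrange : LinearMap.range (Fintype.linearCombination K e) = HK K E 1 := by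
    ext x
    constructor
    · rintro ⟨c, rfl⟩
      rw [hcomb, mem_HK hG hP hd hg hL k]
      intro j
      have h1 : algebraMap K (EQ w t) (c j) * (h j * (WE w t)⁻¹) * WE w t =
          algebraMap K (EQ w t) (c j) * h j := by
        rw [mul_assoc, mul_assoc, inv_mul_cancel₀ hW, mul_one]
      rw [h1]
      exact HKb_scal _ (hhL j)
    · intro hx
      obtain ⟨f, rfl⟩ := exists_elt k x
      rw [mem_HK hG hP hd hg hL k] at hx
      have h1 : ∀ j : Fin g, ∃ c : K, f j * WE w t = algebraMap K (EQ w t) c * h j :=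
        fun j => uniq_L hG.s_ne (hx j) (hhL j) (hne j)
      choose c hc using h1
      refine ⟨c, ?_⟩
      rw [hcomb]
      congr 1
      funext j
      rw [← mul_assoc, ← hc j, mul_assoc, mul_inv_cancel₀ hW, mul_one]
  rw [genus, ← hrange, LinearMap.finrank_range_of_inj hinj, Module.finrank_fin_fun]

end

end Pool.Agent.GrE
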