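import Mathlib
import Pool.Agent.GrE.Defs

/-!
The condition at infinity in `L_j`, in terms of polynomials.
-/

set_option autoImplicit false

namespace Pool.Agent.GrE

open Polynomial Pool.Agent.GrS

/-- The map of quadratic algebras given by a ring homomorphism. -/
def InLP_hom {P Q : Type*} [CommRing P] [CommRing Q] (f : P →+* Q) (a b : P) (a' b' : Q)
    (ha : f a = a') (hb : f b = b') :
    QuadraticAlgebra P a b →+* QuadraticAlgebra Q a' b' where
  toFun u := ⟨f u.re, f u.im⟩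
  map_one' := by
    refine QuadraticAlgebra.ext ?_ ?_
    · exact map_one f
    · exact map_zero f
  map_mul' := by
    intro u v
    refine QuadraticAlgebra.ext ?_ ?_
    · simp only [QuadraticAlgebra.re_mul, map_add, map_mul, ha]
    · simp only [QuadraticAlgebra.im_mul, map_add, map_mul, hb]
  map_zero' := by
    refine QuadraticAlgebra.ext ?_ ?_
    · exact map_zero f
    · exact map_zero f
  map_add' := by
    intro u v
    refine QuadraticAlgebra.ext ?_ ?_
    · simp only [QuadraticAlgebra.re_add, map_add]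
    · simp only [QuadraticAlgebra.im_add, map_add]

theorem InLP_mem {K : Type*} [Field K] (n : ℕ) (C : K[X]) :
    ((RatFunc.X : RatFunc K) ^ n)⁻¹ * algebraMap K[X] (RatFunc K) C ∈ regInf K ↔
      C.natDegree ≤ n := by
  change ((RatFunc.X ^ n)⁻¹ * algebraMap K[X] (RatFunc K) C : RatFunc K).intDegree ≤ 0 ↔ _
  by_cases hC : C = 0
  · subst hC
    simp
  have hX : (RatFunc.X : RatFunc K) ^ n = algebraMap K[X] (RatFunc K) (X ^ n) := by
    rw [map_pow, RatFunc.algebraMap_X]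
  have h1 : (algebraMap K[X] (RatFunc K) C) ≠ 0 := by
    rwa [Ne, map_eq_zero_iff _ (IsFractionRing.injective K[X] (RatFunc K))]
  have h2 : (algebraMap K[X] (RatFunc K) (X ^ n)) ≠ 0 := by
    rw [Ne, map_eq_zero_iff _ (IsFractionRing.injective K[X] (RatFunc K))]
    exact pow_ne_zero _ X_ne_zero
  rw [hX, RatFunc.intDegree_mul (inv_ne_zero h2) h1, RatFunc.intDegree_inv,
    RatFunc.intDegree_polynomial, RatFunc.intDegree_polynomial, natDegree_X_pow]
  omega

/-- Proof: `ε = (x² - ν)/x²`; with `(A + B ν)(x² - ν)^(2j+1) = C + D ν`: `(A + B ν) ε^(2j+1) x^j =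
(C + D ν) / x^(3j+2)`, which is regular at infinity iff `deg C ≤ 3j + 2`, `deg D ≤ 3j`. -/
theorem InL_iff_InP {K : Type*} [Field K] {w t : K} {j : ℕ} (hj : 1 ≤ j) (A B : K[X]) :
    InL j (pp w t A B) ↔ InP w t j A B := by
  set φ : AQ w t →+* EQ w t := InLP_hom (algebraMap K[X] (RatFunc K)) (NN w t) (TT w) (Nf w t)
    (Tf w) rfl rfl with hφ
  have hφre : ∀ u : AQ w t, (φ u).re = algebraMap K[X] (RatFunc K) u.re := fun u => rfl
  have hφim : ∀ u : AQ w t, (φ u).im = algebraMap K[X] (RatFunc K) u.im := fun u => rfl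
  have hX0 : (RatFunc.X : RatFunc K) ≠ 0 := RatFunc.X_ne_zero
  have hX2 : (RatFunc.X : RatFunc K) ^ 2 ≠ 0 := pow_ne_zero _ hX0
  have heps : eps w t = algebraMap (RatFunc K) (EQ w t) ((RatFunc.X ^ 2)⁻¹) *
      φ (⟨X ^ 2, -1⟩ : AQ w t) := by
    refine QuadraticAlgebra.ext ?_ ?_
    · rw [QuadraticAlgebra.re_mul, QuadraticAlgebra.algebraMap_re,
        QuadraticAlgebra.algebraMap_im, hφre, mul_zero, zero_mul, add_zero]
      change (1 : RatFunc K) = (RatFunc.X ^ 2)⁻¹ * algebraMap K[X] (RatFunc K) (X ^ 2)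
      rw [map_pow, RatFunc.algebraMap_X, inv_mul_cancel₀ hX2]
    · rw [QuadraticAlgebra.im_mul, QuadraticAlgebra.algebraMap_re,
        QuadraticAlgebra.algebraMap_im, hφim, mul_zero, zero_mul, zero_mul, add_zero, add_zero]
      change (-(RatFunc.X ^ 2)⁻¹ : RatFunc K) = (RatFunc.X ^ 2)⁻¹ *
        algebraMap K[X] (RatFunc K) (-1)
      rw [map_neg, map_one, mul_neg, mul_one]
  have hpp : pp w t A B = φ (⟨A, B⟩ : AQ w t) := rfl
  have hg : pp w t A B * gB w t j = algebraMap (RatFunc K) (EQ w t)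
      ((RatFunc.X ^ (3 * j + 2))⁻¹) *
      φ ((⟨A, B⟩ : AQ w t) * (⟨X ^ 2, -1⟩ : AQ w t) ^ (2 * j + 1)) := by
    have hs : (((RatFunc.X : RatFunc K) ^ 2)⁻¹) ^ (2 * j + 1) * RatFunc.X ^ j =
        (RatFunc.X ^ (3 * j + 2))⁻¹ := by
      rw [eq_comm, inv_eq_iff_eq_inv, mul_inv, ← inv_pow, inv_inv, ← pow_mul]
      rw [eq_mul_inv_iff_mul_eq₀ (pow_ne_zero _ hX0), ← pow_add]
      congr 1
      ring
    unfold gB
    rw [if_neg (by omega), heps, xE, hpp, mul_pow, ← map_pow, ← map_pow φ, map_mul φ, ← hs,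
      map_mul (algebraMap (RatFunc K) (EQ w t)), ← map_pow (algebraMap (RatFunc K) (EQ w t)) _ j]
    ring
  have hInA : InA (pp w t A B) := ⟨A, B, rfl⟩
  unfold InL InP
  rw [and_iff_right hInA, hg]
  set Z : AQ w t := (⟨A, B⟩ : AQ w t) * (⟨X ^ 2, -1⟩ : AQ w t) ^ (2 * j + 1) with hZ
  unfold InB
  rw [QuadraticAlgebra.re_mul, QuadraticAlgebra.im_mul, QuadraticAlgebra.algebraMap_re,
        QuadraticAlgebra.algebraMap_im, hφre, hφim, mul_zero, zero_mul, zero_mul, add_zero,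
        add_zero, mul_zero, zero_mul, add_zero, InLP_mem]
  have h2 : (RatFunc.X : RatFunc K) ^ 2 * ((RatFunc.X ^ (3 * j + 2))⁻¹ *
      algebraMap K[X] (RatFunc K) Z.im) =
      (RatFunc.X ^ (3 * j))⁻¹ * algebraMap K[X] (RatFunc K) Z.im := by
    rw [← mul_assoc, pow_add, mul_inv, mul_comm ((RatFunc.X ^ (3 * j))⁻¹) _, ← mul_assoc,
      mul_inv_cancel₀ hX2, one_mul]
  rw [h2, InLP_mem]

theorem InLP_TT {R S : Type*} [CommRing R] [CommRing S] (f : R →+* S) (w : R) :
    mapRingHom f (TT w) = TT (f w) := by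
  simp [TT]

theorem InLP_NN {R S : Type*} [CommRing R] [CommRing S] (f : R →+* S) (w t : R) :
    mapRingHom f (NN w t) = NN (f w) (f t) := by
  simp [NN]

theorem InLP_prod {R S : Type*} [CommRing R] [CommRing S] (f : R →+* S) {w t : R} {j : ℕ}
    (A B : R[X]) :
    ((⟨A.map f, B.map f⟩ : AQ (f w) (f t)) * (⟨X ^ 2, -1⟩ : AQ (f w) (f t)) ^ (2 * j + 1)) =
      InLP_hom (mapRingHom f) (NN w t) (TT w) (NN (f w) (f t)) (TT (f w)) (InLP_NN f w t)
        (InLP_TT f w) ((⟨A, B⟩ : AQ w t) * (⟨X ^ 2, -1⟩ : AQ w t) ^ (2 * j + 1)) := by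
  have h : (⟨X ^ 2, -1⟩ : AQ (f w) (f t)) =
      InLP_hom (mapRingHom f) (NN w t) (TT w) (NN (f w) (f t)) (TT (f w)) (InLP_NN f w t)
        (InLP_TT f w) (⟨X ^ 2, -1⟩ : AQ w t) := by
    refine QuadraticAlgebra.ext ?_ ?_
    · change X ^ 2 = mapRingHom f (X ^ 2)
      simp
    · change (-1 : S[X]) = mapRingHom f (-1)
      simp
  rw [h, map_mul, map_pow]
  rfl

theorem InP_map {R S : Type*} [CommRing R] [CommRing S] (f : R →+* S) {w t : R} {j : ℕ}
    {A B : R[X]} (h : InP w t j A B) : InP (f w) (f t) j (A.map f) (B.map f) := by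
  unfold InP
  rw [InLP_prod]
  refine ⟨le_trans ?_ h.1, le_trans ?_ h.2⟩
  · exact natDegree_map_le
  · exact natDegree_map_le

theorem InP_of_map {R S : Type*} [CommRing R] [CommRing S] (f : R →+* S)
    (hf : Function.Injective f) {w t : R} {j : ℕ}
    {A B : R[X]} (h : InP (f w) (f t) j (A.map f) (B.map f)) : InP w t j A B := by
  unfold InP at h
  rw [InLP_prod] at h
  refine ⟨le_trans (le_of_eq ?_) h.1, le_trans (le_of_eq ?_) h.2⟩
  · exact (natDegree_map_eq_of_injective hf _).symm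
  · exact (natDegree_map_eq_of_injective hf _).symm

end Pool.Agent.GrE
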