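import Mathlib
import Pool.Agent.GrE.RedDefs

/-!
`L_j` of the nodal curve `t = 0`.
-/

set_option autoImplicit false

namespace Pool.Agent.GrE

open Polynomial

variable {k : Type*} [Field k]

/-- `μ^n A(μ + w/μ)` as a polynomial in `μ` -/
noncomputable def RedL_hom (w : k) (n : ℕ) (A : k[X]) : k[X] :=
  ∑ i ∈ Finset.range (n + 1), C (A.coeff i) * (X ^ 2 + C w) ^ i * X ^ (n - i)

lemma RedL_hom_eval {Ω : Type*} [Field Ω] (ι : k →+* Ω) (w : k) {μ : Ω} (hμ : μ ≠ 0) {n : ℕ}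
    {A : k[X]} (hA : A.natDegree ≤ n) :
    (RedL_hom w n A).eval₂ ι μ = μ ^ n * A.eval₂ ι (xm (ι w) μ) := by
  rw [RedL_hom, eval₂_finsetSum, eval₂_eq_sum_range' ι (Nat.lt_succ_of_le hA), Finset.mul_sum]
  refine Finset.sum_congr rfl fun i hi => ?_
  have hi' : i ≤ n := Nat.lt_succ_iff.mp (Finset.mem_range.mp hi)
  rw [eval₂_mul, eval₂_mul, eval₂_C, eval₂_pow, eval₂_pow, eval₂_add, eval₂_pow, eval₂_X, eval₂_C]
  have h1 : μ ^ 2 + ι w = μ * xm (ι w) μ := by
    rw [xm]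
    field_simp
  obtain ⟨m, rfl⟩ := Nat.exists_eq_add_of_le hi'
  rw [h1, mul_pow, Nat.add_sub_cancel_left, pow_add]
  ring

lemma RedL_hom_natDegree (w : k) (n : ℕ) (A : k[X]) : (RedL_hom w n A).natDegree ≤ 2 * n := by
  rw [RedL_hom]
  refine natDegree_sum_le_of_forall_le _ _ fun i hi => ?_
  have hi' : i ≤ n := Nat.lt_succ_iff.mp (Finset.mem_range.mp hi)
  have h2 : (X ^ 2 + C w : k[X]).natDegree ≤ 2 := by compute_degree
  have h3 : ((X ^ 2 + C w : k[X]) ^ i).natDegree ≤ i * 2 := natDegree_pow_le_of_le i h2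
  have h4 : (C (A.coeff i) * (X ^ 2 + C w) ^ i * X ^ (n - i) : k[X]).natDegree ≤
      0 + i * 2 + (n - i) :=
    natDegree_mul_le_of_le (natDegree_mul_le_of_le (natDegree_C _).le h3) (natDegree_X_pow_le _)
  omega

lemma RedL_eval_X (P : k[X]) : P.eval₂ RatFunc.C RatFunc.X = algebraMap k[X] (RatFunc k) P := by
  have h := hom_eval₂ P C (algebraMap k[X] (RatFunc k)) X
  rw [eval₂_C_X] at h
  rw [h, RatFunc.algebraMap_X]
  congr 1

lemma RedL_trans (w : k) (hw0 : w ≠ 0) {B : k[X]}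
    (h : B.eval₂ RatFunc.C (xm (RatFunc.C w) RatFunc.X) = 0) : B = 0 := by
  by_contra hB
  have h1 := RedL_hom_eval (RatFunc.C) w (RatFunc.X_ne_zero (K := k)) (le_refl B.natDegree)
  rw [h, mul_zero, RedL_eval_X] at h1
  have h2 : RedL_hom w B.natDegree B = 0 := RatFunc.algebraMap_injective k (by rw [h1, map_zero])
  have h3 := congrArg (eval 0) h2
  rw [RedL_hom, eval_finsetSum, Finset.sum_range_succ, Finset.sum_eq_zero] at h3
  · simp only [eval_mul, eval_C, eval_pow, eval_add, eval_X, Nat.sub_self, pow_zero, mul_one,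
      zero_add, eval_zero] at h3
    rw [zero_pow two_ne_zero, zero_add] at h3
    exact mul_ne_zero (mt leadingCoeff_eq_zero.mp hB) (pow_ne_zero _ hw0) h3
  · intro i hi
    have hi' : i < B.natDegree := Finset.mem_range.mp hi
    rw [eval_mul, eval_pow, eval_X, zero_pow (by omega), mul_zero]

/-- the map `A + B ν ↦ A(x) + B(x) ν` -/
noncomputable def RedL_ev (w : k) (u : AQ w (0 : k)) : RatFunc k :=
  u.re.eval₂ RatFunc.C (xm (RatFunc.C w) RatFunc.X) +
    u.im.eval₂ RatFunc.C (xm (RatFunc.C w) RatFunc.X) * nm (RatFunc.C w) RatFunc.X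

lemma RedL_nu_sq {Ω : Type*} [Field Ω] (ι : k →+* Ω) (w : k) {μ : Ω} (hμ : μ ≠ 0) :
    nm (ι w) μ ^ 2 = (TT w).eval₂ ι (xm (ι w) μ) * nm (ι w) μ + (NN w 0).eval₂ ι (xm (ι w) μ) := by
  simp only [TT, NN, nm, xm, eval₂_mul, eval₂_sub, eval₂_X, eval₂_C, eval₂_pow]
  simp only [map_zero, map_add, map_one]
  field_simp
  ring

lemma RedL_ev_mul (w : k) (u v : AQ w (0 : k)) : RedL_ev w (u * v) = RedL_ev w u * RedL_ev w v := by
  have h := RedL_nu_sq (RatFunc.C) w (RatFunc.X_ne_zero (K := k))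
  simp only [RedL_ev, QuadraticAlgebra.re_mul, QuadraticAlgebra.im_mul, eval₂_mul, eval₂_add]
  linear_combination (-(u.im.eval₂ RatFunc.C (xm (RatFunc.C w) RatFunc.X) *
    v.im.eval₂ RatFunc.C (xm (RatFunc.C w) RatFunc.X))) * h

lemma RedL_ev_pow (w : k) (u : AQ w (0 : k)) (n : ℕ) : RedL_ev w (u ^ n) = RedL_ev w u ^ n := by
  induction n with
  | zero =>
    rw [pow_zero, pow_zero, RedL_ev, QuadraticAlgebra.re_one, QuadraticAlgebra.im_one, eval₂_one,
      eval₂_zero, zero_mul, add_zero]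
  | succ n ih => rw [pow_succ, RedL_ev_mul, ih, pow_succ]

/-- `q = (1 + w) μ³ + w μ² + w²` -/
noncomputable def RedL_q (w : k) : k[X] := C (1 + w) * X ^ 3 + C w * X ^ 2 + C (w ^ 2)

lemma RedL_q_eq (w : k) : algebraMap k[X] (RatFunc k) (RedL_q w) =
    RatFunc.X ^ 2 * RedL_ev w (⟨X ^ 2, -1⟩ : AQ w (0 : k)) := by
  have h0 : (RatFunc.X : RatFunc k) ≠ 0 := RatFunc.X_ne_zero
  rw [← RedL_eval_X]
  simp only [RedL_q, RedL_ev, nm, xm, eval₂_mul, eval₂_add, eval₂_X, eval₂_C, eval₂_pow, eval₂_neg,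
    eval₂_one]
  simp only [map_add, map_one, map_pow]
  field_simp
  ring

lemma RedL_br (w : k) (n : ℕ) : (1 - w) * br w n = 1 - w ^ n := by
  rw [br, mul_comm, ← neg_sub w 1, mul_neg, geom_sum_mul]
  ring

/-- Proof.  `f = A(x) + B(x) ν` in `k(μ)`, `x = μ + w/μ`, `ν = (μ-1)(μ-w)`; `ν² - T ν + w (x-1-w)² = 0`, so
`(A, B) ↦ f` is a ring homomorphism on `AQ w 0`.  `x² - ν = q/μ²`, `q = (1+w) μ³ + w μ² + w²`; so `f q^(2j+1) = μ^j Q`,
`Q = μ^(3j+2) (C(x) + D(x) ν)` a polynomial of degree `≤ 6j + 4` (`deg C ≤ 3j+2`, `deg D ≤ 3j`).  With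
`f = F/μ^n`, `F` a polynomial: `F q^(2j+1) = μ^(j+n) Q`, `q(0) ≠ 0`, so `f = μ^j G`, `G q^(2j+1) = Q`, `deg q = 3`:
`G = a + b μ`.  The values of `f` at `μ = 1` and `μ = w` are equal (both `A(1+w)`, as `ν` vanishes there and `x = 1 + w`):
`a + b = w^j (a + b w)`, so `(a, b) = c ([j+1], -[j])`.  If `c = 0`, `f = 0`, so `A = B = 0` (`ν` is not in `k(x)`, which
is fixed by `μ ↦ w/μ`; or by degrees: `A(x)` has a pole of order `deg A` at `μ = 0` and at `∞`, `B(x) ν` one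
of order `deg B` at `0` and `deg B + 2` at `∞`). -/
theorem red_L (w : k) (hw0 : w ≠ 0) (hs : 1 + w ≠ 0) {j : ℕ} (hj : 1 ≤ j)
    (hw : ∀ i, 1 ≤ i → i ≤ j + 1 → w ^ i ≠ 1) (A B : k[X]) (hAB : A ≠ 0 ∨ B ≠ 0)
    (h : InP w 0 j A B) :
    ∃ c : k, c ≠ 0 ∧ A.eval₂ RatFunc.C (xm (RatFunc.C w) RatFunc.X) +
      B.eval₂ RatFunc.C (xm (RatFunc.C w) RatFunc.X) * nm (RatFunc.C w) RatFunc.X =
      RatFunc.C c * hm (RatFunc.C w) RatFunc.X j := by
  have hX0 : (RatFunc.X : RatFunc k) ≠ 0 := RatFunc.X_ne_zero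
  have hinj := RatFunc.algebraMap_injective k
  obtain ⟨hC, hD⟩ := h
  set v : AQ w (0 : k) := (⟨A, B⟩ : AQ w (0 : k)) * (⟨X ^ 2, -1⟩ : AQ w (0 : k)) ^ (2 * j + 1) with hv
  set f : RatFunc k := A.eval₂ RatFunc.C (xm (RatFunc.C w) RatFunc.X) +
      B.eval₂ RatFunc.C (xm (RatFunc.C w) RatFunc.X) * nm (RatFunc.C w) RatFunc.X with hf
  have hfv : f * RedL_ev w (⟨X ^ 2, -1⟩ : AQ w (0 : k)) ^ (2 * j + 1) = RedL_ev w v := by
    rw [hv, RedL_ev_mul, RedL_ev_pow]
    rfl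
  -- the numerator `Q`
  set nu : k[X] := (X - 1) * (X - C w) with hnu
  have hnu1 : nu.natDegree ≤ 2 := by
    have : nu.natDegree ≤ 1 + 1 := natDegree_mul_le_of_le (by compute_degree) (by compute_degree)
    exact this
  set Q : k[X] := RedL_hom w (3 * j + 2) v.re + nu * X ^ 2 * RedL_hom w (3 * j) v.im with hQ
  have hQd : Q.natDegree ≤ 6 * j + 4 := by
    refine natDegree_add_le_of_degree_le ?_ ?_
    · exact (RedL_hom_natDegree _ _ _).trans (by omega)
    · refine (natDegree_mul_le_of_le (natDegree_mul_le_of_le hnu1 (natDegree_X_pow_le 2))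
        (RedL_hom_natDegree _ _ _)).trans (by omega)
  have hev_nu : nu.eval₂ RatFunc.C RatFunc.X = nm (RatFunc.C w) RatFunc.X := by
    simp [hnu, nm, eval₂_mul, eval₂_sub]
  have hQe : algebraMap k[X] (RatFunc k) Q = RatFunc.X ^ (3 * j + 2) * RedL_ev w v := by
    rw [← RedL_eval_X, hQ, eval₂_add, eval₂_mul, eval₂_mul, RedL_hom_eval _ _ hX0 hC,
      RedL_hom_eval _ _ hX0 hD, hev_nu, eval₂_pow, eval₂_X, RedL_ev, pow_add]
    ring
  -- the numerator `F` of `f`
  set n : ℕ := max A.natDegree B.natDegree with hn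
  set F : k[X] := RedL_hom w n A + nu * RedL_hom w n B with hF
  have hFg : ∀ (Ω : Type _) [Field Ω] (ι : k →+* Ω) (μ : Ω), μ ≠ 0 → F.eval₂ ι μ =
      μ ^ n * (A.eval₂ ι (xm (ι w) μ) + B.eval₂ ι (xm (ι w) μ) * nm (ι w) μ) := by
    intro Ω _ ι μ hμ
    have h1 : nu.eval₂ ι μ = nm (ι w) μ := by
      simp [hnu, nm, eval₂_mul, eval₂_sub]
    rw [hF, eval₂_add, eval₂_mul, RedL_hom_eval _ _ hμ (le_max_left _ _),
      RedL_hom_eval _ _ hμ (le_max_right _ _), h1]
    ring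
  have hFe : algebraMap k[X] (RatFunc k) F = RatFunc.X ^ n * f := by
    rw [← RedL_eval_X, hFg _ _ _ hX0]
  have hFQ : F * RedL_q w ^ (2 * j + 1) = X ^ (j + n) * Q := by
    apply hinj
    rw [map_mul, map_pow, RedL_q_eq, hFe, map_mul, map_pow, RatFunc.algebraMap_X, hQe, ← hfv,
      mul_pow, ← pow_mul]
    ring
  have hcop : IsCoprime (X ^ (j + n) : k[X]) (RedL_q w ^ (2 * j + 1)) := by
    apply IsCoprime.pow
    refine ⟨-(C (w ^ 2)⁻¹ * (C (1 + w) * X ^ 2 + C w * X)), C (w ^ 2)⁻¹, ?_⟩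
    have h1 : (C (w ^ 2)⁻¹ * C (w ^ 2) : k[X]) = 1 := by
      rw [← C_mul, inv_mul_cancel₀ (pow_ne_zero 2 hw0), C_1]
    rw [RedL_q]
    linear_combination h1
  obtain ⟨G, hG⟩ : (X ^ (j + n) : k[X]) ∣ F :=
    hcop.dvd_of_dvd_mul_right (Dvd.intro _ hFQ.symm)
  have hXn : (X ^ (j + n) : k[X]) ≠ 0 := pow_ne_zero _ X_ne_zero
  have hGQ : G * RedL_q w ^ (2 * j + 1) = Q := by
    apply mul_left_cancel₀ hXn
    rw [← hFQ, hG]
    ring
  have hqd : (RedL_q w).natDegree = 3 := by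
    rw [RedL_q]
    compute_degree!
  have hGd : G.natDegree ≤ 1 := by
    by_cases hG0 : G = 0
    · rw [hG0, natDegree_zero]
      omega
    · have hq0 : RedL_q w ≠ 0 := by
        intro h0
        rw [h0, natDegree_zero] at hqd
        omega
      have h1 := hQd
      rw [← hGQ, natDegree_mul hG0 (pow_ne_zero _ hq0), natDegree_pow, hqd] at h1
      omega
  obtain ⟨b, a, hba⟩ := exists_eq_X_add_C_of_natDegree_le_one hGd
  have hfG : f = RatFunc.X ^ j * (RatFunc.C a + RatFunc.C b * RatFunc.X) := by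
    have h1 : algebraMap k[X] (RatFunc k) F = RatFunc.X ^ n *
        (RatFunc.X ^ j * (RatFunc.C a + RatFunc.C b * RatFunc.X)) := by
      rw [hG, hba, ← RedL_eval_X]
      simp only [eval₂_mul, eval₂_add, eval₂_pow, eval₂_X, eval₂_C]
      ring
    rw [hFe] at h1
    exact mul_left_cancel₀ (pow_ne_zero n hX0) h1
  -- the values at `1` and `w`
  have h1 : a + b = A.eval (1 + w) := by
    have h2 := hFg k (RingHom.id k) 1 one_ne_zero
    rw [hG, hba] at h2
    simp only [eval₂_mul, eval₂_add, eval₂_pow, eval₂_X, eval₂_C, RingHom.id_apply, nm, xm,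
      sub_self, zero_mul, mul_zero, add_zero, one_pow, one_mul, inv_one, mul_one, eval₂_id] at h2
    rw [← h2]
    ring
  have h2 : w ^ j * (a + b * w) = A.eval (1 + w) := by
    have h3 := hFg k (RingHom.id k) w hw0
    rw [hG, hba] at h3
    simp only [eval₂_mul, eval₂_add, eval₂_pow, eval₂_X, eval₂_C, RingHom.id_apply, nm, xm,
      sub_self, mul_zero, add_zero, mul_inv_cancel₀ hw0, eval₂_id] at h3
    have h4 : w ^ n * (w ^ j * (a + b * w)) = w ^ n * A.eval (1 + w) := by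
      rw [add_comm 1 w, ← h3]
      ring
    exact mul_left_cancel₀ (pow_ne_zero n hw0) h4
  have hw1 : 1 - w ≠ 0 := by
    have := hw 1 le_rfl (by omega)
    rw [pow_one] at this
    exact sub_ne_zero.mpr (Ne.symm this)
  have hb1 : br w (j + 1) ≠ 0 := by
    intro h0
    have h3 := RedL_br w (j + 1)
    rw [h0, mul_zero] at h3
    exact hw (j + 1) (by omega) le_rfl (sub_eq_zero.mp h3.symm).symm
  have h3 : a * br w j = -(b * br w (j + 1)) := by
    apply mul_left_cancel₀ hw1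
    have e1 := RedL_br w j
    have e2 := RedL_br w (j + 1)
    have e3 : w ^ (j + 1) = w ^ j * w := pow_succ w j
    linear_combination a * e1 + b * e2 + h1 - h2 - b * e3
  have hb : b = -(a / br w (j + 1) * br w j) := by
    field_simp
    linear_combination h3
  refine ⟨a / br w (j + 1), ?_, ?_⟩
  · intro h0
    have ha : a = 0 := by
      rcases div_eq_zero_iff.mp h0 with h4 | h4
      · exact h4
      · exact absurd h4 hb1
    have hb0 : b = 0 := by
      rw [hb, h0]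
      ring
    have hf0 : f = 0 := by
      rw [hfG, ha, hb0]
      simp
    have hF0 : F = 0 := by
      apply hinj
      rw [hFe, hf0, mul_zero, map_zero]
    have hm0 : RatFunc.C w * (RatFunc.X : RatFunc k)⁻¹ ≠ 0 :=
      mul_ne_zero (by simpa using hw0) (inv_ne_zero hX0)
    have h5 := hFg (RatFunc k) RatFunc.C (RatFunc.C w * RatFunc.X⁻¹) hm0
    rw [hF0, eval₂_zero] at h5
    have h6 := (mul_eq_zero.mp h5.symm).resolve_left (pow_ne_zero n hm0)
    have hCw : (RatFunc.C w : RatFunc k) ≠ 0 := by simpa using hw0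
    have h7 : xm (RatFunc.C w) (RatFunc.C w * (RatFunc.X : RatFunc k)⁻¹) =
        xm (RatFunc.C w) RatFunc.X := by
      rw [xm, xm]
      field_simp
      ring
    rw [h7] at h6
    have h8 : B.eval₂ RatFunc.C (xm (RatFunc.C w) RatFunc.X) *
        (nm (RatFunc.C w) RatFunc.X - nm (RatFunc.C w) (RatFunc.C w * (RatFunc.X : RatFunc k)⁻¹)) = 0 := by
      have h9 : A.eval₂ RatFunc.C (xm (RatFunc.C w) RatFunc.X) +
        B.eval₂ RatFunc.C (xm (RatFunc.C w) RatFunc.X) * nm (RatFunc.C w) RatFunc.X = 0 := hf0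
      linear_combination h9 - h6
    have h9 : nm (RatFunc.C w) RatFunc.X -
        nm (RatFunc.C w) (RatFunc.C w * (RatFunc.X : RatFunc k)⁻¹) ≠ 0 := by
      intro h10
      have h11 : (RatFunc.X - 1) * (RatFunc.X - RatFunc.C w) * (RatFunc.X ^ 2 - RatFunc.C w) =
          (0 : RatFunc k) := by
        have h12 : (RatFunc.X - 1) * (RatFunc.X - RatFunc.C w) * (RatFunc.X ^ 2 - RatFunc.C w) =
          RatFunc.X ^ 2 * (nm (RatFunc.C w) RatFunc.X -
            nm (RatFunc.C w) (RatFunc.C w * (RatFunc.X : RatFunc k)⁻¹)) := by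
          rw [nm, nm]
          field_simp
          ring
        rw [h12, h10, mul_zero]
      have h13 : ((X - 1) * (X - C w) * (X ^ 2 - C w) : k[X]) = 0 := by
        apply hinj
        rw [map_zero, ← h11, ← RedL_eval_X]
        simp [eval₂_mul, eval₂_sub]
      have m1 : (X - 1 : k[X]).Monic := monic_X_sub_C 1
      have m2 : (X - C w : k[X]).Monic := monic_X_sub_C w
      have m3 : (X ^ 2 - C w : k[X]).Monic := monic_X_pow_sub_C w two_ne_zero
      exact ((m1.mul m2).mul m3).ne_zero h13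
    have hBx := (mul_eq_zero.mp h8).resolve_right h9
    have hB0 : B = 0 := RedL_trans w hw0 hBx
    have hA0 : A = 0 := by
      apply RedL_trans w hw0
      have h9 : A.eval₂ RatFunc.C (xm (RatFunc.C w) RatFunc.X) +
        B.eval₂ RatFunc.C (xm (RatFunc.C w) RatFunc.X) * nm (RatFunc.C w) RatFunc.X = 0 := hf0
      rw [hBx, zero_mul, add_zero] at h9
      exact h9
    rcases hAB with h12 | h12
    · exact h12 hA0
    · exact h12 hB0
  · rw [hfG, hb, hm]
    have e1 : br (RatFunc.C w) (j + 1) = RatFunc.C (br w (j + 1)) := by simp [br, map_sum]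
    have e2 : br (RatFunc.C w) j = RatFunc.C (br w j) := by simp [br, map_sum]
    rw [e1, e2]
    have e3 : RatFunc.C a = RatFunc.C (a / br w (j + 1)) * RatFunc.C (br w (j + 1)) := by
      rw [← map_mul, div_mul_cancel₀ _ hb1]
    rw [e3, map_neg, map_mul]
    ring

end Pool.Agent.GrE
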