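import Mathlib

/-!
Scaling a pair of polynomials over a field with a valuation ring.
-/

set_option autoImplicit false

namespace Pool.Agent.GrE

open Polynomial

private lemma Scl_lift {K : Type*} [Field K] (V : ValuationSubring K) (P : K[X])
    (h : ∀ n, P.coeff n ∈ V) : ∃ P0 : V[X], P0.map V.subtype = P := by
  have h1 : P ∈ lifts V.subtype := by
    rw [lifts_iff_coeff_lifts]
    intro n
    exact ⟨⟨P.coeff n, h n⟩, rfl⟩
  obtain ⟨Q, hQ⟩ := (mem_lifts P).1 h1
  exact ⟨Q, hQ⟩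

private lemma Scl_ne {K : Type*} [Field K] (V : ValuationSubring K) (P : K[X]) (P0 : V[X])
    (h : P0.map V.subtype = P) (n : ℕ) (hn : P.coeff n = 1) :
    P0.map (IsLocalRing.residue V) ≠ 0 := by
  intro h0
  have h1 : P0.coeff n = 1 := by
    apply Subtype.ext
    have h2 := congrArg (fun q => q.coeff n) h
    simp only [coeff_map] at h2
    rw [hn] at h2
    exact h2
  have h3 := congrArg (fun q => q.coeff n) h0
  simp only [coeff_map, coeff_zero] at h3
  rw [h1, map_one] at h3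
  exact one_ne_zero h3

/-- Proof: among the finitely many non-zero coefficients of `A`, `B` take one, `a`, which is maximal (`b/a ∈ V` for all coefficients
`b`); `c = a⁻¹`. -/
theorem exists_scale {K : Type*} [Field K] (V : ValuationSubring K) (A B : K[X])
    (h : A ≠ 0 ∨ B ≠ 0) :
    ∃ c : K, c ≠ 0 ∧ ∃ A0 B0 : V[X], A0.map V.subtype = C c * A ∧ B0.map V.subtype = C c * B ∧
      (A0.map (IsLocalRing.residue V) ≠ 0 ∨ B0.map (IsLocalRing.residue V) ≠ 0) := by
  classical
  let S : Finset K := A.support.image A.coeff ∪ B.support.image B.coeff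
  have hS : S.Nonempty := by
    rcases h with h | h
    · obtain ⟨n, hn⟩ := nonempty_support_iff.2 h
      exact ⟨A.coeff n, Finset.mem_union_left _ (Finset.mem_image_of_mem _ hn)⟩
    · obtain ⟨n, hn⟩ := nonempty_support_iff.2 h
      exact ⟨B.coeff n, Finset.mem_union_right _ (Finset.mem_image_of_mem _ hn)⟩
  obtain ⟨a, ha, hmax⟩ := S.exists_max_image V.valuation hS
  have ha' : (∃ n, A.coeff n = a ∧ a ≠ 0) ∨ (∃ n, B.coeff n = a ∧ a ≠ 0) := by
    rcases Finset.mem_union.1 ha with h1 | h1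
    · obtain ⟨n, hn, rfl⟩ := Finset.mem_image.1 h1
      exact Or.inl ⟨n, rfl, mem_support_iff.1 hn⟩
    · obtain ⟨n, hn, rfl⟩ := Finset.mem_image.1 h1
      exact Or.inr ⟨n, rfl, mem_support_iff.1 hn⟩
  have ha0 : a ≠ 0 := by
    rcases ha' with ⟨n, _, h1⟩ | ⟨n, _, h1⟩ <;> exact h1
  have key : ∀ b : K, (b = 0 ∨ b ∈ S) → a⁻¹ * b ∈ V := by
    intro b hb
    rcases hb with rfl | hb
    · rw [mul_zero]
      exact V.zero_mem
    · rw [← V.valuation_le_one_iff, map_mul, map_inv₀]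
      have h1 := hmax b hb
      have h2 : V.valuation a ≠ 0 := (Valuation.ne_zero_iff _).2 ha0
      rw [inv_mul_le_iff₀ (zero_lt_iff.2 h2), mul_one]
      exact h1
  have hA : ∀ n, (C a⁻¹ * A).coeff n ∈ V := by
    intro n
    rw [coeff_C_mul]
    apply key
    by_cases h1 : A.coeff n = 0
    · exact Or.inl h1
    · exact Or.inr (Finset.mem_union_left _ (Finset.mem_image_of_mem _ (mem_support_iff.2 h1)))
  have hB : ∀ n, (C a⁻¹ * B).coeff n ∈ V := by
    intro n
    rw [coeff_C_mul]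
    apply key
    by_cases h1 : B.coeff n = 0
    · exact Or.inl h1
    · exact Or.inr (Finset.mem_union_right _ (Finset.mem_image_of_mem _ (mem_support_iff.2 h1)))
  obtain ⟨A0, hA0⟩ := Scl_lift V _ hA
  obtain ⟨B0, hB0⟩ := Scl_lift V _ hB
  refine ⟨a⁻¹, inv_ne_zero ha0, A0, B0, hA0, hB0, ?_⟩
  rcases ha' with ⟨n, h1, _⟩ | ⟨n, h1, _⟩
  · refine Or.inl (Scl_ne V _ A0 hA0 n ?_)
    rw [coeff_C_mul, h1, inv_mul_cancel₀ ha0]
  · refine Or.inr (Scl_ne V _ B0 hB0 n ?_)
    rw [coeff_C_mul, h1, inv_mul_cancel₀ ha0]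

end Pool.Agent.GrE
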