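import Mathlib
import Pool.Agent.GrE.Ex
import Pool.Agent.GrE.InLP
import Pool.Agent.GrE.RedL
import Pool.Agent.GrE.Scl

/-!
Functions in `L_j` with the reduction `h_j`.
-/

set_option autoImplicit false

namespace Pool.Agent.GrE

open Polynomial IsLocalRing

variable {K : Type*} [Field K]

/-- `InL` is stable under constants. -/
private lemma InL_C_mul {w t : K} {j : ℕ} (c : K) {A B : K[X]}
    (h : InL j (pp w t A B)) : InL j (pp w t (C c * A) (C c * B)) := by
  refine ⟨⟨_, _, rfl⟩, ?_⟩
  have e : pp w t (C c * A) (C c * B) = algebraMap K (EQ w t) c * pp w t A B := by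
    rw [← Algebra.smul_def]
    have hKX : ∀ A : K[X], algebraMap K[X] (RatFunc K) (C c * A) =
        c • algebraMap K[X] (RatFunc K) A := by
      intro A
      rw [Algebra.smul_def, map_mul]
      rfl
    unfold pp
    ext
    · rw [QuadraticAlgebra.re_smul, ← hKX]
    · rw [QuadraticAlgebra.im_smul, ← hKX]
  rw [e, mul_assoc]
  exact (InB_const c).mul h.2

/-- Proof: `j = 0`: `A = 1`, `B = 0`.  `j ≥ 1`: `exists_L`, scaled by `exists_scale` (`InL` is stable under constants);
`InL_iff_InP`, `InP_of_map`, `InP_map` (to the residue field), `red_L` give `c ≠ 0`; divide by a lift of `c` to a unit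
of `V`. -/
theorem exists_h (V : ValuationSubring K) (w t : V)
    [Fact (∀ r : RatFunc K, r ^ 2 ≠ Nf (w : K) (t : K) + Tf (w : K) * r)]
    (ht : residue V t = 0) (hw0 : residue V w ≠ 0) (hs : 1 + residue V w ≠ 0) (j : ℕ)
    (hw : ∀ i, 1 ≤ i → i ≤ j + 1 → residue V w ^ i ≠ 1) :
    ∃ A B : V[X], InL j (pp (w : K) (t : K) (A.map V.subtype) (B.map V.subtype)) ∧
      Red (residue V w) j (A.map (residue V)) (B.map (residue V)) := by
  rcases Nat.eq_zero_or_pos j with hj | hj
  · subst hj
    refine ⟨1, 0, ⟨⟨_, _, rfl⟩, ?_⟩, ?_⟩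
    · have h1 : pp (w : K) (t : K) ((1 : V[X]).map V.subtype) ((0 : V[X]).map V.subtype) = 1 := by
        unfold pp
        rw [Polynomial.map_one, Polynomial.map_zero, map_one, map_zero]
        rfl
      rw [h1]
      unfold gB
      rw [if_pos rfl, mul_one]
      exact InB_one
    · unfold Red
      rw [Polynomial.map_one, Polynomial.map_zero, eval₂_one, eval₂_zero]
      simp [hm, br]
  · have hs' : 1 + (w : K) ≠ 0 := by
      intro h
      apply hs
      have h1 : (1 + w : V) = 0 := Subtype.ext h
      rw [← map_one (residue V), ← map_add, h1, map_zero]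
    obtain ⟨A, B, hAB, hL⟩ := exists_L (w := (w : K)) (t := (t : K)) hs' j
    obtain ⟨c, -, A0, B0, hA0, hB0, hne⟩ := exists_scale V A B hAB
    have hL0 : InL j (pp (w : K) (t : K) (A0.map V.subtype) (B0.map V.subtype)) := by
      rw [hA0, hB0]
      exact InL_C_mul c hL
    have h1 := (InL_iff_InP hj _ _).1 hL0
    have h2 : InP w t j A0 B0 := InP_of_map V.subtype Subtype.val_injective h1
    have h3 := InP_map (residue V) h2
    rw [ht] at h3
    obtain ⟨c', hc'0, hc'⟩ := red_L (residue V w) hw0 hs hj hw _ _ hne h3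
    obtain ⟨u, rfl⟩ := residue_surjective c'
    have hu : IsUnit u := (residue_ne_zero_iff_isUnit u).1 hc'0
    obtain ⟨v, hv⟩ := hu.exists_left_inv
    have hv' : residue V v * residue V u = 1 := by
      rw [← map_mul, hv, map_one]
    refine ⟨C v * A0, C v * B0, ?_, ?_⟩
    · rw [Polynomial.map_mul, Polynomial.map_mul, Polynomial.map_C]
      exact InL_C_mul _ hL0
    · unfold Red
      rw [Polynomial.map_mul, Polynomial.map_mul, Polynomial.map_C, eval₂_mul, eval₂_mul, eval₂_C,
        mul_assoc, ← mul_add, hc', ← mul_assoc, ← map_mul, hv', map_one, one_mul]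

end Pool.Agent.GrE
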