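import Mathlib
import Pool.Agent.GrE.Defs

/-!
`ν² - T ν - N` is irreducible over `K(x)`.
-/

set_option autoImplicit false

namespace Pool.Agent.GrE

open Polynomial

variable {K : Type*} [Field K] {w t : K}

theorem irr_TT_eq (w : K) : TT w = X ^ 2 - C (1 + w) * X := by
  unfold TT
  ring

theorem irr_NN_eq (w t : K) :
    NN w t = C (t - w * (1 + w) ^ 2) + C (2 * w * (1 + w)) * X - C w * X ^ 2 := by
  unfold NN
  simp only [map_sub, map_mul, map_pow, map_add, map_one, map_ofNat]
  ring

theorem irr_TT_coeff_two (w : K) : (TT w).coeff 2 = 1 := by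
  rw [irr_TT_eq, coeff_sub, coeff_C_mul, coeff_X_pow, coeff_X]
  simp

theorem irr_TT_coeff_one (w : K) : (TT w).coeff 1 = -(1 + w) := by
  rw [irr_TT_eq, coeff_sub, coeff_C_mul, coeff_X_pow, coeff_X]
  simp

theorem irr_NN_coeff_two (w t : K) : (NN w t).coeff 2 = -w := by
  rw [irr_NN_eq, coeff_sub, coeff_add, coeff_C_mul, coeff_C_mul, coeff_X_pow, coeff_X, coeff_C]
  simp

theorem irr_NN_coeff_one (w t : K) : (NN w t).coeff 1 = 2 * w * (1 + w) := by
  rw [irr_NN_eq, coeff_sub, coeff_add, coeff_C_mul, coeff_C_mul, coeff_X_pow, coeff_X, coeff_C]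
  simp

theorem irr_NN_natDegree_le (w t : K) : (NN w t).natDegree ≤ 2 := by
  rw [irr_NN_eq]
  compute_degree

/-- Proof: `r` is integral over `K[x]`, so a polynomial; `r (r - T) = N` and degrees show `r = c` or
`r = T + c`, `c` constant, `c ≠ 0`; comparison of the coefficients of `x²` and `x` gives `w (1 + w) = 0`. -/
theorem irr (hw : w ≠ 0) (hs : 1 + w ≠ 0) : ∀ r : RatFunc K, r ^ 2 ≠ Nf w t + Tf w * r := by
  intro r hr
  have hint : IsIntegral K[X] r := by
    refine ⟨X ^ 2 - (C (TT w) * X + C (NN w t)), ?_, ?_⟩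
    · exact monic_X_pow_sub (lt_of_le_of_lt degree_linear_le (by norm_num))
    · simp only [eval₂_sub, eval₂_add, eval₂_mul, eval₂_pow, eval₂_X, eval₂_C]
      rw [hr, Nf, Tf]
      ring
  obtain ⟨c, rfl⟩ := IsIntegrallyClosed.isIntegral_iff.mp hint
  have h1 : c * (c - TT w) = NN w t := by
    apply IsFractionRing.injective K[X] (RatFunc K)
    rw [map_mul, map_sub]
    rw [Nf, Tf] at hr
    linear_combination hr
  have hN0 : NN w t ≠ 0 := by
    intro h0
    have := irr_NN_coeff_two w t
    rw [h0, coeff_zero] at this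
    exact hw (by linear_combination this)
  have hc0 : c ≠ 0 := by
    rintro rfl
    exact hN0 (by rw [← h1]; ring)
  have hd0 : c - TT w ≠ 0 := by
    intro h0
    exact hN0 (by rw [← h1, h0]; ring)
  have hdeg : c.natDegree + (c - TT w).natDegree ≤ 2 := by
    rw [← natDegree_mul hc0 hd0, h1]
    exact irr_NN_natDegree_le w t
  have key : ∀ c0 : K, C c0 * (C c0 - TT w) = NN w t ∨ (TT w + C c0) * C c0 = NN w t → False := by
    intro c0 h
    have z1 : (C c0 : K[X]).coeff 1 = 0 := coeff_C_of_ne_zero one_ne_zero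
    have z2 : (C c0 : K[X]).coeff 2 = 0 := coeff_C_of_ne_zero two_ne_zero
    have hfin : w * (1 + w) = 0 := by
      rcases h with h | h
      · have a2 := congrArg (fun q : K[X] => q.coeff 2) h
        have a1 := congrArg (fun q : K[X] => q.coeff 1) h
        simp only [coeff_C_mul, coeff_sub, irr_TT_coeff_two, irr_TT_coeff_one,
          irr_NN_coeff_two, irr_NN_coeff_one, z1, z2] at a2 a1
        linear_combination (-1) * a1 + (-(1 + w)) * a2
      · have a2 := congrArg (fun q : K[X] => q.coeff 2) h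
        have a1 := congrArg (fun q : K[X] => q.coeff 1) h
        simp only [coeff_mul_C, coeff_add, irr_TT_coeff_two, irr_TT_coeff_one,
          irr_NN_coeff_two, irr_NN_coeff_one, z1, z2] at a2 a1
        linear_combination (-1) * a1 + (-(1 + w)) * a2
    rcases mul_eq_zero.mp hfin with h | h
    · exact hw h
    · exact hs h
  by_cases h2 : c.natDegree = 0
  · rw [eq_C_of_natDegree_eq_zero h2] at h1
    exact key _ (Or.inl h1)
  by_cases h3 : (c - TT w).natDegree = 0
  · refine key ((c - TT w).coeff 0) (Or.inr ?_)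
    rw [← eq_C_of_natDegree_eq_zero h3, ← h1]
    ring
  have hc1 : c.natDegree ≤ 1 := by omega
  have hd1 : (c - TT w).natDegree ≤ 1 := by omega
  have e1 : c.coeff 2 = 0 := coeff_eq_zero_of_natDegree_lt (by omega)
  have e2 : (c - TT w).coeff 2 = 0 := coeff_eq_zero_of_natDegree_lt (by omega)
  rw [coeff_sub, e1, irr_TT_coeff_two] at e2
  norm_num at e2

end Pool.Agent.GrE
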