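import Mathlib
import Pool.Agent.GrE.RedDefs

/-!
Two consequences of `Red`.
-/

set_option autoImplicit false

namespace Pool.Agent.GrE

open Polynomial

variable {k : Type*} [Field k]

theorem RedE_map_br {R S : Type*} [CommRing R] [CommRing S] (f : R →+* S) (w : R) (n : ℕ) :
    f (br w n) = br (f w) n := by
  simp only [br, map_sum, map_pow]

/-- `Red` in any field with a transcendental element `μ`. -/
theorem Red.eval {w : k} {j : ℕ} {A B : k[X]} (h : Red w j A B) {Ω : Type*} [Field Ω] (ι : k →+* Ω)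
    (μ : Ω) (hμ : ∀ P : k[X], P.eval₂ ι μ = 0 → P = 0) :
    A.eval₂ ι (xm (ι w) μ) + B.eval₂ ι (xm (ι w) μ) * nm (ι w) μ = hm (ι w) μ j := by
  have hle : nonZeroDivisors k[X] ≤ (nonZeroDivisors Ω).comap (eval₂RingHom ι μ) := by
    intro P hP
    rw [Submonoid.mem_comap]
    refine mem_nonZeroDivisors_of_ne_zero ?_
    intro h0
    exact nonZeroDivisors.ne_zero hP (hμ P h0)
  set φ : RatFunc k →+* Ω := RatFunc.liftRingHom (eval₂RingHom ι μ) hle with hφ
  have hφa : ∀ P : k[X], φ (algebraMap k[X] (RatFunc k) P) = P.eval₂ ι μ := by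
    intro P
    rw [hφ, RatFunc.liftRingHom_algebraMap]
    rfl
  have hφX : φ RatFunc.X = μ := by
    rw [← RatFunc.algebraMap_X, hφa, eval₂_X]
  have hφC : ∀ c : k, φ (RatFunc.C c) = ι c := by
    intro c
    rw [← RatFunc.algebraMap_C, hφa, eval₂_C]
  have hcomp : φ.comp RatFunc.C = ι := RingHom.ext hφC
  have h1 := congrArg φ h
  have hx : φ (xm (RatFunc.C w) RatFunc.X) = xm (ι w) μ := by
    simp only [xm, map_add, map_mul, map_inv₀, hφX, hφC]
  have hn : φ (nm (RatFunc.C w) RatFunc.X) = nm (ι w) μ := by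
    simp only [nm, map_sub, map_mul, map_one, hφX, hφC]
  have hh : φ (hm (RatFunc.C w) RatFunc.X j) = hm (ι w) μ j := by
    simp only [hm, map_sub, map_mul, map_pow, RedE_map_br, hφX, hφC]
  rw [map_add, map_mul, hom_eval₂, hom_eval₂, hcomp, hx, hn, hh] at h1
  exact h1

/-- An element of `k(X)` which is not a polynomial is transcendental over `k`. -/
theorem RedE_transc {y : RatFunc k} (hy : ∀ q : k[X], algebraMap k[X] (RatFunc k) q ≠ y)
    (P : k[X]) (hP : P.eval₂ RatFunc.C y = 0) : P = 0 := by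
  by_contra h0
  have h1 : IsAlgebraic k y := by
    refine ⟨P, h0, ?_⟩
    rw [aeval_def, RatFunc.algebraMap_eq_C]
    exact hP
  have h2 : IsIntegral k[X] y := h1.isIntegral.tower_top
  obtain ⟨q, hq⟩ := IsIntegrallyClosed.isIntegral_iff.mp h2
  exact hy q hq

theorem RedE_transc_inv {w : k} (hw0 : w ≠ 0) (q : k[X]) :
    algebraMap k[X] (RatFunc k) q ≠ RatFunc.C w * RatFunc.X⁻¹ := by
  intro hq
  have hX : (RatFunc.X : RatFunc k) ≠ 0 := RatFunc.X_ne_zero
  have h1 : X * q = C w := by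
    apply IsFractionRing.injective k[X] (RatFunc k)
    rw [map_mul, hq, RatFunc.algebraMap_X, RatFunc.algebraMap_C]
    field_simp
  have h2 := congrArg (eval 0) h1
  rw [eval_mul, eval_X, zero_mul, eval_C] at h2
  exact hw0 h2.symm

theorem RedE_transc_x {w : k} (hw0 : w ≠ 0) (q : k[X]) :
    algebraMap k[X] (RatFunc k) q ≠ xm (RatFunc.C w) RatFunc.X := by
  intro hq
  have hX : (RatFunc.X : RatFunc k) ≠ 0 := RatFunc.X_ne_zero
  refine RedE_transc_inv hw0 (q - X) ?_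
  rw [map_sub, hq, RatFunc.algebraMap_X, xm]
  ring

/-- The norm: `μ ↦ w/μ` is the conjugation, and `h_g(μ) h_g(w/μ) = w^g ([g+1]² + w [g]² - [g] [g+1] x)`. -/
theorem Red.norm {w : k} (hw0 : w ≠ 0) {g : ℕ} {A B : k[X]} (h : Red w g A B) :
    A ^ 2 + TT w * A * B - NN w 0 * B ^ 2 =
      C (w ^ g) * (C (br w (g + 1) ^ 2 + w * br w g ^ 2) - C (br w g * br w (g + 1)) * X) := by
  have hX : (RatFunc.X : RatFunc k) ≠ 0 := RatFunc.X_ne_zero
  have hwC : (RatFunc.C w : RatFunc k) ≠ 0 := by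
    rw [Ne, map_eq_zero]
    exact hw0
  have h1 : A.eval₂ RatFunc.C (xm (RatFunc.C w) RatFunc.X) +
      B.eval₂ RatFunc.C (xm (RatFunc.C w) RatFunc.X) * nm (RatFunc.C w) RatFunc.X =
      hm (RatFunc.C w) RatFunc.X g := h
  have h2 := h.eval RatFunc.C (RatFunc.C w * RatFunc.X⁻¹) (RedE_transc (RedE_transc_inv hw0))
  have hx : xm (RatFunc.C w) (RatFunc.C w * RatFunc.X⁻¹) = xm (RatFunc.C w) RatFunc.X := by
    rw [xm, xm]
    field_simp
    ring
  rw [hx] at h2
  rw [← sub_eq_zero]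
  apply RedE_transc (RedE_transc_x hw0)
  rw [eval₂_sub, sub_eq_zero]
  have hT : (TT w).eval₂ RatFunc.C (xm (RatFunc.C w) RatFunc.X) =
      nm (RatFunc.C w) RatFunc.X + nm (RatFunc.C w) (RatFunc.C w * RatFunc.X⁻¹) := by
    rw [TT, xm, nm, nm]
    simp only [eval₂_mul, eval₂_sub, eval₂_X, eval₂_C]
    simp only [map_add, map_one]
    field_simp
    ring
  have hN : (NN w 0).eval₂ RatFunc.C (xm (RatFunc.C w) RatFunc.X) =
      - (nm (RatFunc.C w) RatFunc.X * nm (RatFunc.C w) (RatFunc.C w * RatFunc.X⁻¹)) := by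
    rw [NN, xm, nm, nm]
    simp only [eval₂_mul, eval₂_sub, eval₂_pow, eval₂_X, eval₂_C]
    simp only [map_add, map_one, map_zero]
    field_simp
    ring
  have hL : (A ^ 2 + TT w * A * B - NN w 0 * B ^ 2).eval₂ RatFunc.C (xm (RatFunc.C w) RatFunc.X) =
      hm (RatFunc.C w) RatFunc.X g * hm (RatFunc.C w) (RatFunc.C w * RatFunc.X⁻¹) g := by
    rw [← h1, ← h2]
    simp only [eval₂_mul, eval₂_sub, eval₂_add, eval₂_pow, hT, hN]
    ring
  rw [hL, hm, hm, xm]
  simp only [eval₂_mul, eval₂_sub, eval₂_X, eval₂_C]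
  simp only [map_add, map_mul, map_pow, RedE_map_br]
  have h3 : RatFunc.X ^ g * (RatFunc.C w * (RatFunc.X)⁻¹) ^ g = (RatFunc.C w : RatFunc k) ^ g := by
    rw [← mul_pow]
    congr 1
    field_simp
  have h4 : (br (RatFunc.C w) (g + 1) - br (RatFunc.C w) g * RatFunc.X) *
      (br (RatFunc.C w) (g + 1) - br (RatFunc.C w) g * (RatFunc.C w * (RatFunc.X)⁻¹)) =
      br (RatFunc.C w) (g + 1) ^ 2 + RatFunc.C w * br (RatFunc.C w) g ^ 2 -
        br (RatFunc.C w) g * br (RatFunc.C w) (g + 1) *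
          (RatFunc.X + RatFunc.C w * (RatFunc.X : RatFunc k)⁻¹) := by
    field_simp
    ring
  rw [← h4, ← h3]
  ring

end Pool.Agent.GrE
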