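import Mathlib
import Pool.Agent.GrE.Uni
import Pool.Agent.GrE.RedE

/-!
The norm of the function with the reduction `h_g` has degree exactly one.
-/

set_option autoImplicit false

namespace Pool.Agent.GrE

open Polynomial IsLocalRing

theorem NorL_map_TT {R S : Type*} [CommRing R] [CommRing S] (f : R →+* S) (w : R) :
    (TT w).map f = TT (f w) := by
  simp only [TT, Polynomial.map_mul, Polynomial.map_sub, map_X, map_C]
  rw [RingHom.map_add, RingHom.map_one]

theorem NorL_map_NN {R S : Type*} [CommRing R] [CommRing S] (f : R →+* S) (w t : R) :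
    (NN w t).map f = NN (f w) (f t) := by
  simp only [NN, Polynomial.map_mul, Polynomial.map_sub, Polynomial.map_pow, map_X, map_C]
  rw [RingHom.map_add, RingHom.map_one]

variable {K : Type*} [Field K]

/-- Proof: the norm is the image of `P₀ = A² + T A B - N B²` in `V[x]`, of degree `≤ 1` by `norm_L`; its reduction
has by `Red.norm` the coefficient `- w^g [g] [g+1] ≠ 0` at `x` (`(1 - w) [n] = 1 - w^n`). -/
theorem norm_deg (V : ValuationSubring K) (w t : V)
    [Fact (∀ r : RatFunc K, r ^ 2 ≠ Nf (w : K) (t : K) + Tf (w : K) * r)]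
    (ht : residue V t = 0) (hw0 : residue V w ≠ 0) (hs : 1 + residue V w ≠ 0) (g : ℕ)
    (hw : residue V w ^ g ≠ 1) (hw1 : residue V w ^ (g + 1) ≠ 1)
    (A B : V[X]) (hL : InL g (pp (w : K) (t : K) (A.map V.subtype) (B.map V.subtype)))
    (hR : Red (residue V w) g (A.map (residue V)) (B.map (residue V))) :
    ∃ P : K[X], P.natDegree = 1 ∧
      QuadraticAlgebra.norm (pp (w : K) (t : K) (A.map V.subtype) (B.map V.subtype)) =
        algebraMap K[X] (RatFunc K) P := by
  have hsK : 1 + (w : K) ≠ 0 := by
    intro h0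
    have h1 : (1 + w : V) = 0 := by
      apply Subtype.ext
      simpa using h0
    apply hs
    rw [← map_one (residue V), ← map_add, h1, map_zero]
  obtain ⟨P, hP1, hP2⟩ := norm_L hsK hL
  refine ⟨P, le_antisymm hP1 ?_, hP2⟩
  set P0 : V[X] := A ^ 2 + TT w * A * B - NN w t * B ^ 2 with hP0
  have hPm : P = P0.map V.subtype := by
    apply IsFractionRing.injective K[X] (RatFunc K)
    rw [← hP2, hP0]
    simp only [Polynomial.map_sub, Polynomial.map_add, Polynomial.map_mul, Polynomial.map_pow,
      NorL_map_TT, NorL_map_NN, QuadraticAlgebra.norm_def, pp, map_sub, map_add, map_mul, map_pow]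
    show _ = _ + Tf (w : K) * _ * _ - Nf (w : K) (t : K) * _ ^ 2
    ring
  have hPr : P0.map (residue V) = C (residue V w ^ g) * (C (br (residue V w) (g + 1) ^ 2 +
      residue V w * br (residue V w) g ^ 2) -
        C (br (residue V w) g * br (residue V w) (g + 1)) * X) := by
    rw [← hR.norm hw0, hP0]
    simp only [Polynomial.map_sub, Polynomial.map_add, Polynomial.map_mul, Polynomial.map_pow,
      NorL_map_TT, NorL_map_NN, ht]
  have hbr : ∀ n : ℕ, residue V w ^ n ≠ 1 → br (residue V w) n ≠ 0 := by
    intro n hn h0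
    apply hn
    have h1 := mul_neg_geom_sum (residue V w) n
    rw [show (∑ i ∈ Finset.range n, residue V w ^ i) = br (residue V w) n from rfl, h0,
      mul_zero] at h1
    exact (sub_eq_zero.mp h1.symm).symm
  have hc : residue V (P0.coeff 1) ≠ 0 := by
    rw [← coeff_map, hPr, coeff_C_mul, coeff_sub, coeff_C_mul, coeff_X_one,
      coeff_C_of_ne_zero one_ne_zero]
    rw [zero_sub, mul_one]
    exact mul_ne_zero (pow_ne_zero _ hw0) (neg_ne_zero.mpr (mul_ne_zero (hbr g hw)
      (hbr (g + 1) hw1)))
  have hc2 : P.coeff 1 ≠ 0 := by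
    rw [hPm, coeff_map]
    intro h0
    apply hc
    have h1 : P0.coeff 1 = 0 := V.subtype_injective (by rw [h0, map_zero])
    rw [h1, map_zero]
  exact le_natDegree_of_ne_zero hc2

end Pool.Agent.GrE
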