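import Mathlib

/-!
The valuation ring of the algebraic closure of `F(t)` over `t = 0`, with residue field `F`.
-/

set_option autoImplicit false

namespace Pool.Agent.GrE

open Polynomial

section

namespace PlaceV

variable (F : Type*) [Field F]

/-- The embedding of `F[t]` in the algebraic closure of `F(t)`. -/
noncomputable def emb : F[X] →+* AlgebraicClosure (RatFunc F) :=
  (algebraMap (RatFunc F) (AlgebraicClosure (RatFunc F))).comp (algebraMap F[X] (RatFunc F))

lemma emb_inj : Function.Injective (emb F) := by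
  unfold emb
  rw [RingHom.coe_comp]
  exact (algebraMap (RatFunc F) (AlgebraicClosure (RatFunc F))).injective.comp
    (RatFunc.algebraMap_injective F)

lemma emb_C (c : F) : emb F (C c) =
    algebraMap (RatFunc F) (AlgebraicClosure (RatFunc F)) (RatFunc.C c) := by
  unfold emb
  rw [RingHom.comp_apply, RatFunc.algebraMap_C]

lemma emb_X : emb F X =
    algebraMap (RatFunc F) (AlgebraicClosure (RatFunc F)) RatFunc.X := by
  unfold emb
  rw [RingHom.comp_apply, RatFunc.algebraMap_X]

/-- A valuation ring which contains `F[t]` with `t` in the maximal ideal. -/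
lemma exists_dom : ∃ V : ValuationSubring (AlgebraicClosure (RatFunc F)),
    (∀ p : F[X], emb F p ∈ V) ∧ emb F X ∈ V.nonunits := by
  obtain ⟨V, h1, h2⟩ := Ideal.image_subset_nonunits_valuationSubring
    (A := (emb F).range) (Ideal.span {⟨emb F X, ⟨X, rfl⟩⟩}) (by
      intro h
      rw [Ideal.eq_top_iff_one, Ideal.mem_span_singleton] at h
      obtain ⟨⟨_, ⟨q, rfl⟩⟩, hq⟩ := h
      have hq' : (1 : AlgebraicClosure (RatFunc F)) = emb F X * emb F q := congrArg Subtype.val hq
      rw [← map_mul, ← map_one (emb F)] at hq'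
      have h3 := emb_inj F hq'
      have h4 := congrArg (Polynomial.eval 0) h3
      simp at h4)
  refine ⟨V, fun p => h1 ⟨p, rfl⟩, ?_⟩
  exact h2 ⟨⟨emb F X, ⟨X, rfl⟩⟩, Ideal.mem_span_singleton_self _, rfl⟩

/-- A nonzero polynomial over `F[t]` is a power of `t` times a polynomial which is nonzero
modulo `t`. -/
lemma exists_prim {F : Type*} [Field F] (P : F[X][X]) (hP : P ≠ 0) :
    ∃ (n : ℕ) (Q : F[X][X]), P = C X ^ n * Q ∧ Q.map (constantCoeff (R := F)) ≠ 0 := by
  have hfin : FiniteMultiplicity (C (X : F[X])) P := by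
    apply FiniteMultiplicity.of_not_isUnit _ hP
    intro h
    have := Polynomial.isUnit_C.1 h
    exact Polynomial.not_isUnit_X this
  obtain ⟨Q, hQ, hnd⟩ := hfin.exists_eq_pow_mul_and_not_dvd
  refine ⟨_, Q, hQ, ?_⟩
  intro h
  apply hnd
  rw [Polynomial.C_dvd_iff_dvd_coeff]
  intro i
  rw [Polynomial.X_dvd_iff]
  have := congrArg (fun p => Polynomial.coeff p i) h
  simpa using this

end PlaceV

open PlaceV in
/-- The algebraic closure of `F(t)` has a valuation ring over `F[t]_(t)` with residue field `F`. -/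
theorem exists_val (F : Type*) [Field F] [IsAlgClosed F] :
    ∃ V : ValuationSubring (AlgebraicClosure (RatFunc F)),
      (∀ c : F, algebraMap (RatFunc F) (AlgebraicClosure (RatFunc F)) (RatFunc.C c) ∈ V) ∧
      algebraMap (RatFunc F) (AlgebraicClosure (RatFunc F)) RatFunc.X ∈ V.nonunits ∧
      ∀ z ∈ V, ∃ c : F,
        z - algebraMap (RatFunc F) (AlgebraicClosure (RatFunc F)) (RatFunc.C c) ∈ V.nonunits := by
  obtain ⟨V, h1, h2⟩ := exists_dom F
  refine ⟨V, fun c => by rw [← emb_C]; exact h1 _, by rw [← emb_X]; exact h2, ?_⟩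
  intro z hz
  -- the residue map on constants
  let res := IsLocalRing.residue V
  let e : F[X] →+* V := (emb F).codRestrict V h1
  have he : ∀ p, (e p : AlgebraicClosure (RatFunc F)) = emb F p := fun p => rfl
  let ι : F →+* IsLocalRing.ResidueField V := res.comp (e.comp C)
  have hX : res (e X) = 0 := by
    rw [IsLocalRing.residue_eq_zero_iff]
    have := h2
    rw [← he, ValuationSubring.coe_mem_nonunits_iff] at this
    exact this
  have hfac : res.comp e = ι.comp (constantCoeff (R := F)) := by
    apply Polynomial.ringHom_ext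
    · intro a
      simp [ι]
    · simp [hX]
  -- an equation for z
  have halg : IsAlgebraic F[X] z :=
    (IsFractionRing.isAlgebraic_iff F[X] (RatFunc F) (AlgebraicClosure (RatFunc F))).2
      (Algebra.IsAlgebraic.isAlgebraic z)
  obtain ⟨P, hP, hPz⟩ := halg
  have hemb : algebraMap F[X] (AlgebraicClosure (RatFunc F)) = emb F :=
    IsScalarTower.algebraMap_eq F[X] (RatFunc F) (AlgebraicClosure (RatFunc F))
  rw [Polynomial.aeval_def, hemb] at hPz
  obtain ⟨n, Q, rfl, hQ⟩ := exists_prim P hP
  rw [Polynomial.eval₂_mul, Polynomial.eval₂_pow, Polynomial.eval₂_C] at hPz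
  have hX0 : emb F X ≠ 0 := by
    intro h
    rw [← map_zero (emb F)] at h
    exact Polynomial.X_ne_zero (emb_inj F h)
  have hQz : Q.eval₂ (emb F) z = 0 := by
    rcases mul_eq_zero.1 hPz with h | h
    · exact absurd h (pow_ne_zero _ hX0)
    · exact h
  have hQz' : Q.eval₂ e ⟨z, hz⟩ = 0 := by
    apply Subtype.ext
    have := Polynomial.hom_eval₂ Q e V.subtype ⟨z, hz⟩
    rw [show V.subtype.comp e = emb F from rfl] at this
    change V.subtype (Q.eval₂ e ⟨z, hz⟩) = 0
    rw [this]
    exact hQz
  have hQr : (Q.map (constantCoeff (R := F))).eval₂ ι (res ⟨z, hz⟩) = 0 := by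
    rw [Polynomial.eval₂_map, ← hfac, ← Polynomial.hom_eval₂, hQz', map_zero]
  have hsp := (IsAlgClosed.splits (Q.map (constantCoeff (R := F)))).eq_prod_roots
  rw [hsp] at hQr
  rw [Polynomial.eval₂_mul, Polynomial.eval₂_C, mul_eq_zero] at hQr
  rcases hQr with h | h
  · rw [map_eq_zero, Polynomial.leadingCoeff_eq_zero] at h
    exact absurd h hQ
  · rw [← Polynomial.coe_eval₂RingHom, map_multiset_prod, Multiset.map_map] at h
    rw [Multiset.prod_eq_zero_iff, Multiset.mem_map] at h
    obtain ⟨a, -, ha⟩ := h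
    refine ⟨a, ?_⟩
    simp only [Function.comp_apply, Polynomial.coe_eval₂RingHom, Polynomial.eval₂_sub,
      Polynomial.eval₂_X, Polynomial.eval₂_C] at ha
    have h5 : res (⟨z, hz⟩ - e (C a)) = 0 := by
      rw [map_sub]; exact ha
    rw [IsLocalRing.residue_eq_zero_iff, ← ValuationSubring.coe_mem_nonunits_iff] at h5
    rw [← emb_C]
    exact h5

end

end Pool.Agent.GrE
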