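import Mathlib
import Pool.Agent.GrE.PlaceV

/-!
Valuation rings: extension of a valuation ring of the constants to a function field with a prescribed
transcendental residue.
-/

set_option autoImplicit false

namespace Pool.Agent.GrE

open Polynomial

section

/-- a ring map into a field with a prime kernel statement: polynomials over `V` outside the reduction ideal -/
theorem place_aux {K E : Type*} [Field K] [Field E] [Algebra K E] (V : ValuationSubring K)
    (x : E) (hx : Transcendental K x) :
    ∃ (O : ValuationSubring E) (f : V[X] →+* O),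
      (∀ q : V[X], ((f q : O) : E) = q.eval₂ ((algebraMap K E).comp V.subtype) x) ∧
      ∀ q : V[X], IsUnit (f q) ↔ q.map (IsLocalRing.residue V) ≠ 0 := by
  set g : V[X] →+* E := eval₂RingHom ((algebraMap K E).comp V.subtype) x with hg
  have ginj : Function.Injective g := by
    rw [injective_iff_map_eq_zero]
    intro q hq
    have h1 : aeval x (q.map V.subtype) = 0 := by
      rw [aeval_def, eval₂_map]
      exact hq
    have h2 : q.map V.subtype = 0 := (transcendental_iff.1 hx) _ h1
    exact (Polynomial.map_eq_zero_iff (f := V.subtype) V.subtype_injective).1 h2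
  set psi : V[X] →+* (IsLocalRing.ResidueField V)[X] := mapRingHom (IsLocalRing.residue V) with hpsi
  set p : Ideal V[X] := RingHom.ker psi with hp
  have : p.IsPrime := RingHom.ker_isPrime psi
  have hunit : ∀ y : p.primeCompl, IsUnit (g y) := fun y => by
    rw [isUnit_iff_ne_zero]
    intro h0
    have : (y : V[X]) = 0 := ginj (by rw [h0, map_zero])
    exact y.2 (by rw [this]; exact p.zero_mem)
  set G : Localization.AtPrime p →+* E := IsLocalization.lift (M := p.primeCompl) hunit with hG
  obtain ⟨O, hO, hloc⟩ := IsLocalRing.exists_factor_valuationRing (R := Localization.AtPrime p) G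
  set F : Localization.AtPrime p →+* O := G.codRestrict O.toSubring hO with hF
  refine ⟨O, F.comp (algebraMap V[X] (Localization.AtPrime p)), fun q => ?_, fun q => ?_⟩
  · show G (algebraMap V[X] (Localization.AtPrime p) q) = _
    rw [hG, IsLocalization.lift_eq]
    rfl
  · have h1 : IsUnit (F (algebraMap V[X] (Localization.AtPrime p) q)) ↔
        IsUnit (algebraMap V[X] (Localization.AtPrime p) q) := ⟨fun h => hloc.map_nonunit _ h, fun h => h.map F⟩
    show IsUnit (F (algebraMap V[X] (Localization.AtPrime p) q)) ↔ _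
    rw [h1, IsLocalization.AtPrime.isUnit_to_map_iff (Localization.AtPrime p) p q]
    exact Iff.rfl

/-- Let `V` be a valuation ring of `K`, `E` a field over `K`, `x ∈ E` transcendental over `K`.  There is a
valuation ring `O` of `E` with `O ∩ K = V`, `x ∈ O`, such that the residue of `x` is transcendental
over the residue field of `V`.
Proof: the subring `V[x]` of `E` is a polynomial ring, `m_V V[x]` is a prime ideal of it; take a
valuation ring of `E` which dominates the localization of `V[x]` at this prime (`LocalSubring`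
and `ValuationSubring` in Mathlib).  It dominates `V`, hence meets `K` in `V`. -/
theorem place_exists {K E : Type*} [Field K] [Field E] [Algebra K E] (V : ValuationSubring K)
    (x : E) (hx : Transcendental K x) :
    ∃ (O : ValuationSubring E) (hxO : x ∈ O)
      (ι : IsLocalRing.ResidueField V →+* IsLocalRing.ResidueField O),
      (∀ c : K, algebraMap K E c ∈ O ↔ c ∈ V) ∧
      (∀ (c : V) (hc : algebraMap K E c ∈ O),
        IsLocalRing.residue O ⟨algebraMap K E c, hc⟩ = ι (IsLocalRing.residue V c)) ∧
      ∀ P : (IsLocalRing.ResidueField V)[X],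
        P.eval₂ ι (IsLocalRing.residue O ⟨x, hxO⟩) = 0 → P = 0 := by
  obtain ⟨O, f, hf, hu⟩ := place_aux V x hx
  have hX : ((f X : O) : E) = x := by rw [hf, eval₂_X]
  have hxO : x ∈ O := hX ▸ (f X).2
  have hC : ∀ c : V, ((f (C c) : O) : E) = algebraMap K E c := fun c => by
    rw [hf, eval₂_C]
    rfl
  set j : V →+* O := f.comp C with hj
  have : IsLocalHom j := ⟨fun c hc => by
    have h1 : IsUnit (f (C c)) := hc
    rw [hu, map_C, Ne, C_eq_zero] at h1
    exact (IsLocalRing.residue_ne_zero_iff_isUnit c).1 h1⟩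
  refine ⟨O, hxO, IsLocalRing.ResidueField.map j, fun c => ⟨fun h => ?_, fun h => ?_⟩, fun c hc => ?_,
    fun P hP => ?_⟩
  · by_contra hcV
    have hc0 : c ≠ 0 := fun h0 => hcV (h0 ▸ V.zero_mem)
    have hi : c⁻¹ ∈ V := (V.mem_or_inv_mem c).resolve_left hcV
    have h1 : ¬ IsUnit (⟨c⁻¹, hi⟩ : V) := fun hun => by
      obtain ⟨u, hu'⟩ := hun
      have h2 : ((u⁻¹ : Vˣ) : V) * ⟨c⁻¹, hi⟩ = 1 := by rw [← hu']; exact u.inv_mul
      have h3 : (((u⁻¹ : Vˣ) : V) : K) * c⁻¹ = 1 := congrArg Subtype.val h2
      have h4 : (((u⁻¹ : Vˣ) : V) : K) = c := by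
        field_simp at h3
        exact h3
      exact hcV (h4 ▸ ((u⁻¹ : Vˣ) : V).2)
    refine h1 (isUnit_of_map_unit j _ ?_)
    have h5 : j ⟨c⁻¹, hi⟩ * ⟨algebraMap K E c, h⟩ = 1 := Subtype.ext (by
      show ((j ⟨c⁻¹, hi⟩ : O) : E) * algebraMap K E c = 1
      have h6 : ((j ⟨c⁻¹, hi⟩ : O) : E) = algebraMap K E c⁻¹ := hC ⟨c⁻¹, hi⟩
      rw [h6, ← map_mul, inv_mul_cancel₀ hc0, map_one])
    exact IsUnit.of_mul_eq_one _ h5
  · have h1 := (f (C ⟨c, h⟩)).2
    rwa [hC] at h1
  · have h1 : (⟨algebraMap K E c, hc⟩ : O) = j c := Subtype.ext (hC c).symm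
    rw [h1]
    rfl
  · obtain ⟨Q, rfl⟩ := Polynomial.map_surjective (IsLocalRing.residue V) IsLocalRing.residue_surjective P
    by_contra h0
    have h1 : IsUnit (f Q) := (hu Q).2 h0
    have h2 : IsLocalRing.residue O (f Q) =
        (Q.map (IsLocalRing.residue V)).eval₂ (IsLocalRing.ResidueField.map j) (IsLocalRing.residue O ⟨x, hxO⟩) := by
      rw [eval₂_map]
      have h3 : (⟨x, hxO⟩ : O) = f X := Subtype.ext hX.symm
      rw [h3]
      have h4 : ((IsLocalRing.residue O).comp f) = eval₂RingHom
          ((IsLocalRing.ResidueField.map j).comp (IsLocalRing.residue V)) (IsLocalRing.residue O (f X)) := by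
        refine Polynomial.ringHom_ext' ?_ ?_
        · refine RingHom.ext fun c => ?_
          simp [hj]
        · simp
      exact congrArg (fun φ : V[X] →+* IsLocalRing.ResidueField O => φ Q) h4
    rw [hP] at h2
    exact (IsLocalRing.residue_ne_zero_iff_isUnit (f Q)).2 h1 h2

/-- The residue field of a valuation ring of an algebraically closed field is algebraically
closed. -/
theorem residue_algClosed {K : Type*} [Field K] [IsAlgClosed K] (V : ValuationSubring K) :
    IsAlgClosed (IsLocalRing.ResidueField V) := by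
  refine IsAlgClosed.of_exists_root _ fun p hpm hpi => ?_
  have hl : p ∈ lifts (IsLocalRing.residue V) := by
    obtain ⟨Q, hQ⟩ := Polynomial.map_surjective (IsLocalRing.residue V) IsLocalRing.residue_surjective p
    exact (mem_lifts p).2 ⟨Q, hQ⟩
  obtain ⟨q, hq, hd, hqm⟩ := lifts_and_natDegree_eq_and_monic hl hpm
  have hdeg : (q.map V.subtype).degree ≠ 0 := by
    rw [hqm.degree_map]
    intro h0
    have h1 : q.natDegree = 0 := natDegree_eq_of_degree_eq_some (n := 0) h0
    rw [hd] at h1
    exact hpi.natDegree_pos.ne' h1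
  obtain ⟨z, hz⟩ := IsAlgClosed.exists_root (q.map V.subtype) hdeg
  have hint : IsIntegral V z := ⟨q, hqm, by
    rw [IsRoot.def, eval_map] at hz
    exact hz⟩
  obtain ⟨y, hy⟩ := (IsIntegrallyClosed.isIntegral_iff (R := V) (K := K)).1 hint
  refine ⟨IsLocalRing.residue V y, ?_⟩
  rw [← hq, eval_map, eval₂_hom]
  have h1 : q.eval y = 0 := by
    refine V.subtype_injective ?_
    rw [map_zero]
    have h2 : V.subtype (q.eval y) = q.eval₂ V.subtype (V.subtype y) := (eval₂_at_apply V.subtype y).symm
    rw [h2]
    rw [IsRoot.def, eval_map] at hz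
    rw [← hy] at hz
    exact hz
  rw [h1, map_zero]

end

end Pool.Agent.GrE
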