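import Mathlib
import Pool.Agent.GrE.RedE
import Pool.Agent.GrE.Place

/-!
The place of the curve over the nodal curve.
-/

set_option autoImplicit false

namespace Pool.Agent.GrE

open Polynomial IsLocalRing

private lemma br_map {R S : Type*} [CommRing R] [CommRing S] (f : R →+* S) (w : R) (n : ℕ) :
    f (br w n) = br (f w) n := by
  unfold br
  rw [map_sum]
  simp only [map_pow]

/-- An element of a field which satisfies a monic quadratic equation over a valuation ring is in it. -/
private lemma mem_of_quad {E : Type*} [Field E] (O : ValuationSubring E) (a b : O) {u : E}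
    (h : u ^ 2 = a * u + b) : u ∈ O := by
  have h1 : IsIntegral O u := by
    refine ⟨X ^ 2 - (C a * X + C b), ?_, ?_⟩
    · exact monic_X_pow_sub degree_linear_lt
    · rw [eval₂_sub, eval₂_pow, eval₂_X, eval₂_add, eval₂_mul, eval₂_C, eval₂_C, eval₂_X, h]
      exact sub_self _
  obtain ⟨v, hv⟩ := (IsIntegrallyClosed.isIntegral_iff (R := O) (K := E)).1 h1
  rw [← hv]
  exact v.2

private lemma mem_of_pow {E : Type*} [Field E] (O : ValuationSubring E) {g : ℕ} (hg : 0 < g) {u : E}
    (h : u ^ g ∈ O) : u ∈ O := by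
  have h1 : IsIntegral O u := by
    apply IsIntegral.of_pow hg
    exact isIntegral_algebraMap (R := O) (A := E) (x := ⟨u ^ g, h⟩)
  obtain ⟨v, hv⟩ := (IsIntegrallyClosed.isIntegral_iff (R := O) (K := E)).1 h1
  rw [← hv]
  exact v.2

/-- Let `ν² = T ν + N`, `y^g = A(x) + B(x) ν` in a field `E ⊇ K`, `x` transcendental over `K`, `t` in the maximal ideal of
the valuation ring `V` of `K`, and let `A + B ν` have the reduction `h_g`.  Then there are a valuation ring `O` of `E` over
`V` and an embedding `ψ` of `k(z)` in its residue field such that `x`, `ν`, `y` reduce to `μ + w/μ`, `(μ-1)(μ-w)`,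
`z μ` with `μ = ([g+1] - z^g)/[g]`.
Proof.  `O` from `place_exists` (`x̄` transcendental over `k`); `ν`, `y` are integral over `V[x]`, so in `O`.
`x̄ ≠ 1 + w`; `μ := ν̄/(x̄ - 1 - w)`, `μ² - x̄ μ + w = 0` (from `ν̄² = T̄ ν̄ - w (x̄-1-w)²`), so `μ ≠ 0`, `x̄ = μ + w/μ`,
`ν̄ = (x̄-1-w) μ = (μ-1)(μ-w)`; `μ` is transcendental, as `x̄` is algebraic over `k(μ)`.  By `Red.eval`:
`ȳ^g = μ^g ([g+1] - [g] μ)`; `z := ȳ/μ`, `z^g = [g+1] - [g] μ`, so `μ = ([g+1] - z^g)/[g]` and `z` is transcendental;
`ψ` is the embedding with `X ↦ z`. -/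
theorem place_curve {K E : Type*} [Field K] [Field E] [Algebra K E] (V : ValuationSubring K)
    (w t : V) (ht : residue V t = 0) (hw0 : residue V w ≠ 0) {g : ℕ} (hg : 0 < g)
    (hbr : br (residue V w) g ≠ 0) (x ν y : E) (hx : Transcendental K x)
    (hν : ν ^ 2 = aeval x (TT (w : K)) * ν + aeval x (NN (w : K) (t : K)))
    (A B : V[X]) (hy : y ^ g = aeval x (A.map V.subtype) + aeval x (B.map V.subtype) * ν)
    (hR : Red (residue V w) g (A.map (residue V)) (B.map (residue V))) :
    ∃ (O : ValuationSubring E) (ψ : RatFunc (ResidueField V) →+* ResidueField O)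
      (hx : x ∈ O) (hν : ν ∈ O) (hy : y ∈ O),
      (∀ c : K, algebraMap K E c ∈ O → c ∈ V) ∧
      (∀ c : V, ∃ hc : algebraMap K E c ∈ O,
        residue O ⟨algebraMap K E c, hc⟩ = ψ (RatFunc.C (residue V c))) ∧
      residue O ⟨x, hx⟩ = ψ (xm (RatFunc.C (residue V w)) (MM (residue V w) g)) ∧
      residue O ⟨ν, hν⟩ = ψ (nm (RatFunc.C (residue V w)) (MM (residue V w) g)) ∧
      residue O ⟨y, hy⟩ = ψ (RatFunc.X * MM (residue V w) g) := by
  obtain ⟨O, hxO, ι, h1, h2, h3⟩ := place_exists V x hx
  -- constants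
  let e : V →+* O := ((algebraMap K E).comp V.subtype).codRestrict O (fun c => (h1 c).2 c.2)
  have he : ∀ c : V, ((e c : O) : E) = algebraMap K E c := fun c => rfl
  have her : (residue O).comp e = ι.comp (residue V) := by
    ext c
    exact h2 c _
  -- polynomials with coefficients in `V`
  have hval : ∀ P : V[X], ((P.eval₂ e ⟨x, hxO⟩ : O) : E) = aeval x (P.map V.subtype) := by
    intro P
    have h := Polynomial.hom_eval₂ P e O.subtype ⟨x, hxO⟩
    rw [aeval_def, eval₂_map]
    exact h
  have hres : ∀ P : V[X], residue O (P.eval₂ e ⟨x, hxO⟩) =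
      (P.map (residue V)).eval₂ ι (residue O ⟨x, hxO⟩) := by
    intro P
    rw [Polynomial.hom_eval₂, her, eval₂_map]
  have hTT : TT (w : K) = (TT w : V[X]).map V.subtype := by
    unfold TT
    simp
  have hNN : NN (w : K) (t : K) = (NN w t : V[X]).map V.subtype := by
    unfold NN
    simp
  rw [hTT, hNN, ← hval, ← hval] at hν
  have hνO : ν ∈ O := mem_of_quad O _ _ hν
  have hyO : y ∈ O := by
    apply mem_of_pow O hg
    rw [hy, ← hval, ← hval]
    exact O.add_mem _ _ (Subtype.mem _) (O.mul_mem _ _ (Subtype.mem _) hνO)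
  -- the residues
  set xr := residue O ⟨x, hxO⟩ with hxr
  set nr := residue O ⟨ν, hνO⟩ with hnr
  set yr := residue O ⟨y, hyO⟩ with hyr
  set wr := ι (residue V w) with hwr
  have hwr0 : wr ≠ 0 := by
    rw [hwr, Ne, map_eq_zero]
    exact hw0
  have eν : nr ^ 2 = xr * (xr - (1 + wr)) * nr - wr * (xr - (1 + wr)) ^ 2 := by
    have h : (⟨ν, hνO⟩ : O) ^ 2 = (TT w : V[X]).eval₂ e ⟨x, hxO⟩ * ⟨ν, hνO⟩ +
        (NN w t : V[X]).eval₂ e ⟨x, hxO⟩ := Subtype.ext hν
    have h' := congrArg (residue O) h
    rw [map_pow, map_add, map_mul, hres, hres] at h'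
    rw [h']
    unfold TT NN
    simp only [Polynomial.map_mul, Polynomial.map_sub, Polynomial.map_pow, Polynomial.map_X,
      Polynomial.map_C, ht, map_add, map_one, Polynomial.map_add, Polynomial.map_one, eval₂_mul,
      eval₂_sub, eval₂_add, eval₂_one, eval₂_pow, eval₂_X, eval₂_C]
    rw [← hwr, ← hnr, map_zero]
    ring
  have ey : yr ^ g = (A.map (residue V)).eval₂ ι xr + (B.map (residue V)).eval₂ ι xr * nr := by
    have h : (⟨y, hyO⟩ : O) ^ g = A.eval₂ e ⟨x, hxO⟩ + B.eval₂ e ⟨x, hxO⟩ * ⟨ν, hνO⟩ := by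
      apply Subtype.ext
      change y ^ g = _
      rw [hy, ← hval, ← hval]
      rfl
    have h' := congrArg (residue O) h
    rw [map_pow, map_add, map_mul, hres, hres] at h'
    exact h'
  -- `μ`
  have hs : xr - (1 + wr) ≠ 0 := by
    intro h
    have h4 := h3 (X - C (1 + residue V w)) (by
      rw [eval₂_sub, eval₂_X, eval₂_C, map_add, map_one]
      exact h)
    exact X_sub_C_ne_zero _ h4
  set μ := nr / (xr - (1 + wr)) with hμ
  have hnμ : nr = (xr - (1 + wr)) * μ := by
    rw [hμ]
    field_simp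
  have eμ : μ ^ 2 = xr * μ - wr := by
    have h4 : (xr - (1 + wr)) ^ 2 * μ ^ 2 = (xr - (1 + wr)) ^ 2 * (xr * μ - wr) := by
      rw [hnμ] at eν
      linear_combination eν
    exact mul_left_cancel₀ (pow_ne_zero 2 hs) h4
  have hμ0 : μ ≠ 0 := by
    intro h
    rw [h] at eμ
    apply hwr0
    linear_combination eμ
  have exr : xr = xm wr μ := by
    unfold xm
    field_simp
    linear_combination -eμ
  have enr : nr = nm wr μ := by
    unfold nm
    rw [hnμ]
    linear_combination -eμ
  -- transcendence of `μ` and `z`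
  let _ := ι.toAlgebra
  have hιa : ∀ a, ι a = algebraMap (ResidueField V) (ResidueField O) a := fun a => rfl
  have hxtr : Transcendental (ResidueField V) xr := by
    rw [transcendental_iff]
    intro P hP
    exact h3 P hP
  have hμtr : Transcendental (ResidueField V) μ := by
    intro halg
    apply hxtr
    rw [exr]
    unfold xm
    exact halg.add ((isAlgebraic_algebraMap (residue V w)).mul halg.inv)
  have hμtr' : ∀ P : (ResidueField V)[X], P.eval₂ ι μ = 0 → P = 0 := fun P hP =>
    transcendental_iff.1 hμtr P hP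
  have hev := hR.eval ι μ hμtr'
  rw [← hwr, ← exr, ← enr, ← ey] at hev
  set z := yr / μ with hz
  have hyz : yr = z * μ := by
    rw [hz]
    field_simp
  have ez : z ^ g = br wr (g + 1) - br wr g * μ := by
    rw [hz, div_pow, hev]
    unfold hm
    field_simp
  have hbr' : br wr g ≠ 0 := by
    rw [hwr, ← br_map ι (residue V w) g, Ne, map_eq_zero]
    exact hbr
  have hμz : μ = (br wr (g + 1) - z ^ g) / br wr g := by
    rw [ez]
    field_simp
    ring
  have hztr : Transcendental (ResidueField V) z := by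
    intro halg
    apply hμtr
    rw [hμz, hwr, ← br_map ι (residue V w) (g + 1), ← br_map ι (residue V w) g, div_eq_mul_inv]
    exact ((isAlgebraic_algebraMap (br (residue V w) (g + 1))).sub (halg.pow g)).mul
      (isAlgebraic_algebraMap (br (residue V w) g)).inv
  have hinj : Function.Injective (eval₂RingHom ι z) := by
    rw [injective_iff_map_eq_zero]
    intro P hP
    exact transcendental_iff.1 hztr P hP
  have hle : nonZeroDivisors (ResidueField V)[X] ≤
      (nonZeroDivisors (ResidueField O)).comap (eval₂RingHom ι z) :=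
    nonZeroDivisors_le_comap_nonZeroDivisors_of_injective _ hinj
  let ψ : RatFunc (ResidueField V) →+* ResidueField O := RatFunc.liftRingHom (eval₂RingHom ι z) hle
  have hψC : ∀ a, ψ (RatFunc.C a) = ι a := by
    intro a
    rw [RatFunc.liftRingHom_C]
    exact eval₂_C _ _
  have hψX : ψ RatFunc.X = z := by
    rw [RatFunc.liftRingHom_X]
    exact eval₂_X _ _
  have hψM : ψ (MM (residue V w) g) = μ := by
    unfold MM
    rw [map_div₀, map_sub, map_pow, hψX, hψC, hψC, br_map, br_map, ← hwr, ← hμz]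
  refine ⟨O, ψ, hxO, hνO, hyO, fun c hc => (h1 c).1 hc, ?_, ?_, ?_, ?_⟩
  · intro c
    refine ⟨(h1 c).2 c.2, ?_⟩
    rw [hψC]
    exact h2 c _
  · rw [← hxr, exr]
    unfold xm
    rw [map_add, map_mul, map_inv₀, hψM, hψC]
  · rw [← hnr, enr]
    unfold nm
    rw [map_mul, map_sub, map_sub, map_one, hψM, hψC]
  · rw [← hyr, hyz, map_mul, hψM, hψX]

end Pool.Agent.GrE
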