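import Mathlib
import Pool.Agent.GrE.Defs
import Pool.Agent.GrE.Kum

/-!
Separability.
-/

set_option autoImplicit false

namespace Pool.Agent.GrE

open Polynomial Pool.Agent.GrS

/-- A quadratic polynomial with non-zero discriminant is separable, in every characteristic. -/
private lemma Sep_quad {F : Type*} [Field F] (b c : F) (h : b ^ 2 - 4 * c ≠ 0) :
    (X ^ 2 - C b * X + C c : F[X]).Separable := by
  rw [Polynomial.separable_def]
  have hd : derivative (X ^ 2 - C b * X + C c : F[X]) = 2 * X - C b := by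
    simp
    norm_num
  rw [hd]
  have h1 : (C ((b ^ 2 - 4 * c)⁻¹) : F[X]) * (C b ^ 2 - 4 * C c) = 1 := by
    have h2 : (C b ^ 2 - 4 * C c : F[X]) = C (b ^ 2 - 4 * c) := by
      simp only [C_sub, C_mul, C_pow, map_ofNat]
    rw [h2, ← C_mul, inv_mul_cancel₀ h, C_1]
  refine ⟨-4 * C ((b ^ 2 - 4 * c)⁻¹), C ((b ^ 2 - 4 * c)⁻¹) * (2 * X - C b), ?_⟩
  linear_combination h1

private lemma Sep_disc {K : Type*} [Field K] (w t : K) : TT w ^ 2 + 4 * NN w t ≠ 0 := by
  have h1 : (TT w ^ 2 + 4 * NN w t).coeff 4 = 1 := by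
    have h2 : (TT w ^ 2 + 4 * NN w t : K[X]) = X ^ 4 - C (2 * (1 + w)) * X ^ 3 +
        (C ((1 + w) ^ 2 - 4 * w) * X ^ 2 + C (8 * w * (1 + w)) * X + C (4 * t - 4 * w * (1 + w) ^ 2)) := by
      unfold TT NN
      simp only [C_mul, C_add, C_sub, C_pow, C_1, C_ofNat]
      ring
    rw [h2]
    simp only [coeff_add, coeff_sub, coeff_C_mul, coeff_X_pow, coeff_X, coeff_C]
    norm_num
  intro h
  rw [h, coeff_zero] at h1
  exact zero_ne_one h1

/-- `ν` is a root of `Y² - T Y - N`, whose discriminant `T² + 4N` is not zero (coefficient `1` of `x⁴`). -/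
theorem sep_EQ {K : Type*} [Field K] {w t : K}
    [Fact (∀ r : RatFunc K, r ^ 2 ≠ Nf w t + Tf w * r)] :
    Algebra.IsSeparable (RatFunc K) (EQ w t) := by
  have hD : Tf w ^ 2 + 4 * Nf w t ≠ 0 := by
    have h1 : Tf w ^ 2 + 4 * Nf w t = algebraMap K[X] (RatFunc K) (TT w ^ 2 + 4 * NN w t) := by
      unfold Tf Nf
      simp only [map_add, map_mul, map_pow, map_ofNat]
    rw [h1]
    exact (map_ne_zero_iff _ (RatFunc.algebraMap_injective K)).mpr (Sep_disc w t)
  refine ⟨fun u => ?_⟩
  by_cases hu : u.im = 0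
  · have h1 : u = algebraMap (RatFunc K) (EQ w t) u.re := by
      ext
      · rfl
      · exact hu
    rw [h1]
    exact isSeparable_algebraMap _
  · refine (Sep_quad (QuadraticAlgebra.trace u) (QuadraticAlgebra.norm u) ?_).of_dvd
      (minpoly.dvd _ _ ?_)
    · have h2 : QuadraticAlgebra.trace u ^ 2 - 4 * QuadraticAlgebra.norm u =
          u.im ^ 2 * (Tf w ^ 2 + 4 * Nf w t) := by
        rw [QuadraticAlgebra.trace_def, QuadraticAlgebra.norm_def]
        ring
      rw [h2]
      exact mul_ne_zero (pow_ne_zero _ hu) hD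
    · have h3 := QuadraticAlgebra.sq_sub_trace_smul_add_norm_eq_zero (z := u)
      simp only [map_add, map_sub, map_mul, map_pow, aeval_X, aeval_C]
      rw [← Algebra.smul_def]
      exact h3

theorem sep_kum {M E : Type*} [Field M] [Field E] [Algebra M E] {g : ℕ} {f : M}
    (k : Kum M E g f) (hg : (g : M) ≠ 0) : Algebra.IsSeparable M E := by
  rw [← separableClosure.eq_top_iff]
  have ht : k.t ∈ separableClosure M E := by
    rw [mem_separableClosure_iff]
    refine (separable_X_pow_sub_C f hg k.hf).of_dvd (minpoly.dvd _ _ ?_)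
    rw [map_sub, map_pow, aeval_X, aeval_C, k.ht, sub_self]
  rw [eq_top_iff]
  intro x _
  rw [← k.b.sum_repr x]
  refine sum_mem fun i _ => ?_
  rw [k.hb, Algebra.smul_def]
  exact mul_mem (IntermediateField.algebraMap_mem _ _) (pow_mem ht _)

end Pool.Agent.GrE
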