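import Mathlib
import Pool.Agent.GrP.Smooth
import Pool.Agent.GrE.HKb
import Pool.Agent.GrE.HL
import Pool.Agent.GrE.NorL
import Pool.Agent.GrE.Plc
import Pool.Agent.GrE.Sep
import Pool.Agent.GrE.Dft
import Pool.Agent.GrE.Irr

/-!
Assembly: a smooth curve of genus `g` with `K_(m'+1,1) = 0`.
-/

set_option autoImplicit false

namespace Pool.Agent.GrE

open Polynomial Pool.Agent.GrS Pool.Agent.GrP IsLocalRing

/-- The reduction of a polynomial expression with coefficients in `V`. -/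
private lemma res_poly {K E Ω : Type*} [Field K] [Field E] [Algebra K E] [Field Ω]
    (V : ValuationSubring K) (O : ValuationSubring E) (r : O →+* Ω) (κ : V →+* Ω) (x : E)
    (hx : x ∈ O)
    (hc : ∀ c : V, ∃ h : algebraMap K E c ∈ O, r ⟨algebraMap K E c, h⟩ = κ c) (P : V[X]) :
    ∃ h : aeval x (P.map V.subtype) ∈ O,
      r ⟨aeval x (P.map V.subtype), h⟩ = P.eval₂ κ (r ⟨x, hx⟩) := by
  let e : V →+* O := ((algebraMap K E).comp V.subtype).codRestrict O (fun c => (hc c).1)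
  have her : r.comp e = κ := by
    ext c
    exact (hc c).2
  have h := Polynomial.hom_eval₂ P e O.subtype ⟨x, hx⟩
  have h1 : ((P.eval₂ e ⟨x, hx⟩ : O) : E) = aeval x (P.map V.subtype) := by
    rw [aeval_def, eval₂_map]
    exact h
  refine ⟨h1 ▸ Subtype.mem _, ?_⟩
  have h2 : (⟨aeval x (P.map V.subtype), h1 ▸ Subtype.mem _⟩ : O) = P.eval₂ e ⟨x, hx⟩ :=
    Subtype.ext h1.symm
  rw [h2, Polynomial.hom_eval₂, her]

private lemma MM_transc {k : Type*} [Field k] {w : k} {g : ℕ} (hg : 0 < g) (hbr : br w g ≠ 0) :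
    ∀ P : k[X], P.eval₂ RatFunc.C (MM w g) = 0 → P = 0 := by
  intro P hP
  have hX : Transcendental k (RatFunc.X : RatFunc k) := RatFunc.transcendental_X
  have hM : Transcendental k (MM w g) := by
    intro halg
    apply hX
    apply IsAlgebraic.of_pow hg
    have e : (RatFunc.X : RatFunc k) ^ g = algebraMap k (RatFunc k) (br w (g + 1)) -
        algebraMap k (RatFunc k) (br w g) * MM w g := by
      have h0 : RatFunc.C (br w g) ≠ 0 := by
        rw [Ne, map_eq_zero]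
        exact hbr
      unfold MM
      rw [RatFunc.algebraMap_eq_C]
      field_simp
      ring
    rw [e]
    exact (isAlgebraic_algebraMap _).sub ((isAlgebraic_algebraMap _).mul halg)
  exact transcendental_iff.1 hM P hP

private lemma red_sum {k : Type*} [Field k] {g : ℕ} (hg : 0 < g) (hgk : (g : k) ≠ 0) {θ : k}
    (hθ : IsPrimitiveRoot θ g) {w : k} (hw0 : w ≠ 0) (hw : w ^ g ≠ 1) (l : Fin g) :
    ∑ j : Fin g, RatFunc.C ((g : k)⁻¹ * (θ⁻¹) ^ ((l : ℕ) * (g - j))) *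
      (hm (RatFunc.C w) (MM w g) j / ((MM w g - 1) * (MM w g - RatFunc.C w) *
        (1 - RatFunc.C w / (MM w g) ^ 2)) * ((RatFunc.X * MM w g) ^ (j : ℕ))⁻¹) =
    RatFunc.C (br w g) / (RatFunc.C ((1 - w) * (g : k)) * RatFunc.X ^ (g - 1) *
        (1 - RatFunc.C w / (MM w g) ^ 2)) * om (θ ^ (l : ℕ)) (w * θ ^ (l : ℕ)) := by
  set U : RatFunc k := RatFunc.C (br w g) / (RatFunc.C ((1 - w) * (g : k)) * RatFunc.X ^ (g - 1) *
        (1 - RatFunc.C w / (MM w g) ^ 2)) with hU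
  have h1 : ∀ j : Fin g, RatFunc.C ((g : k)⁻¹ * (θ⁻¹) ^ ((l : ℕ) * (g - j))) *
      (hm (RatFunc.C w) (MM w g) j / ((MM w g - 1) * (MM w g - RatFunc.C w) *
        (1 - RatFunc.C w / (MM w g) ^ 2)) * ((RatFunc.X * MM w g) ^ (j : ℕ))⁻¹) =
      U * ((g : k)⁻¹ • (θ⁻¹) ^ ((l : ℕ) * (((Fin.rev j : Fin g) : ℕ) + 1)) •
        ∑ l' : Fin g, θ ^ ((l' : ℕ) * (((Fin.rev j : Fin g) : ℕ) + 1)) •
          om (θ ^ (l' : ℕ)) (w * θ ^ (l' : ℕ))) := by
    intro j
    have hj := j.2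
    have e1 : ((Fin.rev j : Fin g) : ℕ) = g - 1 - j := by
      rw [Fin.val_rev]
      omega
    have e2 : g - 1 - (j : ℕ) + 1 = g - j := by omega
    have h2 := dft hg hθ hw0 hw (s := g - 1 - j) (by omega)
    have e3 : g - 1 - (g - 1 - (j : ℕ)) = j := by omega
    rw [e3] at h2
    rw [form_eq hgk hw0 hw j.2, ← hU, ← h2, e1, e2, RatFunc.smul_eq_C_mul, RatFunc.smul_eq_C_mul,
      map_mul]
    simp only [RatFunc.smul_eq_C_mul]
    ring
  rw [Finset.sum_congr rfl (fun j _ => h1 j), ← Finset.mul_sum]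
  congr 1
  rw [← Finset.smul_sum]
  have h3 := Equiv.sum_comp Fin.revPerm (fun s : Fin g => (θ⁻¹) ^ ((l : ℕ) * ((s : ℕ) + 1)) •
        ∑ l' : Fin g, θ ^ ((l' : ℕ) * ((s : ℕ) + 1)) • om (θ ^ (l' : ℕ)) (w * θ ^ (l' : ℕ)))
  simp only [Fin.revPerm_apply] at h3
  rw [h3]
  exact idft hgk hθ (fun l' : Fin g => om (θ ^ (l' : ℕ)) (w * θ ^ (l' : ℕ))) l

section

variable {E R : Type*} [Field E] [Field R]

/-- `z ∈ O` reduces to `ψ a`. -/
private def Rd (O : ValuationSubring E) (ψ : R →+* ResidueField O) (z : E) (a : R) : Prop :=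
  ∃ h : z ∈ O, residue O ⟨z, h⟩ = ψ a

variable {O : ValuationSubring E} {ψ : R →+* ResidueField O} {z z' : E} {a a' : R}

private lemma Rd.add (h : Rd O ψ z a) (h' : Rd O ψ z' a') : Rd O ψ (z + z') (a + a') := by
  obtain ⟨h1, h2⟩ := h
  obtain ⟨h1', h2'⟩ := h'
  refine ⟨O.add_mem _ _ h1 h1', ?_⟩
  rw [map_add, ← h2, ← h2', ← map_add]
  rfl

private lemma Rd.sub (h : Rd O ψ z a) (h' : Rd O ψ z' a') : Rd O ψ (z - z') (a - a') := by
  obtain ⟨h1, h2⟩ := h
  obtain ⟨h1', h2'⟩ := h'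
  refine ⟨sub_mem h1 h1', ?_⟩
  rw [map_sub, ← h2, ← h2', ← map_sub]
  rfl

private lemma Rd.mul (h : Rd O ψ z a) (h' : Rd O ψ z' a') : Rd O ψ (z * z') (a * a') := by
  obtain ⟨h1, h2⟩ := h
  obtain ⟨h1', h2'⟩ := h'
  refine ⟨O.mul_mem _ _ h1 h1', ?_⟩
  rw [map_mul, ← h2, ← h2', ← map_mul]
  rfl

private lemma Rd.pow (h : Rd O ψ z a) (n : ℕ) : Rd O ψ (z ^ n) (a ^ n) := by
  obtain ⟨h1, h2⟩ := h
  refine ⟨pow_mem h1 n, ?_⟩
  rw [map_pow, ← h2, ← map_pow]
  rfl

private lemma Rd.inv (h : Rd O ψ z a) (ha : a ≠ 0) : Rd O ψ z⁻¹ a⁻¹ := by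
  obtain ⟨h1, h2⟩ := h
  have h3 : residue O ⟨z, h1⟩ ≠ 0 := by
    rw [h2, Ne, map_eq_zero]
    exact ha
  have hu : IsUnit (⟨z, h1⟩ : O) := (residue_ne_zero_iff_isUnit _).1 h3
  obtain ⟨v, hv⟩ := hu.exists_left_inv
  have hv' : (v : E) * z = 1 := congrArg Subtype.val hv
  have hz : z⁻¹ = (v : E) := (eq_inv_of_mul_eq_one_left hv').symm
  have h4 : residue O v * ψ a = 1 := by
    rw [← h2, ← map_mul, hv, map_one]
  refine ⟨hz ▸ v.2, ?_⟩
  rw [map_inv₀]
  have h5 : (⟨z⁻¹, hz ▸ v.2⟩ : O) = v := Subtype.ext hz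
  rw [h5]
  exact eq_inv_of_mul_eq_one_left h4

private lemma Rd.zero : Rd O ψ (0 : E) (0 : R) :=
  ⟨O.zero_mem, by rw [map_zero]; exact map_zero (residue O)⟩

private lemma Rd.sum {ι : Type*} (s : Finset ι) (f : ι → E) (b : ι → R)
    (h : ∀ i ∈ s, Rd O ψ (f i) (b i)) : Rd O ψ (∑ i ∈ s, f i) (∑ i ∈ s, b i) := by
  classical
  induction s using Finset.induction_on with
  | empty => simpa using Rd.zero
  | insert i s hi ih =>
    rw [Finset.sum_insert hi, Finset.sum_insert hi]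
    exact (h i (Finset.mem_insert_self _ _)).add
      (ih (fun j hj => h j (Finset.mem_insert_of_mem hj)))

end

private lemma InL_const_mul {K : Type*} [Field K] {w t : K} {j : ℕ} (c : K) {u : EQ w t}
    (h : InL j u) : InL j (algebraMap K (EQ w t) c * u) := by
  obtain ⟨⟨A, B, rfl⟩, h2⟩ := h
  refine ⟨⟨C c * A, C c * B, ?_⟩, ?_⟩
  · rw [← Algebra.smul_def]
    have hKX : ∀ A : K[X], algebraMap K[X] (RatFunc K) (C c * A) =
        c • algebraMap K[X] (RatFunc K) A := by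
      intro A
      rw [Algebra.smul_def, map_mul]
      rfl
    unfold pp
    ext
    · rw [QuadraticAlgebra.re_smul, ← hKX]
    · rw [QuadraticAlgebra.im_smul, ← hKX]
  · rw [mul_assoc]
    exact (InB_const c).mul h2

private theorem asm_core {K : Type} [Field K] [IsAlgClosed K] (p : ℕ) [Fact p.Prime] [CharP K p]
    (V : ValuationSubring K) [CharP (ResidueField V) p] (w t : V)
    [Fact (∀ r : RatFunc K, r ^ 2 ≠ Nf (w : K) (t : K) + Tf (w : K) * r)]
    (hG : Good (w : K) (t : K)) (ht : residue V t = 0) (g : ℕ) (hg : 0 < g) (hpg : ¬ p ∣ g)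
    (hw0 : residue V w ≠ 0) (hw : ∀ i, 1 ≤ i → i ≤ 2 * g + 2 → residue V w ^ i ≠ 1)
    (θ : ResidueField V) (hθ : IsPrimitiveRoot θ g) (A B : ℕ → V[X])
    (hL : ∀ j ≤ g, InL j (pp (w : K) (t : K) ((A j).map V.subtype) ((B j).map V.subtype)))
    (hR : ∀ j ≤ g, Red (residue V w) j ((A j).map (residue V)) ((B j).map (residue V)))
    {P : K[X]} (hP : QuadraticAlgebra.norm
      (pp (w : K) (t : K) ((A g).map V.subtype) ((B g).map V.subtype)) =
        algebraMap K[X] (RatFunc K) P) (hd : P.natDegree = 1)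
    {E : Type} [Field E] [Algebra (EQ (w : K) (t : K)) E] [Algebra K E] [Algebra K[X] E]
    [Algebra (RatFunc K) E] [IsScalarTower K (EQ (w : K) (t : K)) E]
    [IsScalarTower K[X] (EQ (w : K) (t : K)) E] [IsScalarTower (RatFunc K) (EQ (w : K) (t : K)) E]
    (k : Kum (EQ (w : K) (t : K)) E g
      (pp (w : K) (t : K) ((A g).map V.subtype) ((B g).map V.subtype))) :
    genus K E = g ∧ ∀ m m', m ≤ m' → g ≤ m + m' + 3 →
      (∀ j ≤ m, (m.choose j : ResidueField V) ≠ 0) → kDim K E m' 0 = 0 := by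
  have hgK : (g : K) ≠ 0 := by
    rw [Ne, CharP.cast_eq_zero_iff K p]
    exact hpg
  have hgk : (g : ResidueField V) ≠ 0 := by
    rw [Ne, CharP.cast_eq_zero_iff (ResidueField V) p]
    exact hpg
  have hgen := genus_eq hG hP hd hgK (hL g le_rfl) k
  refine ⟨hgen, ?_⟩
  intro m m' hmm hgm hbin
  -- the functions `x`, `ν`, `y`
  have hT1 : ∀ c : K, algebraMap K E c =
      algebraMap (RatFunc K) E (algebraMap K (RatFunc K) c) := by
    intro c
    rw [IsScalarTower.algebraMap_apply K (EQ (w : K) (t : K)) E,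
      IsScalarTower.algebraMap_apply (RatFunc K) (EQ (w : K) (t : K)) E]
    rfl
  have : IsScalarTower K (RatFunc K) E := IsScalarTower.of_algebraMap_eq hT1
  set x : E := algebraMap (EQ (w : K) (t : K)) E (xE (w : K) (t : K)) with hx
  have hxX : x = algebraMap (RatFunc K) E RatFunc.X := by
    rw [hx, IsScalarTower.algebraMap_apply (RatFunc K) (EQ (w : K) (t : K)) E]
    rfl
  have hae : ∀ Q : K[X], aeval x Q = algebraMap (RatFunc K) E (algebraMap K[X] (RatFunc K) Q) := by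
    intro Q
    rw [hxX, aeval_algebraMap_apply, RatFunc.aeval_X_left_eq_algebraMap]
  have hxt : Transcendental K x := by
    rw [transcendental_iff]
    intro Q hQ
    rw [hae, map_eq_zero, map_eq_zero_iff _ (RatFunc.algebraMap_injective K)] at hQ
    exact hQ
  set ν : E := algebraMap (EQ (w : K) (t : K)) E QuadraticAlgebra.omega with hν
  have hae' : ∀ Q : K[X], aeval x Q = algebraMap (EQ (w : K) (t : K)) E
      (algebraMap (RatFunc K) (EQ (w : K) (t : K)) (algebraMap K[X] (RatFunc K) Q)) := by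
    intro Q
    rw [hae, IsScalarTower.algebraMap_apply (RatFunc K) (EQ (w : K) (t : K)) E]
  have hνeq : ν ^ 2 = aeval x (TT (w : K)) * ν + aeval x (NN (w : K) (t : K)) := by
    rw [hae', hae', hν, ← map_pow, ← map_mul, ← map_add]
    congr 1
    rw [sq, QuadraticAlgebra.omega_mul_omega_eq_mk]
    ext
    · simp
      rfl
    · simp
      rfl
  have hpp : ∀ A B : K[X], algebraMap (EQ (w : K) (t : K)) E (pp (w : K) (t : K) A B) =
      aeval x A + aeval x B * ν := by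
    intro A B
    rw [hae', hae', hν, ← map_mul, ← map_add]
    congr 1
    unfold pp
    ext <;> simp
  have hyeq := k.ht
  rw [hpp] at hyeq
  have hbr : br (residue V w) g ≠ 0 := by
    intro h
    apply hw g hg (by omega)
    have h1 := geom_sum_mul (residue V w) g
    unfold br at h
    rw [h, zero_mul] at h1
    exact (sub_eq_zero.1 h1.symm)
  obtain ⟨O, ψ, hxO, hνO, hyO, hK, hV, rx, rν, ry⟩ :=
    place_curve V w t ht hw0 hg hbr x ν k.t hxt hνeq (A g) (B g) hyeq (hR g le_rfl)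
  have hTr := MM_transc (k := ResidueField V) hg hbr
  set wr : ResidueField V := residue V w with hwr
  set M : RatFunc (ResidueField V) := MM wr g with hM
  -- reductions
  have Rx : Rd O ψ x (xm (RatFunc.C wr) M) := ⟨hxO, rx⟩
  have Rν : Rd O ψ ν (nm (RatFunc.C wr) M) := ⟨hνO, rν⟩
  have Ry : Rd O ψ k.t (RatFunc.X * M) := ⟨hyO, ry⟩
  have Rc : ∀ c : V, Rd O ψ (algebraMap K E c) (RatFunc.C (residue V c)) := hV
  have Rp : ∀ Q : V[X], Rd O ψ (aeval x (Q.map V.subtype))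
      ((Q.map (residue V)).eval₂ RatFunc.C (xm (RatFunc.C wr) M)) := by
    intro Q
    obtain ⟨h1, h2⟩ := res_poly V O (residue O) (ψ.comp (RatFunc.C.comp (residue V))) x hxO hV Q
    refine ⟨h1, ?_⟩
    rw [h2, Polynomial.hom_eval₂, eval₂_map, rx]
    rfl
  have Rh : ∀ j ≤ g, Rd O ψ (algebraMap (EQ (w : K) (t : K)) E
      (pp (w : K) (t : K) ((A j).map V.subtype) ((B j).map V.subtype)))
      (hm (RatFunc.C wr) M j) := by
    intro j hj
    rw [hpp, ← (hR j hj).eval RatFunc.C M hTr]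
    exact (Rp _).add ((Rp _).mul Rν)
  have hne : ∀ Q : (ResidueField V)[X], Q ≠ 0 → Q.eval₂ RatFunc.C M ≠ 0 :=
    fun Q hQ h => hQ (hTr Q h)
  have hM0 : M ≠ 0 := by
    have := hne X X_ne_zero
    rwa [eval₂_X] at this
  have hM1 : M - 1 ≠ 0 := by
    have := hne (X - C 1) (X_sub_C_ne_zero 1)
    rwa [eval₂_sub, eval₂_X, eval₂_C, map_one] at this
  have hMw : M - RatFunc.C wr ≠ 0 := by
    have := hne (X - C wr) (X_sub_C_ne_zero wr)
    rwa [eval₂_sub, eval₂_X, eval₂_C] at this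
  have hMs : 1 - RatFunc.C wr / M ^ 2 ≠ 0 := by
    have := hne (X ^ 2 - C wr) (X_pow_sub_C_ne_zero (by norm_num) wr)
    rw [eval₂_sub, eval₂_pow, eval₂_X, eval₂_C] at this
    intro h
    apply this
    have h2 : M ^ 2 * (1 - RatFunc.C wr / M ^ 2) = M ^ 2 - RatFunc.C wr := by
      field_simp
    rw [← h2, h, mul_zero]
  have RW : Rd O ψ (algebraMap (EQ (w : K) (t : K)) E (WE (w : K) (t : K)))
      ((M - 1) * (M - RatFunc.C wr) * (1 - RatFunc.C wr / M ^ 2)) := by
    have hTT : TT (w : K) = (TT w : V[X]).map V.subtype := by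
      unfold TT
      simp
    have e1 : algebraMap (EQ (w : K) (t : K)) E (WE (w : K) (t : K)) =
        ν + ν - aeval x ((TT w : V[X]).map V.subtype) := by
      rw [← hTT, hae', hν, ← map_add, ← map_sub]
      congr 1
      unfold WE
      ext
      · simp
        rfl
      · simp
        norm_num
    have e2 : (M - 1) * (M - RatFunc.C wr) * (1 - RatFunc.C wr / M ^ 2) =
        nm (RatFunc.C wr) M + nm (RatFunc.C wr) M -
          ((TT w : V[X]).map (residue V)).eval₂ RatFunc.C (xm (RatFunc.C wr) M) := by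
      unfold TT nm xm
      simp only [Polynomial.map_mul, Polynomial.map_sub, Polynomial.map_X, Polynomial.map_C,
        map_add, map_one, Polynomial.map_add, Polynomial.map_one, eval₂_mul,
        eval₂_sub, eval₂_add, eval₂_one, eval₂_X, eval₂_C]
      rw [← hwr]
      field_simp
      ring
    rw [e1, e2]
    exact (Rν.add Rν).sub (Rp _)
  have hWne : WE (w : K) (t : K) ≠ 0 := by
    intro h
    have h1 := RW.inv (mul_ne_zero (mul_ne_zero hM1 hMw) hMs)
    have h2 := RW.mul h1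
    rw [h, map_zero, zero_mul, mul_inv_cancel₀ (mul_ne_zero (mul_ne_zero hM1 hMw) hMs)] at h2
    obtain ⟨h3, h4⟩ := h2
    rw [map_one] at h4
    have h5 : (⟨0, h3⟩ : O) = 0 := rfl
    rw [h5, map_zero] at h4
    exact zero_ne_one h4
  -- the forms
  choose c hc using fun (l j : Fin g) =>
    residue_surjective (R := V) ((g : ResidueField V)⁻¹ * (θ⁻¹) ^ ((l : ℕ) * (g - j)))
  have hXM : RatFunc.X * M ≠ 0 := mul_ne_zero RatFunc.X_ne_zero hM0
  have Rf : ∀ l : Fin g, Rd O ψ (elt k (fun j => algebraMap K (EQ (w : K) (t : K)) (c l j) *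
      pp (w : K) (t : K) ((A j).map V.subtype) ((B j).map V.subtype) * (WE (w : K) (t : K))⁻¹))
      (RatFunc.C (br wr g) / (RatFunc.C ((1 - wr) * (g : ResidueField V)) * RatFunc.X ^ (g - 1) *
        (1 - RatFunc.C wr / M ^ 2)) * om (θ ^ (l : ℕ)) (wr * θ ^ (l : ℕ))) := by
    intro l
    rw [hM, ← red_sum hg hgk hθ hw0 (hw g hg (by omega)) l]
    unfold elt
    apply Rd.sum
    intro j _
    have h1 : algebraMap (EQ (w : K) (t : K)) E (algebraMap K (EQ (w : K) (t : K)) (c l j) *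
        pp (w : K) (t : K) ((A j).map V.subtype) ((B j).map V.subtype) *
          (WE (w : K) (t : K))⁻¹) * (k.t ^ (j : ℕ))⁻¹ =
        algebraMap K E (c l j) * (algebraMap (EQ (w : K) (t : K)) E
          (pp (w : K) (t : K) ((A j).map V.subtype) ((B j).map V.subtype)) *
          (algebraMap (EQ (w : K) (t : K)) E (WE (w : K) (t : K)))⁻¹ * (k.t ^ (j : ℕ))⁻¹) := by
      rw [map_mul, map_mul, map_inv₀, ← IsScalarTower.algebraMap_apply K (EQ (w : K) (t : K)) E]
      ring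
    rw [h1, ← hc l j, ← hM, div_eq_mul_inv (hm _ _ _)]
    exact (Rc _).mul (((Rh j j.2.le).mul (RW.inv (mul_ne_zero (mul_ne_zero hM1 hMw) hMs))).mul
      ((Ry.pow _).inv (pow_ne_zero _ hXM)))
  have hw1 : wr ≠ 1 := by
    have := hw 1 le_rfl (by omega)
    rwa [pow_one] at this
  have hU : RatFunc.C (br wr g) / (RatFunc.C ((1 - wr) * (g : ResidueField V)) *
      RatFunc.X ^ (g - 1) * (1 - RatFunc.C wr / M ^ 2)) ≠ 0 := by
    apply div_ne_zero
    · rw [Ne, map_eq_zero]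
      exact hbr
    · refine mul_ne_zero (mul_ne_zero ?_ (pow_ne_zero _ RatFunc.X_ne_zero)) hMs
      rw [Ne, map_eq_zero]
      exact mul_ne_zero (sub_ne_zero.2 (Ne.symm hw1)) hgk
  refine smooth_main (K := K) (E := E) (F := ResidueField V) (R := ResidueField O) ψ p m m' g hg
    hmm hgm hbin wr⁻¹ (inv_ne_zero hw0) ?_ (fun l => θ ^ (l : ℕ)) ?_ ?_ ?_ hgen O (residue O) ?_
    (fun l => elt k (fun j => algebraMap K (EQ (w : K) (t : K)) (c l j) *
      pp (w : K) (t : K) ((A j).map V.subtype) ((B j).map V.subtype) * (WE (w : K) (t : K))⁻¹))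
    ?_ (fun l => (Rf l).choose)
    (ψ (RatFunc.C (br wr g) / (RatFunc.C ((1 - wr) * (g : ResidueField V)) *
      RatFunc.X ^ (g - 1) * (1 - RatFunc.C wr / M ^ 2)))) ?_ (fun l => ?_)
  · intro i j hij hj h
    apply hw (j - i) (by omega) (by omega)
    rw [inv_pow, inv_pow, inv_inj] at h
    have h1 : wr ^ i * wr ^ (j - i) = wr ^ i * 1 := by
      rw [← pow_add, mul_one, h]
      congr 1
      omega
    exact mul_left_cancel₀ (pow_ne_zero _ hw0) h1
  · intro l
    exact pow_ne_zero _ (hθ.ne_zero hg.ne')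
  · intro l l' h
    exact Fin.ext (hθ.pow_inj l.2 l'.2 h)
  · intro l l' h
    apply hw g hg (by omega)
    have h1 : wr * θ ^ (l : ℕ) = θ ^ (l' : ℕ) := by
      rw [show θ ^ (l : ℕ) = wr⁻¹ * θ ^ (l' : ℕ) from h, mul_inv_cancel_left₀ hw0]
    have h2 : (wr * θ ^ (l : ℕ)) ^ g = (θ ^ (l' : ℕ)) ^ g := by rw [h1]
    rw [mul_pow, ← pow_mul, ← pow_mul, mul_comm (l : ℕ), mul_comm (l' : ℕ), pow_mul, pow_mul,
      hθ.pow_eq_one, one_pow, one_pow, mul_one] at h2
    exact h2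
  · intro a ha
    have h1 := hK a ha
    exact ⟨residue V ⟨a, h1⟩, (hV ⟨a, h1⟩).2⟩
  · intro l
    rw [mem_HK hG hP hd hgK (hL g le_rfl) k]
    intro j
    rw [mul_assoc, inv_mul_cancel₀ hWne, mul_one]
    exact InL_const_mul _ (hL j j.2.le)
  · rw [Ne, map_eq_zero]
    exact hU
  · have h1 := (Rf l).choose_spec
    rw [h1, map_mul, inv_inv]

/-- Proof.  `Fact` from `irr`.  For `j ≤ g` choose `A_j`, `B_j` by `exists_h`, `h_j = A_j + B_j ν`; `α = h_g`; `norm_deg` gives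
`P`; `irred` and `exists_kum` give `E = AdjoinRoot (X^g - C α)` and `k : Kum (EQ w t) E g α`, `y = k.t`; finite and separable
by `k.b`, `sep_EQ`, `sep_kum`; `genus_eq`.  `place_curve` with `x = xE`, `ν = ω`, `y`.  For `l < g` let
`f_l = elt k (fun j => c_(l,j) h_j / W)`, `c_(l,j) ∈ V` with residue `g⁻¹ θ^(-l(g-j))`; in `HK K E 1` by `mem_HK`.
`W` reduces to `2 nm - xm (xm - 1 - w) = (μ-1)(μ-w)(1 - w/μ²) ≠ 0` (in `k(z)`, `μ = MM w g`); `y` reduces to `z μ ≠ 0`;
`h_j` reduces to `ψ (hm (C w) μ j)` by `Red.eval` (applied to `ι = C`, `μ = MM w g`, which is transcendental over `k`).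
By `form_eq`, `dft`, `idft` (`s = g - 1 - j`): `f_l` reduces to `u ψ (om (θ^l) (w θ^l))`, `u = ψ ([g]/((1-w) g z^(g-1) (1 - w/μ²)))`.
`smooth_main` with `τ_l = θ^l`, `ρ = w⁻¹` over the residue field of `V`. -/
theorem curve_main {K : Type} [Field K] [IsAlgClosed K] (p : ℕ) [Fact p.Prime] [CharP K p]
    (V : ValuationSubring K) [CharP (ResidueField V) p] (w t : V)
    (hG : Good (w : K) (t : K)) (ht : residue V t = 0) (g : ℕ) (hg : 0 < g) (hpg : ¬ p ∣ g)
    (hw0 : residue V w ≠ 0) (hw : ∀ i, 1 ≤ i → i ≤ 2 * g + 2 → residue V w ^ i ≠ 1)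
    (hs : 1 + residue V w ≠ 0)
    (θ : ResidueField V) (hθ : IsPrimitiveRoot θ g) :
    ∃ (E : Type) (_ : Field E) (_ : Algebra K E) (_ : Algebra K[X] E)
      (_ : Algebra (RatFunc K) E) (_ : IsScalarTower K[X] (RatFunc K) E)
      (_ : IsScalarTower K (RatFunc K) E) (_ : IsScalarTower K K[X] E)
      (_ : FiniteDimensional (RatFunc K) E) (_ : Algebra.IsSeparable (RatFunc K) E),
      genus K E = g ∧ ∀ m m', m ≤ m' → g ≤ m + m' + 3 →
        (∀ j ≤ m, (m.choose j : ResidueField V) ≠ 0) → kDim K E m' 0 = 0 := by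
  have hF : Fact (∀ r : RatFunc K, r ^ 2 ≠ Nf (w : K) (t : K) + Tf (w : K) * r) :=
    ⟨irr hG.w_ne hG.s_ne⟩
  have hgK : (g : K) ≠ 0 := by
    rw [Ne, CharP.cast_eq_zero_iff K p]
    exact hpg
  have hex : ∀ j : ℕ, ∃ A B : V[X], j ≤ g →
      (InL j (pp (w : K) (t : K) (A.map V.subtype) (B.map V.subtype)) ∧
      Red (residue V w) j (A.map (residue V)) (B.map (residue V))) := by
    intro j
    by_cases hj : j ≤ g
    · obtain ⟨A, B, h1, h2⟩ := exists_h V w t ht hw0 hs j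
        (fun i hi1 hi2 => hw i hi1 (by omega))
      exact ⟨A, B, fun _ => ⟨h1, h2⟩⟩
    · exact ⟨0, 0, fun h => absurd h hj⟩
  choose A B hAB using hex
  obtain ⟨P, hd, hP⟩ := norm_deg V w t ht hw0 hs g (hw g hg (by omega))
    (hw (g + 1) (by omega) (by omega)) (A g) (B g) (hAB g le_rfl).1 (hAB g le_rfl).2
  have hα0 : pp (w : K) (t : K) ((A g).map V.subtype) ((B g).map V.subtype) ≠ 0 := by
    intro h
    rw [h, QuadraticAlgebra.norm_zero] at hP
    have h1 : P = 0 := by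
      rwa [eq_comm, map_eq_zero_iff _ (RatFunc.algebraMap_injective K)] at hP
    rw [h1, natDegree_zero] at hd
    exact zero_ne_one hd
  have hI : Fact (Irreducible (X ^ g -
      C (pp (w : K) (t : K) ((A g).map V.subtype) ((B g).map V.subtype)) :
        (EQ (w : K) (t : K))[X])) := ⟨irred hG hP hd hg⟩
  obtain ⟨k⟩ := exists_kum hα0 hg
  have hgM : (g : EQ (w : K) (t : K)) ≠ 0 := by
    have h1 : (g : EQ (w : K) (t : K)) = algebraMap K (EQ (w : K) (t : K)) (g : K) :=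
      (map_natCast _ g).symm
    rw [h1, Ne, map_eq_zero]
    exact hgK
  have s1 := sep_EQ (w := (w : K)) (t := (t : K))
  have s2 := sep_kum k hgM
  have f1 : FiniteDimensional (RatFunc K) (EQ (w : K) (t : K)) := inferInstance
  have f2 : Module.Finite (EQ (w : K) (t : K)) (AdjoinRoot (X ^ g -
      C (pp (w : K) (t : K) ((A g).map V.subtype) ((B g).map V.subtype)) :
        (EQ (w : K) (t : K))[X])) := Module.Finite.of_basis k.b
  refine ⟨AdjoinRoot (X ^ g -
      C (pp (w : K) (t : K) ((A g).map V.subtype) ((B g).map V.subtype)) :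
        (EQ (w : K) (t : K))[X]), inferInstance, inferInstance, inferInstance, inferInstance,
        inferInstance, inferInstance, inferInstance, ?_, ?_, ?_⟩
  · exact FiniteDimensional.trans (RatFunc K) (EQ (w : K) (t : K)) _
  · exact Algebra.IsSeparable.trans (RatFunc K) (EQ (w : K) (t : K)) _
  · exact asm_core p V w t hG ht g hg hpg hw0 hw θ hθ A B (fun j hj => (hAB j hj).1)
      (fun j hj => (hAB j hj).2) hP hd k

end Pool.Agent.GrE
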