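import Mathlib
import Pool.Agent.GrE.Defs

/-!
For fixed `w` almost all `t` are good; the data `K`, `V`, `w`, `t`.
-/

set_option autoImplicit false

namespace Pool.Agent.GrE

open Polynomial

private lemma GoodFin_ev {K : Type*} [Field K] (w t c : K) :
    (TT w).eval c = c * (c - (1 + w)) ∧ (NN w t).eval c = t - w * (c - (1 + w)) ^ 2 ∧
      (derivative (TT w)).eval c = 2 * c - (1 + w) ∧
      (derivative (NN w t)).eval c = -(2 * w * (c - (1 + w))) := by
  refine ⟨?_, ?_, ?_, ?_⟩
  · simp [TT]
  · simp [NN]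
  · simp only [TT, derivative_mul, derivative_X, derivative_sub, derivative_C, eval_add, eval_mul,
      eval_sub, eval_X, eval_C, eval_one, sub_zero]
    ring
  · simp only [NN, derivative_mul, derivative_X, derivative_sub, derivative_C, derivative_pow,
      eval_mul, eval_sub, eval_X, eval_C, eval_one, sub_zero, eval_pow,
      zero_mul, zero_sub, eval_neg, zero_add]
    push_cast
    ring

/-- Proof: at a singular point `(c, n)`: `2n = T(c)`, `(2c - 1 - w) n = 2 w (c - 1 - w)` and `t` is determined by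
`(c, n)`.  `2 ≠ 0`: `n = c (c-1-w)/2`, `c = 1 + w` or `(2c-1-w) c = 4w`: at most three `c`.  `2 = 0`: `(1+w) n = 0`,
`n = 0`, `T(c) = 0`. -/
theorem bad_finite {K : Type*} [Field K] {w : K} (hw : w ≠ 0) (hs : 1 + w ≠ 0) :
    {t : K | ¬ Good w t}.Finite := by
  classical
  rcases eq_or_ne (2 : K) 0 with h2 | h2
  · refine (Set.Finite.image (fun c : K => w * (c - (1 + w)) ^ 2)
      (Set.toFinite ({0, 1 + w} : Set K))).subset ?_
    intro t ht
    by_contra hne
    apply ht
    refine ⟨hw, hs, fun c n e1 e2 e3 => hne ?_⟩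
    obtain ⟨a1, a2, a3, a4⟩ := GoodFin_ev w t c
    rw [a1, a2] at e1
    rw [a1] at e2
    rw [a3, a4] at e3
    have hn : n = 0 := by
      have h3 : (1 + w) * n = 0 := by
        linear_combination (c * n - w * (c - (1 + w))) * h2 - e3
      exact (mul_eq_zero.mp h3).resolve_left hs
    refine ⟨c, ?_, ?_⟩
    · rw [hn, mul_zero] at e2
      rcases mul_eq_zero.mp e2.symm with h | h
      · exact Or.inl h
      · exact Or.inr (sub_eq_zero.mp h)
    · rw [hn] at e1
      change w * (c - (1 + w)) ^ 2 = t
      linear_combination e1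
  · set Q : K[X] := (X - C (1 + w)) * ((C 2 * X - C (1 + w)) * X - C (4 * w)) with hQ
    have hQ0 : Q ≠ 0 := by
      refine mul_ne_zero (X_sub_C_ne_zero _) ?_
      intro h
      have h3 := congrArg (fun q => q.coeff 2) h
      simp only [coeff_sub, coeff_C, coeff_mul_X, coeff_zero] at h3
      norm_num at h3
      exact h2 h3
    refine (Set.Finite.image (fun c : K => (c * (c - (1 + w)) / 2) ^ 2 -
      c * (c - (1 + w)) * (c * (c - (1 + w)) / 2) + w * (c - (1 + w)) ^ 2)
      (Q.roots.toFinset.finite_toSet)).subset ?_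
    intro t ht
    by_contra hne
    apply ht
    refine ⟨hw, hs, fun c n e1 e2 e3 => hne ?_⟩
    obtain ⟨a1, a2, a3, a4⟩ := GoodFin_ev w t c
    rw [a1, a2] at e1
    rw [a1] at e2
    rw [a3, a4] at e3
    have hn : n = c * (c - (1 + w)) / 2 := by
      field_simp
      linear_combination e2
    refine ⟨c, ?_, ?_⟩
    · rw [Finset.mem_coe, Multiset.mem_toFinset, mem_roots hQ0, IsRoot.def, hQ]
      simp only [eval_mul, eval_sub, eval_X, eval_C]
      linear_combination 2 * e3 - (2 * c - (1 + w)) * e2
    · change (c * (c - (1 + w)) / 2) ^ 2 - c * (c - (1 + w)) * (c * (c - (1 + w)) / 2) +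
        w * (c - (1 + w)) ^ 2 = t
      rw [← hn]
      linear_combination e1

end Pool.Agent.GrE
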