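import Mathlib
import Pool.Agent.GrE.Asm
import Pool.Agent.GrE.GoodFin
import Pool.Agent.GrE.PlaceV

/-!
For every prime `p` and every `g` not divisible by `p` there is a smooth curve of genus `g` over an algebraically
closed field of characteristic `p` with `K_(m'+1,1) = 0`.
-/

set_option autoImplicit false

namespace Pool.Agent.GrE

open Polynomial Pool.Agent.GrS Pool.Agent.GrP

private lemma Exi_w (F : Type) [Field F] [IsAlgClosed F] (N : ℕ) :
    ∃ w : F, w ≠ 0 ∧ ∀ i, 1 ≤ i → i ≤ N → w ^ i ≠ 1 := by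
  have : Infinite F := IsAlgClosed.instInfinite
  by_contra hcon
  push Not at hcon
  have h1 : (X * ∏ i ∈ Finset.Icc 1 N, (X ^ i - 1) : F[X]) = 0 := by
    apply Polynomial.zero_of_eval_zero
    intro w
    by_cases hw : w = 0
    · rw [hw]
      simp
    · obtain ⟨i, hi1, hi2, hi⟩ := hcon w hw
      rw [eval_mul, eval_prod, Finset.prod_eq_zero (Finset.mem_Icc.mpr ⟨hi1, hi2⟩), mul_zero]
      simp [hi]
  rcases mul_eq_zero.mp h1 with h2 | h2
  · exact X_ne_zero h2
  · obtain ⟨i, hi, h3⟩ := Finset.prod_eq_zero_iff.mp h2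
    rw [Finset.mem_Icc] at hi
    have h4 : (X ^ i - C (1 : F)).natDegree = i := natDegree_X_pow_sub_C
    rw [C_1, h3, natDegree_zero] at h4
    omega

private lemma Exi_X (F : Type) [Field F] :
    Function.Injective (fun n : ℕ =>
      (algebraMap (RatFunc F) (AlgebraicClosure (RatFunc F)) RatFunc.X) ^ (n + 1)) := by
  intro a b h
  simp only [← map_pow] at h
  have h1 := (algebraMap (RatFunc F) (AlgebraicClosure (RatFunc F))).injective h
  rw [← RatFunc.algebraMap_X, ← map_pow, ← map_pow] at h1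
  have h2 := congrArg natDegree (RatFunc.algebraMap_injective F h1)
  rw [natDegree_X_pow, natDegree_X_pow] at h2
  omega

/-- Proof: `V` from `exists_val F`.  `w ∈ F` with `w ≠ 0`, `w^i ≠ 1` for `1 ≤ i ≤ 2g + 2` (`F` is infinite), `θ ∈ F` a primitive
`g`-th root of unity; `F → V → residue field` is injective.  `w² ≠ 1`, so `1 + w ≠ 0`.  `t = X^n` for
some `n ≥ 1`, by `bad_finite` (the powers are distinct, `X` is transcendental).  `curve_main`. -/
theorem exists_smooth (F : Type) [Field F] [IsAlgClosed F] (p : ℕ) [Fact p.Prime] [CharP F p]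
    (g : ℕ) (hg : 0 < g) (hpg : ¬ p ∣ g) :
    ∃ (E : Type) (_ : Field E) (_ : Algebra (AlgebraicClosure (RatFunc F)) E)
      (_ : Algebra (AlgebraicClosure (RatFunc F))[X] E)
      (_ : Algebra (RatFunc (AlgebraicClosure (RatFunc F))) E)
      (_ : IsScalarTower (AlgebraicClosure (RatFunc F))[X]
        (RatFunc (AlgebraicClosure (RatFunc F))) E)
      (_ : IsScalarTower (AlgebraicClosure (RatFunc F))
        (RatFunc (AlgebraicClosure (RatFunc F))) E)
      (_ : IsScalarTower (AlgebraicClosure (RatFunc F)) (AlgebraicClosure (RatFunc F))[X] E)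
      (_ : FiniteDimensional (RatFunc (AlgebraicClosure (RatFunc F))) E)
      (_ : Algebra.IsSeparable (RatFunc (AlgebraicClosure (RatFunc F))) E),
      genus (AlgebraicClosure (RatFunc F)) E = g ∧ ∀ m m', m ≤ m' → g ≤ m + m' + 3 →
        (∀ j ≤ m, (m.choose j : F) ≠ 0) → kDim (AlgebraicClosure (RatFunc F)) E m' 0 = 0 := by
  obtain ⟨V, hV1, hV2, hV3⟩ := exists_val F
  obtain ⟨w, hw0, hw⟩ := Exi_w F (2 * g + 2)
  have hgF : (g : F) ≠ 0 := by
    rw [Ne, CharP.cast_eq_zero_iff F p]
    exact hpg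
  obtain ⟨θ, hθ⟩ : ∃ θ : F, IsPrimitiveRoot θ g := by
    have : NeZero (g : F) := ⟨hgF⟩
    exact HasEnoughRootsOfUnity.exists_primitiveRoot F g
  have hs : 1 + w ≠ 0 := by
    intro h
    have h1 : w = -1 := by linear_combination h
    exact hw 2 (by norm_num) (by omega) (by rw [h1]; norm_num)
  -- the maps
  let e : F →+* AlgebraicClosure (RatFunc F) :=
    (algebraMap (RatFunc F) (AlgebraicClosure (RatFunc F))).comp RatFunc.C
  let ι : F →+* V := e.codRestrict V hV1
  have hι : ∀ c, (ι c : AlgebraicClosure (RatFunc F)) = e c := fun c => rfl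
  let ρ : F →+* IsLocalRing.ResidueField V := (IsLocalRing.residue V).comp ι
  have hρ : Function.Injective ρ := ρ.injective
  have i1 : CharP (AlgebraicClosure (RatFunc F)) p := charP_of_injective_ringHom e.injective p
  have i2 : CharP (IsLocalRing.ResidueField V) p := charP_of_injective_ringHom hρ p
  -- the choice of `t`
  have hw1 : e w ≠ 0 := by
    rw [Ne, map_eq_zero]
    exact hw0
  have hs1 : 1 + e w ≠ 0 := by
    rw [← map_one e, ← map_add, Ne, map_eq_zero]
    exact hs
  have hbad := bad_finite hw1 hs1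
  obtain ⟨n, hn⟩ : ∃ n : ℕ, Good (e w)
      ((algebraMap (RatFunc F) (AlgebraicClosure (RatFunc F)) RatFunc.X) ^ (n + 1)) := by
    by_contra hcon
    push Not at hcon
    exact (Set.infinite_range_of_injective (Exi_X F)) (hbad.subset (by
      rintro _ ⟨n, rfl⟩
      exact hcon n))
  rw [ValuationSubring.mem_nonunits_iff_exists_mem_maximalIdeal] at hV2
  obtain ⟨hX1, hX2⟩ := hV2
  set T : V := ⟨algebraMap (RatFunc F) (AlgebraicClosure (RatFunc F)) RatFunc.X, hX1⟩ with hT
  have hTr : IsLocalRing.residue V (T ^ (n + 1)) = 0 := by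
    rw [map_pow, (IsLocalRing.residue_eq_zero_iff T).mpr hX2, zero_pow (Nat.succ_ne_zero n)]
  obtain ⟨E, j1, j2, j3, j4, j5, j6, j7, j8, j9, hgen, hK⟩ :=
    curve_main p V (ι w) (T ^ (n + 1)) hn hTr g hg hpg
      (by
        change ρ w ≠ 0
        rw [Ne, map_eq_zero]
        exact hw0)
      (by
        intro i hi1 hi2 h
        apply hw i hi1 hi2
        apply hρ
        rw [map_pow, map_one]
        exact h)
      (by
        change 1 + ρ w ≠ 0
        rw [← map_one ρ, ← map_add, Ne, map_eq_zero]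
        exact hs)
      (ρ θ) (hθ.map_of_injective hρ)
  refine ⟨E, j1, j2, j3, j4, j5, j6, j7, j8, j9, hgen, fun m m' h1 h2 h3 => ?_⟩
  refine hK m m' h1 h2 (fun j hj h => ?_)
  apply h3 j hj
  apply hρ
  rw [map_natCast, map_zero]
  exact h

end Pool.Agent.GrE
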